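import Pool.Agent.Lib.SPC.G9

/-! Formal Siegel forms of low weight in all degrees: definitions (helper75). -/

namespace Pool.Agent.Results.MP_386e47_ag.SpecialCycles

open Complex Finset MeasureTheory

section Siegel

variable {ι : Type*} [Fintype ι] [DecidableEq ι]
variable {V : Type*} [NormedAddCommGroup V] [NormedSpace ℂ V]

/-- The block of `B` away from `i`. -/
def blk (i : ι) (B : Matrix ι ι ℤ) : Matrix {j // j ≠ i} {j // j ≠ i} ℤ := fun p q ↦ B p.1 q.1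

/-- Restriction of the series to `ℍ × ℍ_{g-1}`, coefficient `n` at the vertex `i`. -/
noncomputable def res (a : Matrix ι ι ℤ → V) (i : ι) (n : ℤ)
    (B' : Matrix {j // j ≠ i} {j // j ≠ i} ℤ) : V :=
  ∑' B : {B : Matrix ι ι ℤ // B i i = n ∧ blk i B = B'}, a B.1

/-- The symmetric matrix with diagonal entry `n` at `i`, row `b` at `i`, and block `S`. -/
def mk (i : ι) (n : ℤ) (b : {j // j ≠ i} → ℤ) (S : Matrix {j // j ≠ i} {j // j ≠ i} ℤ) :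
    Matrix ι ι ℤ := fun p q ↦
  if hp : p = i then (if hq : q = i then n else b ⟨q, hq⟩)
  else (if hq : q = i then b ⟨p, hp⟩ else S ⟨p, hp⟩ ⟨q, hq⟩)

end Siegel

section Jacobi

variable {J : Type*} [Fintype J] [DecidableEq J]
variable {V : Type*} [NormedAddCommGroup V] [NormedSpace ℂ V]

/-- The series `∑ c(n,b) e((n τ + 2 b·z)/N)`. -/
noncomputable def jac (N : ℕ) (c : ℤ → (J → ℤ) → V) (τ : ℂ) (z : J → ℂ) : V :=
  ∑' p : ℤ × (J → ℤ), e ((p.1 * τ + 2 * ∑ j, p.2 j * z j) / N) • c p.1 p.2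

/-- The real quadratic form of `S`. -/
def QS (S : Matrix J J ℤ) (x : J → ℝ) : ℝ := ∑ j, ∑ l, (S j l : ℝ) * x j * x l

/-- Formal Jacobi forms of weight `k` and lattice index `S / N` (norms only). -/
structure IsJac (N : ℕ) (k : ℝ) (S : Matrix J J ℤ) (c : ℤ → (J → ℤ) → V) : Prop where
  psd : ∀ (n : ℤ) (b : J → ℤ), c n b ≠ 0 → ∀ x : J → ℝ, 0 ≤ (n : ℝ) + 2 * ∑ j, (b j : ℝ) * x j + QS S x
  summ : ∀ δ C : ℝ, 0 < δ → Summable fun p : ℤ × (J → ℤ) ↦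
    Real.exp (-(δ * p.1) + C * ∑ j, |(p.2 j : ℝ)|) * ‖c p.1 p.2‖
  per : ∀ μ : J → ℤ, ∃ σ : V →ₗᵢ[ℂ] V, ∀ (n : ℤ) (b : J → ℤ),
    e (2 * (∑ j, (b j : ℂ) * μ j) / N) • c n b = σ (c n b)
  per1 : ∃ σ : V →ₗᵢ[ℂ] V, ∀ (n : ℤ) (b : J → ℤ), e ((n : ℂ) / N) • c n b = σ (c n b)
  quasi : ∀ l : J → ℤ, ∃ ρ : V →ₗᵢ[ℂ] V, ∀ (n : ℤ) (b : J → ℤ),
    c (n + 2 * (b ⬝ᵥ l) + l ⬝ᵥ (S.mulVec l)) (b + S.mulVec l) = ρ (c n b)
  inv : ∃ ρ : V →ₗᵢ[ℂ] V, ∀ (τ : ℂ) (z : J → ℂ), 0 < τ.im →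
    jac N c (-1 / τ) (fun j ↦ z j / τ) =
      (τ ^ (k : ℂ) * e ((∑ j, ∑ l, S j l * z j * z l) / (N * τ))) • ρ (jac N c τ z)

/-- The vector `S⁻¹ b`. -/
noncomputable def sv (S : Matrix J J ℤ) (b : J → ℤ) : J → ℝ :=
  (S.map (fun x : ℤ ↦ (x : ℝ)))⁻¹.mulVec (fun j ↦ (b j : ℝ))

/-- `S⁻¹[b]`. -/
noncomputable def sq (S : Matrix J J ℤ) (b : J → ℤ) : ℝ := ∑ j, (b j : ℝ) * sv S b j

/-- The theta coefficients. -/
noncomputable def hb (N : ℕ) (S : Matrix J J ℤ) (c : ℤ → (J → ℤ) → V) (b : J → ℤ) (τ : ℂ) : V :=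
  ∑' n : ℤ, e (((n : ℂ) - (sq S b : ℂ)) * τ / N) • c n b

/-- The unit cube. -/
def cube (J : Type*) : Set (J → ℝ) := Set.pi Set.univ fun _ ↦ Set.Ico (0 : ℝ) 1

/-- The torus integral of the invariant norm square. -/
noncomputable def PP (N : ℕ) (S : Matrix J J ℤ) (c : ℤ → (J → ℤ) → V) (τ : ℂ) : ENNReal :=
  ∫⁻ α in cube J, ∫⁻ β in cube J, ENNReal.ofReal
    (‖jac N c τ (fun j ↦ τ * (α j : ℂ) + (β j : ℂ))‖ ^ 2 *
      Real.exp (-(4 * Real.pi * τ.im * QS S α / N)))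

/-- The subgroup `S ℤ^J` of `ℤ^J`. -/
def lat (S : Matrix J J ℤ) : AddSubgroup (J → ℤ) := S.mulVecLin.toAddMonoidHom.range

end Jacobi

/-- The products of the constants `3/4` and `2/3`. -/
noncomputable def kap : ℕ → ℝ
  | 0 => 1
  | 1 => 3 / 4
  | (n + 2) => 2 / 3 * kap n

end Pool.Agent.Results.MP_386e47_ag.SpecialCycles
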