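import Pool.Agent.Lib.SPX.Defs

/-! Row J2 (helper46): the quotient by `S ℤ^J` and the tiling of `ℝ^J` by cubes. -/

namespace Pool.Agent.Results.MP_386e47_ag.SpecialCycles

open Complex Finset MeasureTheory

section Jacobi

variable {J : Type*} [Fintype J] [DecidableEq J]

/-- The determinant of a definite matrix is not zero. -/
theorem J2_det_ne {S : Matrix J J ℤ} (hpd : ∀ x : J → ℝ, x ≠ 0 → 0 < QS S x) :
    (S.map (fun x : ℤ ↦ (x : ℝ))).det ≠ 0 := by
  intro h0
  obtain ⟨x, hx, hSx⟩ := Matrix.exists_mulVec_eq_zero_iff.2 h0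
  have h1 : QS S x = x ⬝ᵥ ((S.map (fun x : ℤ ↦ (x : ℝ))).mulVec x) := by
    unfold QS
    simp only [dotProduct, Matrix.mulVec, Matrix.map_apply, Finset.mul_sum]
    refine Finset.sum_congr rfl fun i _ ↦ Finset.sum_congr rfl fun j _ ↦ ?_
    ring
  have h2 := hpd x hx
  rw [h1, hSx, dotProduct_zero] at h2
  exact lt_irrefl _ h2

theorem J2_det_int {S : Matrix J J ℤ} (hpd : ∀ x : J → ℝ, x ≠ 0 → 0 < QS S x) : S.det ≠ 0 := by
  intro h0
  apply J2_det_ne hpd
  have := Int.cast_det (R := ℝ) S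
  have h1 : (S.map (fun x : ℤ ↦ (x : ℝ))).det = ((S.det : ℤ) : ℝ) := this.symm
  rw [h1, h0, Int.cast_zero]

/-- Multiples of the determinant lie in the lattice. -/
theorem J2_mem (S : Matrix J J ℤ) (b : J → ℤ) : S.det • b ∈ lat S := by
  refine ⟨S.adjugate.mulVec b, ?_⟩
  change S.mulVec (S.adjugate.mulVec b) = S.det • b
  rw [Matrix.mulVec_mulVec, Matrix.mul_adjugate, Matrix.smul_mulVec, Matrix.one_mulVec]

theorem lat_finite {S : Matrix J J ℤ} (hS : S.IsSymm)
    (hpd : ∀ x : J → ℝ, x ≠ 0 → 0 < QS S x) : Finite ((J → ℤ) ⧸ lat S) := by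
  have hd := J2_det_int hpd
  obtain ⟨m, hm⟩ : ∃ m : ℕ, m = S.det.natAbs := ⟨_, rfl⟩
  have hm0 : 0 < m := by rw [hm]; exact Int.natAbs_pos.2 hd
  have hmZ : (0 : ℤ) < m := by exact_mod_cast hm0
  let f : (J → Fin m) → (J → ℤ) ⧸ lat S := fun v ↦ QuotientAddGroup.mk fun j ↦ ((v j : ℕ) : ℤ)
  refine Finite.of_surjective f fun q ↦ ?_
  obtain ⟨b, rfl⟩ := QuotientAddGroup.mk_surjective q
  have hlt : ∀ j, (b j % (m : ℤ)).toNat < m := fun j ↦ by
    have h1 := Int.emod_nonneg (b j) hmZ.ne'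
    have h2 := Int.emod_lt_of_pos (b j) hmZ
    omega
  refine ⟨fun j ↦ ⟨(b j % (m : ℤ)).toNat, hlt j⟩, ?_⟩
  change QuotientAddGroup.mk _ = QuotientAddGroup.mk _
  rw [QuotientAddGroup.eq]
  have h3 : (-(fun j ↦ (((b j % (m : ℤ)).toNat : ℕ) : ℤ)) + b) =
      S.det • (fun j ↦ (if 0 < S.det then b j / (m : ℤ) else -(b j / (m : ℤ)))) := by
    funext j
    have h1 := Int.emod_nonneg (b j) hmZ.ne'
    have h4 : (((b j % (m : ℤ)).toNat : ℕ) : ℤ) = b j % (m : ℤ) := Int.toNat_of_nonneg h1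
    have h5 := Int.emod_add_mul_ediv (b j) (m : ℤ)
    simp only [Pi.add_apply, Pi.neg_apply, Pi.smul_apply, smul_eq_mul]
    rw [h4]
    rcases lt_or_gt_of_ne hd with hneg | hpos
    · have h6 : (m : ℤ) = -S.det := by
        rw [hm, Int.natCast_natAbs, abs_of_neg hneg]
      rw [if_neg (not_lt.2 hneg.le)]
      have h7 : S.det * -(b j / (m : ℤ)) = (m : ℤ) * (b j / (m : ℤ)) := by
        rw [h6]; ring
      rw [h7]
      linarith
    · have h6 : (m : ℤ) = S.det := by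
        rw [hm, Int.natCast_natAbs, abs_of_pos hpos]
      rw [if_pos hpos, ← h6]
      linarith
  rw [h3]
  exact J2_mem S _

theorem J2_sv_add {S : Matrix J J ℤ} (hpd : ∀ x : J → ℝ, x ≠ 0 → 0 < QS S x) (b l : J → ℤ) :
    sv S (b + S.mulVec l) = sv S b + fun j ↦ (l j : ℝ) := by
  have hd := J2_det_ne hpd
  have hu : IsUnit (S.map (fun x : ℤ ↦ (x : ℝ))).det := isUnit_iff_ne_zero.2 hd
  have h1 : (fun j ↦ (((b + S.mulVec l) j : ℤ) : ℝ)) = (fun j ↦ (b j : ℝ)) +
      (S.map (fun x : ℤ ↦ (x : ℝ))).mulVec (fun j ↦ (l j : ℝ)) := by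
    funext j
    simp [Matrix.mulVec, dotProduct]
  unfold sv
  rw [h1, Matrix.mulVec_add, Matrix.mulVec_mulVec, Matrix.nonsing_inv_mul _ hu, Matrix.one_mulVec]

/-- The tiling of `ℝ^J` by unit cubes. -/
theorem J2_tile (E : (J → ℝ) → ENNReal) (hE : Measurable E) :
    ∫⁻ α in cube J, ∑' l : J → ℤ, E (α + fun j ↦ (l j : ℝ)) = ∫⁻ α, E α := by
  have hcube : MeasurableSet (cube J) :=
    MeasurableSet.univ_pi fun _ ↦ measurableSet_Ico
  have hadd : ∀ y : J → ℝ, Measurable fun α : J → ℝ ↦ E (α + y) := fun y ↦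
    hE.comp (measurable_id.add_const y)
  rw [lintegral_tsum fun l ↦ (hadd _).aemeasurable]
  let C : (J → ℤ) → Set (J → ℝ) := fun l ↦ {z | ∀ j, (l j : ℝ) ≤ z j ∧ z j < l j + 1}
  have hC : ∀ l, MeasurableSet (C l) := by
    intro l
    have : C l = Set.pi Set.univ fun j ↦ Set.Ico ((l j : ℝ)) (l j + 1) := by
      ext z
      simp [C, Set.mem_pi]
    rw [this]
    exact MeasurableSet.univ_pi fun _ ↦ measurableSet_Ico
  have hU : (⋃ l, C l) = Set.univ := by
    ext z
    simp only [Set.mem_iUnion, Set.mem_univ, iff_true]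
    exact ⟨fun j ↦ ⌊z j⌋, fun j ↦ ⟨Int.floor_le _, Int.lt_floor_add_one _⟩⟩
  have hD : Pairwise (Function.onFun Disjoint C) := by
    intro l l' hl
    rw [Function.onFun, Set.disjoint_left]
    intro z hz hz'
    apply hl
    funext j
    have h1 := hz j
    have h2 := hz' j
    have h3 : (l j : ℝ) < l' j + 1 := by linarith [h1.1, h2.2]
    have h4 : (l' j : ℝ) < l j + 1 := by linarith [h2.1, h1.2]
    have h5 : l j < l' j + 1 := by exact_mod_cast h3
    have h6 : l' j < l j + 1 := by exact_mod_cast h4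
    omega
  have h1 : ∫⁻ α, E α = ∑' l, ∫⁻ α in C l, E α := by
    rw [← lintegral_iUnion hC hD, hU, setLIntegral_univ]
  rw [h1]
  refine tsum_congr fun l ↦ ?_
  rw [← lintegral_indicator hcube, ← lintegral_indicator (hC l),
    ← lintegral_add_right_eq_self ((C l).indicator E) (fun j ↦ (l j : ℝ))]
  refine lintegral_congr fun α ↦ ?_
  have h2 : (α + fun j ↦ (l j : ℝ)) ∈ C l ↔ α ∈ cube J := by
    simp only [C, cube, Set.mem_ofPred_eq, Set.mem_pi, Set.mem_univ, true_implies, Set.mem_Ico,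
      Pi.add_apply]
    refine forall_congr' fun j ↦ ?_
    constructor
    · rintro ⟨h3, h4⟩
      exact ⟨by linarith, by linarith⟩
    · rintro ⟨h3, h4⟩
      exact ⟨by linarith, by linarith⟩
  by_cases h : α ∈ cube J
  · rw [Set.indicator_of_mem h, Set.indicator_of_mem (h2.2 h)]
  · rw [Set.indicator_of_notMem h, Set.indicator_of_notMem fun h3 ↦ h (h2.1 h3)]

theorem unfold_int {S : Matrix J J ℤ} (hS : S.IsSymm)
    (hpd : ∀ x : J → ℝ, x ≠ 0 → 0 < QS S x) (f : (J → ℤ) → ENNReal)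
    (hf : ∀ b l, f (b + S.mulVec l) = f b) (E : (J → ℝ) → ENNReal) (hE : Measurable E) :
    ∫⁻ α in cube J, ∑' b : J → ℤ, f b * E (α + sv S b) =
      (∑' q : (J → ℤ) ⧸ lat S, f q.out) * ∫⁻ α, E α := by
  have hfin := lat_finite hS hpd
  have hdet := J2_det_int hpd
  have hinj : ∀ l l' : J → ℤ, S.mulVec l = S.mulVec l' → l = l' := by
    intro l l' h
    have h1 : S.mulVec (l - l') = 0 := by rw [Matrix.mulVec_sub, h, sub_self]
    exact sub_eq_zero.1 (Matrix.eq_zero_of_mulVec_eq_zero hdet h1)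
  let Φ : ((J → ℤ) ⧸ lat S) × (J → ℤ) → (J → ℤ) := fun p ↦ p.1.out + S.mulVec p.2
  have hmem : ∀ l : J → ℤ, S.mulVec l ∈ lat S := fun l ↦ ⟨l, rfl⟩
  have hΦ : Function.Bijective Φ := by
    constructor
    · rintro ⟨q, l⟩ ⟨q', l'⟩ h
      have h0 : q.out + S.mulVec l = q'.out + S.mulVec l' := h
      have h1 : q = q' := by
        rw [← QuotientAddGroup.out_eq' q, ← QuotientAddGroup.out_eq' q', QuotientAddGroup.eq]
        have h2 : -q.out + q'.out = S.mulVec (l - l') := by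
          rw [Matrix.mulVec_sub, eq_sub_iff_add_eq, add_assoc, ← h0]
          abel
        rw [h2]
        exact hmem _
      subst h1
      have h3 := hinj l l' (add_left_cancel h0)
      rw [h3]
    · intro b
      obtain ⟨q, hq⟩ : ∃ q : (J → ℤ) ⧸ lat S, q = QuotientAddGroup.mk b := ⟨_, rfl⟩
      have h1 : (QuotientAddGroup.mk q.out : (J → ℤ) ⧸ lat S) = QuotientAddGroup.mk b := by
        rw [← hq]
        exact QuotientAddGroup.out_eq' q
      rw [QuotientAddGroup.eq] at h1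
      obtain ⟨l, hl⟩ := h1
      have hl' : S.mulVec l = -q.out + b := hl
      refine ⟨(q, l), ?_⟩
      change q.out + S.mulVec l = b
      rw [hl']
      abel
  have hsum : ∀ α : J → ℝ, ∑' b : J → ℤ, f b * E (α + sv S b) =
      ∑' q : (J → ℤ) ⧸ lat S, f q.out *
        ∑' l : J → ℤ, E (α + (fun j ↦ (l j : ℝ)) + sv S q.out) := by
    intro α
    rw [← (Equiv.ofBijective Φ hΦ).tsum_eq]
    simp only [Equiv.ofBijective_apply]
    rw [ENNReal.tsum_prod' (f := fun p : ((J → ℤ) ⧸ lat S) × (J → ℤ) ↦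
      f (Φ p) * E (α + sv S (Φ p)))]
    refine tsum_congr fun q ↦ ?_
    rw [← ENNReal.tsum_mul_left]
    refine tsum_congr fun l ↦ ?_
    change f (q.out + S.mulVec l) * E (α + sv S (q.out + S.mulVec l)) = _
    rw [hf, J2_sv_add hpd]
    congr 2
    abel
  have hadd : ∀ y : J → ℝ, Measurable fun α : J → ℝ ↦ E (α + y) := fun y ↦
    hE.comp (measurable_id.add_const y)
  simp only [hsum]
  have hcount : Countable ((J → ℤ) ⧸ lat S) := Finite.to_countable
  have hm : ∀ y : J → ℝ, Measurable fun α : J → ℝ ↦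
      ∑' l : J → ℤ, E (α + (fun j ↦ (l j : ℝ)) + y) := fun y ↦
    Measurable.tsum fun l ↦ (hadd y).comp (measurable_id.add_const _)
  rw [lintegral_tsum fun q ↦ ((hm _).const_mul _).aemeasurable, ← ENNReal.tsum_mul_right]
  refine tsum_congr fun q ↦ ?_
  rw [lintegral_const_mul _ (hm _)]
  congr 1
  rw [J2_tile (fun α ↦ E (α + sv S q.out)) (hadd _)]
  exact lintegral_add_right_eq_self E (sv S q.out)

end Jacobi

end Pool.Agent.Results.MP_386e47_ag.SpecialCycles
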