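import Pool.Agent.Lib.SPX.Defs

/-! Row J3: scaling of the Gaussian integral of a positive definite quadratic form. -/

namespace Pool.Agent.Results.MP_386e47_ag.SpecialCycles

open Complex Finset MeasureTheory

section Jacobi

variable {J : Type*} [Fintype J] [DecidableEq J]

namespace J3x

lemma continuous_QS (S : Matrix J J ℤ) : Continuous (QS S) := by
  unfold QS
  fun_prop

lemma QS_smul (S : Matrix J J ℤ) (r : ℝ) (x : J → ℝ) : QS S (r • x) = r ^ 2 * QS S x := by
  unfold QS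
  rw [Finset.mul_sum]
  refine Finset.sum_congr rfl fun j _ => ?_
  rw [Finset.mul_sum]
  refine Finset.sum_congr rfl fun l _ => ?_
  simp only [Pi.smul_apply, smul_eq_mul]
  ring

/-- The lower bound by a multiple of the square length. -/
lemma exists_lower (S : Matrix J J ℤ) (hpd : ∀ x : J → ℝ, x ≠ 0 → 0 < QS S x) :
    ∃ c : ℝ, 0 < c ∧ ∀ x : J → ℝ, c * ∑ j, x j ^ 2 ≤ QS S x := by
  set K : Set (J → ℝ) := {x | ∑ j, x j ^ 2 = 1} with hK
  have hKc : IsCompact K := by
    refine Metric.isCompact_of_isClosed_isBounded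
      (isClosed_eq (by fun_prop) continuous_const) ?_
    refine (Metric.isBounded_closedBall (x := (0 : J → ℝ)) (r := 1)).subset fun x hx => ?_
    rw [mem_closedBall_zero_iff, pi_norm_le_iff_of_nonneg zero_le_one]
    intro j
    rw [Real.norm_eq_abs, abs_le_one_iff_mul_self_le_one, ← pow_two]
    have h1 : ∑ j, x j ^ 2 = 1 := hx
    rw [← h1]
    exact Finset.single_le_sum (f := fun j => x j ^ 2) (fun i _ => sq_nonneg (x i)) (Finset.mem_univ j)
  rcases K.eq_empty_or_nonempty with h0 | hne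
  · refine ⟨1, one_pos, fun x => ?_⟩
    have hx : x = 0 := by
      by_contra hx
      have hs : 0 < ∑ j, x j ^ 2 := by
        obtain ⟨j, hj⟩ := Function.ne_iff.mp hx
        refine Finset.sum_pos' (fun i _ => sq_nonneg _) ⟨j, Finset.mem_univ j, ?_⟩
        have : x j ≠ 0 := hj
        positivity
      have hm : (Real.sqrt (∑ j, x j ^ 2))⁻¹ • x ∈ K := by
        show ∑ j, ((Real.sqrt (∑ j, x j ^ 2))⁻¹ • x) j ^ 2 = 1
        simp only [Pi.smul_apply, smul_eq_mul, mul_pow, inv_pow, Real.sq_sqrt hs.le]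
        rw [← Finset.mul_sum, inv_mul_cancel₀ hs.ne']
      rw [h0] at hm
      exact hm
    rw [hx]
    simp [QS]
  · obtain ⟨x0, hx0, hmin⟩ := hKc.exists_isMinOn hne (continuous_QS S).continuousOn
    have hx0' : x0 ≠ 0 := by
      rintro rfl
      have h1 : ∑ j : J, (0 : J → ℝ) j ^ 2 = 1 := hx0
      simp at h1
    refine ⟨QS S x0, hpd x0 hx0', fun x => ?_⟩
    by_cases hx : x = 0
    · rw [hx]
      simp [QS]
    have hs : 0 < ∑ j, x j ^ 2 := by
      obtain ⟨j, hj⟩ := Function.ne_iff.mp hx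
      refine Finset.sum_pos' (fun i _ => sq_nonneg _) ⟨j, Finset.mem_univ j, ?_⟩
      have : x j ≠ 0 := hj
      positivity
    have hm : (Real.sqrt (∑ j, x j ^ 2))⁻¹ • x ∈ K := by
      show ∑ j, ((Real.sqrt (∑ j, x j ^ 2))⁻¹ • x) j ^ 2 = 1
      simp only [Pi.smul_apply, smul_eq_mul, mul_pow, inv_pow, Real.sq_sqrt hs.le]
      rw [← Finset.mul_sum, inv_mul_cancel₀ hs.ne']
    have h1 := hmin hm
    simp only [Set.mem_ofPred_eq] at h1
    rw [QS_smul, inv_pow, Real.sq_sqrt hs.le, inv_mul_eq_div, le_div_iff₀ hs] at h1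
    exact h1

lemma finite_int {c : ℝ} (hc : 0 < c) :
    ∫⁻ α : J → ℝ, ENNReal.ofReal (Real.exp (-(c * ∑ j, α j ^ 2))) ≠ ⊤ := by
  have h1 : Integrable (fun α : J → ℝ => ∏ j, Real.exp (-c * α j ^ 2)) := by
    exact Integrable.fintype_prod (f := fun (_ : J) (x : ℝ) => Real.exp (-c * x ^ 2))
      fun _ => integrable_exp_neg_mul_sq hc
  have h2 : Integrable (fun α : J → ℝ => Real.exp (-(c * ∑ j, α j ^ 2))) := by
    refine h1.congr (Filter.Eventually.of_forall fun α => ?_)
    show ∏ j, Real.exp (-c * α j ^ 2) = Real.exp (-(c * ∑ j, α j ^ 2))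
    rw [← Real.exp_sum, ← Finset.mul_sum, neg_mul]
  have h3 := h2.lintegral_lt_top
  exact h3.ne

end J3x

open J3x

/-- Row J3. -/
theorem gauss_scale {N : ℕ} (hN : 0 < N) {S : Matrix J J ℤ} (hS : S.IsSymm)
    (hpd : ∀ x : J → ℝ, x ≠ 0 → 0 < QS S x) : ∃ C : ENNReal, C ≠ 0 ∧ C ≠ ⊤ ∧ ∀ v : ℝ, 0 < v →
      ∫⁻ α : J → ℝ, ENNReal.ofReal (Real.exp (-(4 * Real.pi * v * QS S α / N))) =
        ENNReal.ofReal (v ^ (-(Fintype.card J : ℝ) / 2)) * C := by
  have hN' : (0 : ℝ) < N := by exact_mod_cast hN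
  have hmeas : Measurable fun α : J → ℝ =>
      ENNReal.ofReal (Real.exp (-(4 * Real.pi * QS S α / N))) := by
    have := continuous_QS S
    exact (by fun_prop : Continuous fun α : J → ℝ =>
      Real.exp (-(4 * Real.pi * QS S α / N))).measurable.ennreal_ofReal
  refine ⟨∫⁻ α : J → ℝ, ENNReal.ofReal (Real.exp (-(4 * Real.pi * QS S α / N))), ?_, ?_, ?_⟩
  · intro h0
    rw [lintegral_eq_zero_iff hmeas] at h0
    have h1 : ∀ᵐ α : J → ℝ, False := by
      filter_upwards [h0] with α hα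
      have h2 : ENNReal.ofReal (Real.exp (-(4 * Real.pi * QS S α / N))) = 0 := hα
      rw [ENNReal.ofReal_eq_zero] at h2
      linarith [Real.exp_pos (-(4 * Real.pi * QS S α / N))]
    rw [Filter.eventually_false_iff_eq_bot, ae_eq_bot] at h1
    exact (isOpen_univ.measure_ne_zero (volume : Measure (J → ℝ)) Set.univ_nonempty)
      (by rw [h1]; simp)
  · obtain ⟨c, hc, hle⟩ := exists_lower S hpd
    have hc' : 0 < 4 * Real.pi * c / N := by positivity
    refine ne_top_of_le_ne_top (finite_int (J := J) hc') (lintegral_mono fun α => ?_)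
    refine ENNReal.ofReal_le_ofReal (Real.exp_le_exp.mpr (neg_le_neg ?_))
    have h1 := hle α
    calc 4 * Real.pi * c / N * ∑ j, α j ^ 2 = 4 * Real.pi * (c * ∑ j, α j ^ 2) / N := by ring
      _ ≤ 4 * Real.pi * QS S α / N := by gcongr
  · intro v hv
    have hr : Real.sqrt v ≠ 0 := (Real.sqrt_pos.mpr hv).ne'
    have h1 : ∀ α : J → ℝ, ENNReal.ofReal (Real.exp (-(4 * Real.pi * v * QS S α / N))) =
        (fun α : J → ℝ => ENNReal.ofReal (Real.exp (-(4 * Real.pi * QS S α / N))))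
          (Real.sqrt v • α) := by
      intro α
      show _ = ENNReal.ofReal (Real.exp (-(4 * Real.pi * QS S (Real.sqrt v • α) / N)))
      rw [QS_smul, Real.sq_sqrt hv.le]
      congr 3
      ring
    rw [lintegral_congr h1, ← lintegral_map hmeas (by fun_prop),
      Measure.map_addHaar_smul _ hr, lintegral_smul_measure]
    congr 2
    rw [Module.finrank_fintype_fun_eq_card, abs_of_nonneg (by positivity), Real.sqrt_eq_rpow,
      ← Real.rpow_natCast, ← Real.rpow_mul hv.le, ← Real.rpow_neg hv.le]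
    congr 1
    ring

end Jacobi

end Pool.Agent.Results.MP_386e47_ag.SpecialCycles
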