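import Pool.Agent.Lib.SPX.Defs

/-! Row J4 (helper41): the torus integral of the invariant norm under `τ ↦ -1/τ`. -/

namespace Pool.Agent.Results.MP_386e47_ag.SpecialCycles

open Complex Finset MeasureTheory

namespace J4x

variable {J : Type*} [Fintype J] [DecidableEq J]
variable {V : Type*} [NormedAddCommGroup V] [InnerProductSpace ℂ V] [CompleteSpace V]

lemma term_norm {N : ℕ} (hN : 0 < N) (c : ℤ → (J → ℤ) → V) {τ : ℂ} {R : ℝ} {z : J → ℂ}
    (hz : ∀ j, |(z j).im| ≤ R) (p : ℤ × (J → ℤ)) :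
    ‖e ((p.1 * τ + 2 * ∑ j, p.2 j * z j) / N) • c p.1 p.2‖ ≤
      Real.exp (-((2 * Real.pi * τ.im / N) * p.1) +
        (4 * Real.pi * R / N) * ∑ j, |(p.2 j : ℝ)|) * ‖c p.1 p.2‖ := by
  have hN' : (0 : ℝ) < N := by exact_mod_cast hN
  rw [norm_smul, norm_e]
  refine mul_le_mul_of_nonneg_right (Real.exp_le_exp.mpr ?_) (norm_nonneg _)
  have him : ((p.1 * τ + 2 * ∑ j, p.2 j * z j) / N : ℂ).im =
      (p.1 * τ.im + 2 * ∑ j, (p.2 j : ℝ) * (z j).im) / N := by
    rw [Complex.div_natCast_im]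
    congr 1
    rw [Complex.add_im]
    congr 1
    · simp
    · have h2 : (2 * ∑ j, (p.2 j : ℂ) * z j : ℂ).im = 2 * (∑ j, (p.2 j : ℂ) * z j).im := by
        have h3 := Complex.im_ofReal_mul 2 (∑ j, (p.2 j : ℂ) * z j)
        simpa using h3
      rw [h2, Complex.im_sum]
      congr 1
      refine Finset.sum_congr rfl fun j _ ↦ ?_
      simp
  rw [him]
  have hs : -(∑ j, (p.2 j : ℝ) * (z j).im) ≤ R * ∑ j, |(p.2 j : ℝ)| := by
    rw [← Finset.sum_neg_distrib, Finset.mul_sum]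
    refine Finset.sum_le_sum fun j _ ↦ ?_
    calc -((p.2 j : ℝ) * (z j).im) ≤ |(p.2 j : ℝ) * (z j).im| := neg_le_abs _
      _ = |(z j).im| * |(p.2 j : ℝ)| := by rw [abs_mul, mul_comm]
      _ ≤ R * |(p.2 j : ℝ)| := mul_le_mul_of_nonneg_right (hz j) (abs_nonneg _)
  have hpi := Real.pi_pos
  have key : -2 * Real.pi * ((p.1 * τ.im + 2 * ∑ j, (p.2 j : ℝ) * (z j).im) / N) =
      -((2 * Real.pi * τ.im / N) * p.1) + (4 * Real.pi / N) *
        (-(∑ j, (p.2 j : ℝ) * (z j).im)) := by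
    field_simp
    ring
  rw [key]
  have h4 : (4 * Real.pi / N) * (-(∑ j, (p.2 j : ℝ) * (z j).im)) ≤
      (4 * Real.pi / N) * (R * ∑ j, |(p.2 j : ℝ)|) :=
    mul_le_mul_of_nonneg_left hs (by positivity)
  have h5 : (4 * Real.pi / N) * (R * ∑ j, |(p.2 j : ℝ)|) =
      (4 * Real.pi * R / N) * ∑ j, |(p.2 j : ℝ)| := by ring
  linarith

lemma jac_summable {N : ℕ} (hN : 0 < N) {k : ℝ} {S : Matrix J J ℤ} {c : ℤ → (J → ℤ) → V}
    (h : IsJac N k S c) {τ : ℂ} (hτ : 0 < τ.im) (z : J → ℂ) :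
    Summable fun p : ℤ × (J → ℤ) ↦ e ((p.1 * τ + 2 * ∑ j, p.2 j * z j) / N) • c p.1 p.2 := by
  have hN' : (0 : ℝ) < N := by exact_mod_cast hN
  have hpi := Real.pi_pos
  have hz : ∀ j, |(z j).im| ≤ ∑ l, |(z l).im| := fun j ↦
    Finset.single_le_sum (f := fun l ↦ |(z l).im|) (fun l _ ↦ abs_nonneg _) (Finset.mem_univ j)
  refine Summable.of_norm_bounded (h.summ (2 * Real.pi * τ.im / N)
    (4 * Real.pi * (∑ l, |(z l).im|) / N) (by positivity)) fun p ↦ ?_
  exact term_norm hN c hz p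

lemma jac_cont {N : ℕ} (hN : 0 < N) {k : ℝ} {S : Matrix J J ℤ} {c : ℤ → (J → ℤ) → V}
    (h : IsJac N k S c) {τ : ℂ} (hτ : 0 < τ.im) : Continuous fun z : J → ℂ ↦ jac N c τ z := by
  have hN' : (0 : ℝ) < N := by exact_mod_cast hN
  have hpi := Real.pi_pos
  have hon : ∀ R : ℝ, ContinuousOn (fun z : J → ℂ ↦ jac N c τ z) (Metric.ball 0 R) := by
    intro R
    unfold jac
    refine continuousOn_tsum (u := fun p : ℤ × (J → ℤ) ↦
      Real.exp (-((2 * Real.pi * τ.im / N) * p.1) +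
        (4 * Real.pi * R / N) * ∑ j, |(p.2 j : ℝ)|) * ‖c p.1 p.2‖) ?_ ?_ ?_
    · intro p
      refine Continuous.continuousOn ?_
      refine Continuous.smul ?_ continuous_const
      unfold e
      fun_prop
    · exact h.summ _ _ (by positivity)
    · intro p z hz
      refine term_norm hN c (fun j ↦ ?_) p
      have h1 : ‖z‖ < R := by simpa using hz
      calc |(z j).im| ≤ ‖z j‖ := Complex.abs_im_le_norm _
        _ ≤ ‖z‖ := norm_le_pi_norm z j
        _ ≤ R := h1.le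
  rw [continuous_iff_continuousAt]
  intro z
  exact (hon (‖z‖ + 1)).continuousAt (Metric.isOpen_ball.mem_nhds (by simp))

lemma jac_per {N : ℕ} (hN : 0 < N) {k : ℝ} {S : Matrix J J ℤ} {c : ℤ → (J → ℤ) → V}
    (h : IsJac N k S c) {τ : ℂ} (hτ : 0 < τ.im) (z : J → ℂ) (μ : J → ℤ) :
    ‖jac N c τ (fun j ↦ z j + μ j)‖ = ‖jac N c τ z‖ := by
  obtain ⟨σ, hσ⟩ := h.per μ
  have h1 : jac N c τ (fun j ↦ z j + μ j) = σ (jac N c τ z) := by
    have h2 := (σ.toContinuousLinearMap).map_tsum (jac_summable hN h hτ z)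
    have h3 : σ (jac N c τ z) = ∑' p : ℤ × (J → ℤ),
        σ.toContinuousLinearMap (e ((p.1 * τ + 2 * ∑ j, p.2 j * z j) / N) • c p.1 p.2) := h2
    rw [h3]
    unfold jac
    refine tsum_congr fun p ↦ ?_
    have h4 : σ.toContinuousLinearMap (e ((p.1 * τ + 2 * ∑ j, p.2 j * z j) / N) • c p.1 p.2) =
        e ((p.1 * τ + 2 * ∑ j, p.2 j * z j) / N) • σ (c p.1 p.2) := by
      rw [ContinuousLinearMap.map_smul]
      rfl
    rw [h4, ← hσ, smul_smul, ← e_add]
    congr 2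
    rw [← add_div, add_assoc, ← mul_add, ← Finset.sum_add_distrib]
    congr 3
    refine Finset.sum_congr rfl fun j _ ↦ ?_
    ring
  rw [h1, LinearIsometry.norm_map]

/-- The integrand. -/
noncomputable def FF (N : ℕ) (S : Matrix J J ℤ) (c : ℤ → (J → ℤ) → V) (τ : ℂ)
    (x y : J → ℝ) : ENNReal :=
  ENNReal.ofReal (‖jac N c τ (fun j ↦ τ * (x j : ℂ) + (y j : ℂ))‖ ^ 2 *
      Real.exp (-(4 * Real.pi * τ.im * QS S x / N)))

lemma FF_meas {N : ℕ} (hN : 0 < N) {k : ℝ} {S : Matrix J J ℤ} {c : ℤ → (J → ℤ) → V}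
    (h : IsJac N k S c) {τ : ℂ} (hτ : 0 < τ.im) :
    Measurable (Function.uncurry (FF N S c τ)) := by
  have h1 := jac_cont hN h hτ
  have h2 : Continuous fun q : (J → ℝ) × (J → ℝ) ↦
      jac N c τ (fun j ↦ τ * (q.1 j : ℂ) + (q.2 j : ℂ)) := by
    refine h1.comp ?_
    fun_prop
  have h3 : Continuous fun q : (J → ℝ) × (J → ℝ) ↦ QS S q.1 := by
    unfold QS
    fun_prop
  refine ENNReal.measurable_ofReal.comp (Continuous.measurable ?_)
  refine Continuous.mul (h2.norm.pow 2) ?_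
  refine Real.continuous_exp.comp ?_
  refine Continuous.neg ?_
  exact (h3.const_mul _).div_const _

lemma FF_per {N : ℕ} (hN : 0 < N) {k : ℝ} {S : Matrix J J ℤ} {c : ℤ → (J → ℤ) → V}
    (h : IsJac N k S c) {τ : ℂ} (hτ : 0 < τ.im) (x y : J → ℝ) (μ : J → ℤ) :
    FF N S c τ x (fun j ↦ y j + μ j) = FF N S c τ x y := by
  unfold FF
  have := jac_per hN h hτ (fun j ↦ τ * (x j : ℂ) + (y j : ℂ)) μ
  have h2 : (fun j ↦ τ * (x j : ℂ) + ((y j + (μ j : ℝ) : ℝ) : ℂ)) =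
      fun j ↦ (τ * (x j : ℂ) + (y j : ℂ)) + (μ j : ℂ) := by
    funext j
    push_cast
    ring
  rw [h2, this]

lemma cube_neg (G : (J → ℝ) → ENNReal)
    (hper : ∀ y (μ : J → ℤ), G (fun j ↦ y j + μ j) = G y) :
    ∫⁻ α in cube J, G (-α) = ∫⁻ α in cube J, G α := by
  set A : Set (J → ℝ) := Set.pi Set.univ fun _ ↦ Set.Ioc (0 : ℝ) 1 with hA
  have hae : (A : Set (J → ℝ)) =ᵐ[volume] cube J := by
    have h1 := (MeasureTheory.Measure.univ_pi_Ioc_ae_eq_Icc (μ := fun _ : J ↦ (volume : Measure ℝ))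
      (f := fun _ ↦ (0 : ℝ)) (g := fun _ ↦ (1 : ℝ)))
    have h2 := (MeasureTheory.Measure.univ_pi_Ico_ae_eq_Icc (μ := fun _ : J ↦ (volume : Measure ℝ))
      (f := fun _ ↦ (0 : ℝ)) (g := fun _ ↦ (1 : ℝ)))
    exact h1.trans h2.symm
  have h1 : ∫⁻ α in cube J, G (-α) = ∫⁻ α in cube J, G ((fun _ ↦ (1 : ℝ)) - α) := by
    refine lintegral_congr fun α ↦ ?_
    rw [← hper (-α) (fun _ ↦ 1)]
    congr 1
    funext j
    simp only [Pi.neg_apply, Pi.sub_apply, Int.cast_one]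
    ring
  rw [h1]
  have hmp : MeasurePreserving (fun α : J → ℝ ↦ (fun _ ↦ (1 : ℝ)) - α) volume volume :=
    Measure.measurePreserving_sub_left volume _
  have hemb : MeasurableEmbedding (fun α : J → ℝ ↦ (fun _ ↦ (1 : ℝ)) - α) :=
    (MeasurableEquiv.subLeft (fun _ : J ↦ (1 : ℝ))).measurableEmbedding
  have hpre : (fun α : J → ℝ ↦ (fun _ ↦ (1 : ℝ)) - α) ⁻¹' A = cube J := by
    ext α
    simp only [hA, cube, Set.mem_preimage, Set.mem_pi, Set.mem_univ, true_implies, Set.mem_Ioc,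
      Set.mem_Ico, Pi.sub_apply]
    constructor
    · intro hh j
      have := hh j
      constructor <;> linarith [this.1, this.2]
    · intro hh j
      have := hh j
      constructor <;> linarith [this.1, this.2]
  rw [← hpre, hmp.setLIntegral_comp_preimage_emb hemb G A]
  rw [hpre]
  exact setLIntegral_congr hae

lemma integrand {N : ℕ} (hN : 0 < N) {k : ℝ} {S : Matrix J J ℤ} {c : ℤ → (J → ℤ) → V}
    (h : IsJac N k S c) {τ : ℂ} (hτ : 0 < τ.im) (α β : J → ℝ) :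
    FF N S c (-1 / τ) α β = ENNReal.ofReal (‖τ‖ ^ (2 * k)) * FF N S c τ β (-α) := by
  have hN' : (0 : ℝ) < N := by exact_mod_cast hN
  have hτ0 : τ ≠ 0 := by
    intro h0
    rw [h0] at hτ
    simp at hτ
  have hnpos : 0 < ‖τ‖ := norm_pos_iff.mpr hτ0
  obtain ⟨ρ, hρ⟩ := h.inv
  set z : J → ℂ := fun j ↦ τ * (β j : ℂ) + (((-α) j : ℝ) : ℂ) with hz
  have hz1 : (fun j ↦ (-1 / τ) * (α j : ℂ) + (β j : ℂ)) = fun j ↦ z j / τ := by
    funext j
    simp only [hz, Pi.neg_apply, Complex.ofReal_neg]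
    field_simp
    ring
  unfold FF
  rw [hz1, hρ τ z hτ, norm_smul, norm_mul, Complex.norm_cpow_real, LinearIsometry.norm_map,
    norm_e]
  set w : ℝ := (-1 / τ).im with hw
  have hS : (∑ j, ∑ l, (S j l : ℂ) * z j * z l) / (N * τ) =
      ((τ * (QS S β : ℂ) - ((∑ j, ∑ l, (S j l : ℝ) * (β j * α l + α j * β l) : ℝ) : ℂ)
        - (-1 / τ) * (QS S α : ℂ)) / N) := by
    have hNc : (N : ℂ) ≠ 0 := by exact_mod_cast hN.ne'
    have h1 : (∑ j, ∑ l, (S j l : ℂ) * z j * z l) =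
        τ * (τ * (QS S β : ℂ) - ((∑ j, ∑ l, (S j l : ℝ) * (β j * α l + α j * β l) : ℝ) : ℂ)
        - (-1 / τ) * (QS S α : ℂ)) := by
      have h2 : τ * (τ * (QS S β : ℂ) -
          ((∑ j, ∑ l, (S j l : ℝ) * (β j * α l + α j * β l) : ℝ) : ℂ)
        - (-1 / τ) * (QS S α : ℂ)) = τ ^ 2 * (QS S β : ℂ) -
          τ * ((∑ j, ∑ l, (S j l : ℝ) * (β j * α l + α j * β l) : ℝ) : ℂ)
          + (QS S α : ℂ) := by
        field_simp
        ring
      rw [h2]
      unfold QS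
      push_cast
      simp only [Finset.mul_sum]
      rw [← Finset.sum_sub_distrib, ← Finset.sum_add_distrib]
      refine Finset.sum_congr rfl fun j _ ↦ ?_
      rw [← Finset.sum_sub_distrib, ← Finset.sum_add_distrib]
      refine Finset.sum_congr rfl fun l _ ↦ ?_
      simp only [hz, Pi.neg_apply, Complex.ofReal_neg]
      ring
    rw [h1]
    field_simp
  have him : ((∑ j, ∑ l, (S j l : ℂ) * z j * z l) / (N * τ)).im =
      (τ.im * QS S β - w * QS S α) / N := by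
    rw [hS, Complex.div_natCast_im, Complex.sub_im, Complex.sub_im, Complex.ofReal_im,
      Complex.im_mul_ofReal, Complex.im_mul_ofReal]
    simp [hw]
  rw [him, ← ENNReal.ofReal_mul (by positivity)]
  congr 1
  have e1 : ‖τ‖ ^ (2 * k) = (‖τ‖ ^ k) ^ 2 := by
    rw [mul_comm, Real.rpow_mul hnpos.le]
    norm_cast
  rw [e1, mul_pow, mul_pow]
  have e2 : Real.exp (-2 * Real.pi * ((τ.im * QS S β - w * QS S α) / N)) ^ 2 *
      Real.exp (-(4 * Real.pi * w * QS S α / N)) = Real.exp (-(4 * Real.pi * τ.im * QS S β / N)) := by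
    rw [← Real.exp_nat_mul, ← Real.exp_add]
    congr 1
    push_cast
    field_simp
    ring
  rw [← e2]
  ring

end J4x

variable {J : Type*} [Fintype J] [DecidableEq J]
variable {V : Type*} [NormedAddCommGroup V] [InnerProductSpace ℂ V] [CompleteSpace V]

theorem PP_inv {N : ℕ} (hN : 0 < N) {k : ℝ} {S : Matrix J J ℤ} (hS : S.IsSymm)
    {c : ℤ → (J → ℤ) → V} (h : IsJac N k S c) {τ : ℂ} (hτ : 0 < τ.im) :
    PP N S c (-1 / τ) = ENNReal.ofReal (‖τ‖ ^ (2 * k)) * PP N S c τ := by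
  have hm := J4x.FF_meas hN h hτ
  have hneg : Measurable (Function.uncurry fun α β : J → ℝ ↦ J4x.FF N S c τ β (-α)) := by
    have : (Function.uncurry fun α β : J → ℝ ↦ J4x.FF N S c τ β (-α)) =
        (Function.uncurry (J4x.FF N S c τ)) ∘ fun q : (J → ℝ) × (J → ℝ) ↦ (q.2, -q.1) := rfl
    rw [this]
    exact hm.comp (by fun_prop)
  calc PP N S c (-1 / τ) = ∫⁻ α in cube J, ∫⁻ β in cube J, J4x.FF N S c (-1 / τ) α β := rfl
    _ = ∫⁻ α in cube J, ∫⁻ β in cube J,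
          ENNReal.ofReal (‖τ‖ ^ (2 * k)) * J4x.FF N S c τ β (-α) := by
        refine lintegral_congr fun α ↦ lintegral_congr fun β ↦ ?_
        exact J4x.integrand hN h hτ α β
    _ = ENNReal.ofReal (‖τ‖ ^ (2 * k)) *
          ∫⁻ α in cube J, ∫⁻ β in cube J, J4x.FF N S c τ β (-α) := by
        rw [← lintegral_const_mul']
        · refine lintegral_congr fun α ↦ ?_
          rw [lintegral_const_mul']
          exact ENNReal.ofReal_ne_top
        · exact ENNReal.ofReal_ne_top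
    _ = ENNReal.ofReal (‖τ‖ ^ (2 * k)) *
          ∫⁻ β in cube J, ∫⁻ α in cube J, J4x.FF N S c τ β (-α) := by
        rw [lintegral_lintegral_swap hneg.aemeasurable]
    _ = ENNReal.ofReal (‖τ‖ ^ (2 * k)) * PP N S c τ := by
        congr 1
        refine lintegral_congr fun β ↦ ?_
        exact J4x.cube_neg (J4x.FF N S c τ β) (fun y μ ↦ J4x.FF_per hN h hτ β y μ)

end Pool.Agent.Results.MP_386e47_ag.SpecialCycles
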