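import Pool.Agent.Lib.SPX.Defs

/-! Row J5: the theta coefficients (helper40). -/

namespace Pool.Agent.Results.MP_386e47_ag.SpecialCycles

open Complex Finset MeasureTheory

set_option linter.unusedSectionVars false

section Jacobi

variable {J : Type*} [Fintype J] [DecidableEq J]
variable {V : Type*} [NormedAddCommGroup V] [InnerProductSpace ℂ V] [CompleteSpace V]

namespace J5x

/-- A theta coefficient is a `q`-series times a character. -/
lemma hb_eq (N : ℕ) (S : Matrix J J ℤ) (c : ℤ → (J → ℤ) → V) (b : J → ℤ) (τ : ℂ) :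
    hb N S c b τ = e (-(sq S b : ℂ) * τ / N) • qs N (fun n ↦ c n b) τ := by
  unfold hb qs
  rw [← tsum_const_smul'']
  refine tsum_congr fun n ↦ ?_
  rw [smul_smul, ← e_add]
  congr 2
  ring

lemma neg_zero' {N : ℕ} {k : ℝ} {S : Matrix J J ℤ} {c : ℤ → (J → ℤ) → V}
    (h : IsJac N k S c) (b : J → ℤ) : ∀ n < 0, c n b = 0 := by
  intro n hn
  by_contra hne
  have h1 := h.psd n b hne 0
  have h2 : QS S (0 : J → ℝ) = 0 := by simp [QS]
  rw [h2] at h1
  simp only [Pi.zero_apply, mul_zero, sum_const_zero, add_zero] at h1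
  have h3 : (0 : ℤ) ≤ n := by exact_mod_cast h1
  omega

lemma summ' {N : ℕ} {k : ℝ} {S : Matrix J J ℤ} {c : ℤ → (J → ℤ) → V}
    (h : IsJac N k S c) (b : J → ℤ) {δ : ℝ} (hδ : 0 < δ) :
    Summable fun n : ℤ ↦ Real.exp (-(δ * n)) * ‖c n b‖ := by
  have h1 := (h.summ δ 0 hδ).comp_injective (i := fun n : ℤ ↦ (n, b))
    (fun n m hnm ↦ (Prod.ext_iff.mp hnm).1)
  refine h1.congr fun n ↦ ?_
  simp only [Function.comp, zero_mul, add_zero]

lemma summ {N : ℕ} (hN : 0 < N) {k : ℝ} {S : Matrix J J ℤ} {c : ℤ → (J → ℤ) → V}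
    (h : IsJac N k S c) (b : J → ℤ) : ∀ v : ℝ, 0 < v →
    Summable fun n : ℤ ↦ Real.exp (-(2 * Real.pi * n * v / N)) * ‖c n b‖ := by
  intro v hv
  have hN' : (0 : ℝ) < N := by exact_mod_cast hN
  refine (summ' h b (δ := 2 * Real.pi * v / N) (by positivity)).congr fun n ↦ ?_
  congr 2
  ring

lemma norm_re (x : ℝ) : ‖e (x : ℂ)‖ = 1 := by
  rw [norm_e]
  simp

lemma term_summ {N : ℕ} (hN : 0 < N) {k : ℝ} {S : Matrix J J ℤ} {c : ℤ → (J → ℤ) → V}
    (h : IsJac N k S c) (b : J → ℤ) {τ : ℂ} (hτ : 0 < τ.im) :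
    Summable fun n : ℤ ↦ e (n * τ / N) • c n b := by
  apply Summable.of_norm
  refine (summ hN h b τ.im hτ).congr fun n ↦ ?_
  rw [norm_smul, norm_e_int]

end J5x

theorem hb_quasi {N : ℕ} (hN : 0 < N) {k : ℝ} {S : Matrix J J ℤ} (hS : S.IsSymm)
    (hpd : ∀ x : J → ℝ, x ≠ 0 → 0 < QS S x) {c : ℤ → (J → ℤ) → V} (h : IsJac N k S c)
    (b l : J → ℤ) {τ : ℂ} (hτ : 0 < τ.im) : ‖hb N S c (b + S.mulVec l) τ‖ = ‖hb N S c b τ‖ := by
  set A : Matrix J J ℝ := S.map (fun x : ℤ ↦ (x : ℝ)) with hA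
  have hAs : A.transpose = A := by
    ext p q
    rw [hA, Matrix.transpose_apply, Matrix.map_apply, Matrix.map_apply]
    have := congrFun (congrFun hS q) p
    rw [Matrix.transpose_apply] at this
    rw [this]
  have hAd : IsUnit A.det := by
    rw [isUnit_iff_ne_zero]
    intro h0
    obtain ⟨v, hv, hv0⟩ := Matrix.exists_mulVec_eq_zero_iff.mpr h0
    have h1 := hpd v hv
    have h2 : QS S v = v ⬝ᵥ (A.mulVec v) := by
      unfold QS dotProduct Matrix.mulVec dotProduct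
      refine sum_congr rfl fun p _ ↦ ?_
      rw [mul_sum]
      refine sum_congr rfl fun q _ ↦ ?_
      simp only [hA, Matrix.map_apply]
      ring
    rw [h2, hv0, dotProduct_zero] at h1
    exact lt_irrefl _ h1
  have hcast : (fun j ↦ ((S.mulVec l j : ℤ) : ℝ)) = A.mulVec (fun j ↦ (l j : ℝ)) := by
    ext p
    unfold Matrix.mulVec dotProduct
    push_cast
    rfl
  have hsv : sv S (b + S.mulVec l) = sv S b + fun j ↦ (l j : ℝ) := by
    unfold sv
    have h1 : (fun j ↦ (((b + S.mulVec l) j : ℤ) : ℝ)) =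
        (fun j ↦ (b j : ℝ)) + A.mulVec (fun j ↦ (l j : ℝ)) := by
      rw [← hcast]
      ext p
      simp
    rw [h1, Matrix.mulVec_add, ← hA, Matrix.mulVec_mulVec, Matrix.nonsing_inv_mul _ hAd,
      Matrix.one_mulVec]
  have hAsv : A.mulVec (sv S b) = fun j ↦ (b j : ℝ) := by
    unfold sv
    rw [← hA, Matrix.mulVec_mulVec, Matrix.mul_nonsing_inv _ hAd, Matrix.one_mulVec]
  have hsq : sq S (b + S.mulVec l) = sq S b +
      ((2 * (b ⬝ᵥ l) + l ⬝ᵥ (S.mulVec l) : ℤ) : ℝ) := by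
    have e0 : ∀ b' : J → ℤ, sq S b' = (fun j ↦ (b' j : ℝ)) ⬝ᵥ sv S b' := fun b' ↦ rfl
    have h1 : (fun j ↦ (((b + S.mulVec l) j : ℤ) : ℝ)) =
        (fun j ↦ (b j : ℝ)) + A.mulVec (fun j ↦ (l j : ℝ)) := by
      rw [← hcast]
      ext p
      simp
    rw [e0, e0, hsv, h1, add_dotProduct, dotProduct_add, dotProduct_add]
    have h2 : A.mulVec (fun j ↦ (l j : ℝ)) ⬝ᵥ sv S b = (fun j ↦ (b j : ℝ)) ⬝ᵥ fun j ↦ (l j : ℝ) := by
      rw [dotProduct_comm, Matrix.dotProduct_mulVec, ← Matrix.mulVec_transpose, hAs, hAsv]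
    have h3 : (((b ⬝ᵥ l : ℤ)) : ℝ) = (fun j ↦ (b j : ℝ)) ⬝ᵥ fun j ↦ (l j : ℝ) := by
      unfold dotProduct
      push_cast
      rfl
    have h4 : (((l ⬝ᵥ (S.mulVec l) : ℤ)) : ℝ) =
        A.mulVec (fun j ↦ (l j : ℝ)) ⬝ᵥ fun j ↦ (l j : ℝ) := by
      rw [← hcast, dotProduct_comm]
      unfold dotProduct
      push_cast
      rfl
    rw [h2]
    push_cast
    rw [h3, h4]
    ring
  obtain ⟨ρ, hρ⟩ := h.quasi l
  set m : ℤ := 2 * (b ⬝ᵥ l) + l ⬝ᵥ (S.mulVec l) with hm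
  have h1 : hb N S c (b + S.mulVec l) τ = ρ (hb N S c b τ) := by
    have hsum : Summable fun n : ℤ ↦ e (((n : ℂ) - (sq S b : ℂ)) * τ / N) • c n b := by
      have := (J5x.term_summ hN h b hτ).const_smul (e (-(sq S b : ℂ) * τ / N))
      refine this.congr fun n ↦ ?_
      rw [smul_smul, ← e_add]
      congr 2
      ring
    have h2 : ρ (hb N S c b τ) = ∑' n : ℤ, ρ (e (((n : ℂ) - (sq S b : ℂ)) * τ / N) • c n b) :=
      ρ.toContinuousLinearMap.map_tsum hsum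
    rw [h2]
    unfold hb
    rw [← (Equiv.addRight m).tsum_eq]
    refine tsum_congr fun n ↦ ?_
    rw [map_smul, ← hρ n b, Equiv.coe_addRight, hsq]
    congr 2
    · push_cast
      ring
    · rw [hm, add_assoc]
  rw [h1, ρ.norm_map]

theorem hb_T {N : ℕ} (hN : 0 < N) {k : ℝ} {S : Matrix J J ℤ} {c : ℤ → (J → ℤ) → V}
    (h : IsJac N k S c) (b : J → ℤ) {τ : ℂ} (hτ : 0 < τ.im) :
    ‖hb N S c b (τ + 1)‖ = ‖hb N S c b τ‖ := by
  obtain ⟨σ, hσ⟩ := h.per1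
  have h1 : qs N (fun n ↦ c n b) (τ + 1) = σ (qs N (fun n ↦ c n b) τ) := by
    have h2 : σ (qs N (fun n ↦ c n b) τ) = ∑' n : ℤ, σ (e (n * τ / N) • c n b) :=
      σ.toContinuousLinearMap.map_tsum (J5x.term_summ hN h b hτ)
    rw [h2]
    unfold qs
    refine tsum_congr fun n ↦ ?_
    rw [map_smul, ← hσ n b, smul_smul, ← e_add]
    congr 2
    ring
  rw [J5x.hb_eq, J5x.hb_eq, h1, norm_smul, norm_smul, σ.norm_map]
  congr 1
  have h3 : -(sq S b : ℂ) * (τ + 1) / N = -(sq S b : ℂ) * τ / N + ((-(sq S b) / N : ℝ) : ℂ) := by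
    push_cast
    ring
  rw [h3, e_add, norm_mul, J5x.norm_re, mul_one]

theorem hb_diff {N : ℕ} (hN : 0 < N) {k : ℝ} {S : Matrix J J ℤ} {c : ℤ → (J → ℤ) → V}
    (h : IsJac N k S c) (b : J → ℤ) : DifferentiableOn ℂ (hb N S c b) {τ | 0 < τ.im} := by
  have h1 := qs_diff hN (J5x.neg_zero' h b) (J5x.summ hN h b)
  have h2 : Differentiable ℂ fun τ : ℂ ↦ e (-(sq S b : ℂ) * τ / N) := by
    have : Differentiable ℂ e := e_diff
    fun_prop
  have h3 : hb N S c b = fun τ ↦ e (-(sq S b : ℂ) * τ / N) • qs N (fun n ↦ c n b) τ := by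
    ext τ
    exact J5x.hb_eq N S c b τ
  rw [h3]
  exact h2.differentiableOn.smul h1

theorem hb_growth {N : ℕ} (hN : 0 < N) {k : ℝ} {S : Matrix J J ℤ} {c : ℤ → (J → ℤ) → V}
    (h : IsJac N k S c) (b : J → ℤ) {M : ℝ} (hM : ∀ n : ℤ, c n b ≠ 0 → N * M ≤ n - sq S b) :
    ∃ C : ℝ, ∀ τ : ℂ, 1 ≤ τ.im →
      ‖hb N S c b τ‖ ≤ C * Real.exp (-(2 * Real.pi * M * τ.im)) := by
  have hN' : (0 : ℝ) < N := by exact_mod_cast hN
  have hpi := Real.pi_pos
  have hs := J5x.summ hN h b 1 one_pos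
  obtain ⟨D, hD⟩ : ∃ D : ℝ, D = Real.exp (2 * Real.pi * (sq S b + N * M) / N) := ⟨_, rfl⟩
  refine ⟨D * ∑' n : ℤ, Real.exp (-(2 * Real.pi * n * 1 / N)) * ‖c n b‖, fun τ hτ ↦ ?_⟩
  have h1 : HasSum (fun n : ℤ ↦ D * (Real.exp (-(2 * Real.pi * n * 1 / N)) * ‖c n b‖) *
      Real.exp (-(2 * Real.pi * M * τ.im)))
      (D * (∑' n : ℤ, Real.exp (-(2 * Real.pi * n * 1 / N)) * ‖c n b‖) *
        Real.exp (-(2 * Real.pi * M * τ.im))) := (hs.hasSum.mul_left _).mul_right _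
  unfold hb
  refine tsum_of_norm_bounded h1 fun n ↦ ?_
  rw [norm_smul]
  by_cases hn : c n b = 0
  · simp [hn]
  · have h2 := hM n hn
    have h3 : ‖e (((n : ℂ) - (sq S b : ℂ)) * τ / N)‖ ≤ D * Real.exp (-(2 * Real.pi * n * 1 / N)) *
        Real.exp (-(2 * Real.pi * M * τ.im)) := by
      rw [norm_e, hD, ← Real.exp_add, ← Real.exp_add, Real.exp_le_exp]
      have h4 : ((((n : ℂ) - (sq S b : ℂ)) * τ / N)).im = (n - sq S b) * τ.im / N := by
        have h5 : (((n : ℂ) - (sq S b : ℂ)) * τ / N) = (((n - sq S b) / N : ℝ) : ℂ) * τ := by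
          push_cast
          ring
        rw [h5, Complex.im_ofReal_mul]
        ring
      rw [h4]
      have h6 : 2 * Real.pi * (sq S b + N * M) / N + -(2 * Real.pi * n * 1 / N) +
          -(2 * Real.pi * M * τ.im) - -2 * Real.pi * ((n - sq S b) * τ.im / N) =
          2 * Real.pi / N * ((n - sq S b - N * M) * (τ.im - 1)) := by
        field_simp
        ring
      have h7 : 0 ≤ 2 * Real.pi / N * ((n - sq S b - N * M) * (τ.im - 1)) :=
        mul_nonneg (by positivity) (mul_nonneg (by linarith) (by linarith))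
      linarith
    calc _ ≤ (D * Real.exp (-(2 * Real.pi * n * 1 / N)) *
        Real.exp (-(2 * Real.pi * M * τ.im))) * ‖c n b‖ :=
          mul_le_mul_of_nonneg_right h3 (norm_nonneg _)
      _ = _ := by ring

theorem hb_zero {N : ℕ} (hN : 0 < N) {k : ℝ} {S : Matrix J J ℤ} {c : ℤ → (J → ℤ) → V}
    (h : IsJac N k S c) (b : J → ℤ) (h0 : ∀ τ : ℂ, 0 < τ.im → hb N S c b τ = 0) :
    ∀ n, c n b = 0 := by
  refine qs_uniq hN (J5x.neg_zero' h b) (J5x.summ hN h b) fun τ hτ ↦ ?_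
  have h1 := h0 τ hτ
  rw [J5x.hb_eq] at h1
  exact (smul_eq_zero.mp h1).resolve_left (e_ne_zero _)

end Jacobi

end Pool.Agent.Results.MP_386e47_ag.SpecialCycles
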