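import Pool.Agent.Lib.SPX.J1
import Pool.Agent.Lib.SPX.J2
import Pool.Agent.Lib.SPX.J3
import Pool.Agent.Lib.SPX.J4
import Pool.Agent.Lib.SPX.J5

/-! Row J6: a formal Jacobi form has a coefficient with a small Schur complement (helper21). -/

namespace Pool.Agent.Results.MP_386e47_ag.SpecialCycles

open Complex Finset MeasureTheory

namespace J6x

variable {J : Type*} [Fintype J] [DecidableEq J]
variable {V : Type*} [NormedAddCommGroup V] [InnerProductSpace ℂ V] [CompleteSpace V]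

/-- `S` is invertible. -/
lemma det_ne {S : Matrix J J ℤ} (hpd : ∀ x : J → ℝ, x ≠ 0 → 0 < QS S x) :
    IsUnit (S.map (fun x : ℤ ↦ (x : ℝ))).det := by
  rw [isUnit_iff_ne_zero]
  intro h0
  obtain ⟨x, hx, hx0⟩ := Matrix.exists_mulVec_eq_zero_iff.2 h0
  have h1 := hpd x hx
  have h2 : QS S x = 0 := by
    have h3 : QS S x = ∑ j, x j * (S.map (fun x : ℤ ↦ (x : ℝ))).mulVec x j := by
      unfold QS
      refine Finset.sum_congr rfl fun j _ ↦ ?_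
      rw [Matrix.mulVec, dotProduct, Finset.mul_sum]
      refine Finset.sum_congr rfl fun l _ ↦ ?_
      rw [Matrix.map_apply]
      ring
    rw [h3, hx0]
    simp
  rw [h2] at h1
  exact lt_irrefl _ h1

/-- `S[S⁻¹ b] = S⁻¹[b]`. -/
lemma QS_sv {S : Matrix J J ℤ} (hpd : ∀ x : J → ℝ, x ≠ 0 → 0 < QS S x) (b : J → ℤ) :
    QS S (-(sv S b)) = sq S b := by
  have h1 : (S.map (fun x : ℤ ↦ (x : ℝ))).mulVec (sv S b) = fun j ↦ (b j : ℝ) := by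
    unfold sv
    rw [Matrix.mulVec_mulVec, Matrix.mul_nonsing_inv _ (det_ne hpd), Matrix.one_mulVec]
  unfold sq
  have h3 : QS S (-(sv S b)) = ∑ j, sv S b j * (S.map (fun x : ℤ ↦ (x : ℝ))).mulVec (sv S b) j := by
    unfold QS
    refine Finset.sum_congr rfl fun j _ ↦ ?_
    rw [Matrix.mulVec, dotProduct, Finset.mul_sum]
    refine Finset.sum_congr rfl fun l _ ↦ ?_
    rw [Matrix.map_apply, Pi.neg_apply, Pi.neg_apply]
    ring
  rw [h3, h1]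
  exact Finset.sum_congr rfl fun j _ ↦ mul_comm _ _

lemma at_sv {S : Matrix J J ℤ} (hpd : ∀ x : J → ℝ, x ≠ 0 → 0 < QS S x) (n : ℤ) (b : J → ℤ) :
    (n : ℝ) + 2 * ∑ j, (b j : ℝ) * (-(sv S b)) j + QS S (-(sv S b)) = n - sq S b := by
  rw [QS_sv hpd]
  have : ∑ j, (b j : ℝ) * (-(sv S b)) j = -sq S b := by
    unfold sq
    rw [← Finset.sum_neg_distrib]
    refine Finset.sum_congr rfl fun j _ ↦ ?_
    rw [Pi.neg_apply]
    ring
  rw [this]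
  ring

/-- The torus integral. -/
lemma PP_eq {N : ℕ} (hN : 0 < N) {k : ℝ} {S : Matrix J J ℤ} (hS : S.IsSymm)
    (hpd : ∀ x : J → ℝ, x ≠ 0 → 0 < QS S x) {c : ℤ → (J → ℤ) → V} (h : IsJac N k S c)
    [Fintype ((J → ℤ) ⧸ lat S)] {C : ENNReal}
    (hC : ∀ v : ℝ, 0 < v →
      ∫⁻ α : J → ℝ, ENNReal.ofReal (Real.exp (-(4 * Real.pi * v * QS S α / N))) =
        ENNReal.ofReal (v ^ (-(Fintype.card J : ℝ) / 2)) * C) {τ : ℂ} (hτ : 0 < τ.im) :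
    PP N S c τ = ENNReal.ofReal (∑ q : (J → ℤ) ⧸ lat S, ‖hb N S c q.out τ‖ ^ 2) *
      (ENNReal.ofReal (τ.im ^ (-(Fintype.card J : ℝ) / 2)) * C) := by
  unfold PP
  have h1 : ∀ α : J → ℝ, ∫⁻ β in cube J, ENNReal.ofReal
      (‖jac N c τ (fun j ↦ τ * (α j : ℂ) + (β j : ℂ))‖ ^ 2 *
        Real.exp (-(4 * Real.pi * τ.im * QS S α / N))) =
      ∑' b : J → ℤ, ENNReal.ofReal (‖hb N S c b τ‖ ^ 2) *
        ENNReal.ofReal (Real.exp (-(4 * Real.pi * τ.im * QS S (α + sv S b) / N))) := by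
    intro α
    rw [inner_int hN hS hpd h hτ α]
    refine tsum_congr fun b ↦ ?_
    rw [ENNReal.ofReal_mul (by positivity)]
  simp_rw [h1]
  have hE : Measurable fun α : J → ℝ ↦
      ENNReal.ofReal (Real.exp (-(4 * Real.pi * τ.im * QS S α / N))) := by
    unfold QS
    fun_prop
  rw [unfold_int hS hpd (fun b ↦ ENNReal.ofReal (‖hb N S c b τ‖ ^ 2))
    (fun b l ↦ by rw [hb_quasi hN hS hpd h b l hτ])
    (fun α ↦ ENNReal.ofReal (Real.exp (-(4 * Real.pi * τ.im * QS S α / N)))) hE, hC _ hτ]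
  congr 1
  rw [tsum_fintype, ENNReal.ofReal_sum_of_nonneg (fun q _ ↦ by positivity)]

/-- the vector of the theta coefficients -/
noncomputable def GG (N : ℕ) (S : Matrix J J ℤ) (c : ℤ → (J → ℤ) → V) (τ : ℂ) :
    PiLp 2 (fun _ : (J → ℤ) ⧸ lat S ↦ V) := WithLp.toLp 2 fun q ↦ hb N S c q.out τ

lemma GG_sq {N : ℕ} {S : Matrix J J ℤ} {c : ℤ → (J → ℤ) → V} [Fintype ((J → ℤ) ⧸ lat S)] (τ : ℂ) :
    ‖GG N S c τ‖ ^ 2 = ∑ q : (J → ℤ) ⧸ lat S, ‖hb N S c q.out τ‖ ^ 2 := by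
  rw [PiLp.norm_sq_eq_of_L2]
  rfl

lemma im_neg_inv {τ : ℂ} (hτ : 0 < τ.im) : 0 < (-1 / τ).im ∧ (-1 / τ).im = τ.im / ‖τ‖ ^ 2 := by
  have h0 : τ ≠ 0 := by
    rintro rfl
    simp at hτ
  have h1 : (-1 / τ).im = τ.im / ‖τ‖ ^ 2 := by
    rw [neg_div, Complex.neg_im, one_div, Complex.inv_im, Complex.normSq_eq_norm_sq]
    ring
  refine ⟨?_, h1⟩
  rw [h1]
  have : 0 < ‖τ‖ := norm_pos_iff.2 h0
  positivity

/-- The inversion. -/
lemma GG_inv {N : ℕ} (hN : 0 < N) {k : ℝ} {S : Matrix J J ℤ} (hS : S.IsSymm)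
    (hpd : ∀ x : J → ℝ, x ≠ 0 → 0 < QS S x) {c : ℤ → (J → ℤ) → V} (h : IsJac N k S c)
    [Fintype ((J → ℤ) ⧸ lat S)] {τ : ℂ} (hτ : 0 < τ.im) :
    ‖GG N S c (-1 / τ)‖ = ‖τ‖ ^ (k - Fintype.card J / 2) * ‖GG N S c τ‖ := by
  obtain ⟨C, hC0, hCt, hC⟩ := gauss_scale hN hS hpd
  obtain ⟨him, him'⟩ := im_neg_inv hτ
  have h0 : τ ≠ 0 := by
    rintro rfl
    simp at hτ
  have hn : 0 < ‖τ‖ := norm_pos_iff.2 h0
  have h1 := PP_inv hN hS h hτ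
  rw [PP_eq hN hS hpd h hC him, PP_eq hN hS hpd h hC hτ, ← GG_sq, ← GG_sq] at h1
  set d : ℝ := ((Fintype.card J : ℕ) : ℝ) with hd
  have h2 : ENNReal.ofReal (‖GG N S c (-1 / τ)‖ ^ 2 * (-1 / τ).im ^ (-d / 2)) * C =
      ENNReal.ofReal (‖τ‖ ^ (2 * k) * (‖GG N S c τ‖ ^ 2 * τ.im ^ (-d / 2))) * C := by
    rw [ENNReal.ofReal_mul (by positivity), ENNReal.ofReal_mul (by positivity),
      ENNReal.ofReal_mul (by positivity)]
    calc _ = _ := by rw [mul_assoc]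
      _ = _ := h1
      _ = _ := by ring
  have h3 := (ENNReal.mul_left_inj hC0 hCt).1 h2
  have h4 : ‖GG N S c (-1 / τ)‖ ^ 2 * (-1 / τ).im ^ (-d / 2) =
      ‖τ‖ ^ (2 * k) * (‖GG N S c τ‖ ^ 2 * τ.im ^ (-d / 2)) := by
    rwa [ENNReal.ofReal_eq_ofReal_iff (by positivity) (by positivity)] at h3
  have h5 : (-1 / τ).im ^ (-d / 2) = τ.im ^ (-d / 2) * ‖τ‖ ^ d := by
    rw [him', Real.div_rpow hτ.le (by positivity), div_eq_mul_inv, ← Real.rpow_neg (by positivity),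
      ← Real.rpow_natCast, ← Real.rpow_mul hn.le]
    congr 2
    push_cast
    ring
  rw [h5] at h4
  have hv : 0 < τ.im ^ (-d / 2) := Real.rpow_pos_of_pos hτ _
  have h6 : ‖GG N S c (-1 / τ)‖ ^ 2 * ‖τ‖ ^ d = ‖τ‖ ^ (2 * k) * ‖GG N S c τ‖ ^ 2 := by
    apply mul_right_cancel₀ hv.ne'
    linarith
  have h7 : ‖GG N S c (-1 / τ)‖ ^ 2 = (‖τ‖ ^ (k - d / 2) * ‖GG N S c τ‖) ^ 2 := by
    have hp : 0 < ‖τ‖ ^ d := Real.rpow_pos_of_pos hn _
    apply mul_right_cancel₀ hp.ne'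
    rw [h6, mul_pow, ← Real.rpow_natCast (‖τ‖ ^ (k - d / 2)) 2, ← Real.rpow_mul hn.le]
    have : ‖τ‖ ^ (2 * k) = ‖τ‖ ^ ((k - d / 2) * ((2 : ℕ) : ℝ)) * ‖τ‖ ^ d := by
      rw [← Real.rpow_add hn]
      congr 1
      push_cast
      ring
    rw [this]
    ring
  have h8 : 0 ≤ ‖τ‖ ^ (k - d / 2) * ‖GG N S c τ‖ := by positivity
  exact (pow_left_inj₀ (norm_nonneg _) h8 (by norm_num)).1 h7

/-- The orders of the theta coefficients. -/
lemma exists_M {N : ℕ} (hN : 0 < N) {k : ℝ} {S : Matrix J J ℤ}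
    (hpd : ∀ x : J → ℝ, x ≠ 0 → 0 < QS S x) {c : ℤ → (J → ℤ) → V} (h : IsJac N k S c)
    [Fintype ((J → ℤ) ⧸ lat S)] {θ : ℝ}
    (hθ : ∀ n b, c n b ≠ 0 → N * θ < n - sq S b) :
    ∃ M : ℝ, 0 ≤ M ∧ θ < M ∧ ∀ (q : (J → ℤ) ⧸ lat S) (n : ℤ), c n q.out ≠ 0 →
      N * M ≤ n - sq S q.out := by
  have hN' : (0 : ℝ) < N := by exact_mod_cast hN
  have hpos : ∀ n b, c n b ≠ 0 → 0 ≤ (n : ℝ) - sq S b := by
    intro n b hc
    have := h.psd n b hc (-(sv S b))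
    rwa [at_sv hpd] at this
  have hq : ∀ q : (J → ℤ) ⧸ lat S, ∃ M : ℝ, 0 ≤ M ∧ θ < M ∧ ∀ n : ℤ, c n q.out ≠ 0 →
      N * M ≤ n - sq S q.out := by
    intro q
    by_cases hne : ∃ n : ℤ, c n q.out ≠ 0
    · obtain ⟨n₁, hn₁, hmin⟩ := Int.exists_least_of_bdd (P := fun n : ℤ ↦ c n q.out ≠ 0)
        ⟨⌊sq S q.out⌋, fun z hz ↦ by
          have h1 := hpos z _ hz
          have h2 := Int.floor_le (sq S q.out)
          have h3 : ((⌊sq S q.out⌋ : ℤ) : ℝ) ≤ (z : ℝ) := by linarith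
          exact_mod_cast h3⟩ hne
      refine ⟨(n₁ - sq S q.out) / N, div_nonneg (hpos _ _ hn₁) hN'.le, ?_, fun n hn ↦ ?_⟩
      · rw [lt_div_iff₀ hN', mul_comm]
        exact hθ _ _ hn₁
      · rw [mul_div_cancel₀ _ hN'.ne']
        have : (n₁ : ℝ) ≤ n := by exact_mod_cast hmin n hn
        linarith
    · refine ⟨max 0 θ + 1, by positivity, ?_, fun n hn ↦ (hne ⟨n, hn⟩).elim⟩
      have := le_max_right 0 θ
      linarith
  choose M h1 h2 h3 using hq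
  obtain ⟨q₀, hq₀⟩ := Finite.exists_min M
  refine ⟨M q₀, h1 _, h2 _, fun q n hn ↦ ?_⟩
  have := h3 q n hn
  have h4 : (N : ℝ) * M q₀ ≤ N * M q := by
    have := hq₀ q
    gcongr
  linarith

end J6x

open J6x in
/-- Row J6. -/
theorem schur {J : Type*} [Fintype J] [DecidableEq J]
    {V : Type*} [NormedAddCommGroup V] [InnerProductSpace ℂ V] [CompleteSpace V]
    {N : ℕ} (hN : 0 < N) {k : ℝ} {S : Matrix J J ℤ} (hS : S.IsSymm)
    (hpd : ∀ x : J → ℝ, x ≠ 0 → 0 < QS S x) {c : ℤ → (J → ℤ) → V} (h : IsJac N k S c)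
    {n₀ : ℤ} {b₀ : J → ℤ} (hne : c n₀ b₀ ≠ 0) :
    ∃ n b, c n b ≠ 0 ∧ ∃ x : J → ℝ,
      (n : ℝ) + 2 * ∑ j, (b j : ℝ) * x j + QS S x ≤ N * (k - Fintype.card J / 2) / 12 := by
  classical
  by_contra hcon
  push Not at hcon
  have : Finite ((J → ℤ) ⧸ lat S) := lat_finite hS hpd
  let _ : Fintype ((J → ℤ) ⧸ lat S) := Fintype.ofFinite _
  obtain ⟨M, hM0, hMθ, hM⟩ := exists_M hN hpd h (θ := (k - Fintype.card J / 2) / 12)
    (fun n b hc ↦ by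
      have := hcon n b hc (-(sv S b))
      rw [at_sv hpd] at this
      linarith)
  have hgr : ∀ q : (J → ℤ) ⧸ lat S, ∃ C : ℝ, ∀ τ : ℂ, 1 ≤ τ.im →
      ‖hb N S c q.out τ‖ ≤ C * Real.exp (-(2 * Real.pi * M * τ.im)) :=
    fun q ↦ hb_growth hN h q.out (hM q)
  choose Cq hCq using hgr
  have hzero : ∀ τ : ℂ, 0 < τ.im → GG N S c τ = 0 := by
    refine eq_zero_of_decay (k := k - Fintype.card J / 2) (M := M) (C := ∑ q, Cq q) ?_ ?_ ?_ hM0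
      (by linarith) ?_
    · have h1 : DifferentiableOn ℂ (fun τ : ℂ ↦ fun q : (J → ℤ) ⧸ lat S ↦ hb N S c q.out τ)
          {τ | 0 < τ.im} := differentiableOn_pi.2 fun q ↦ hb_diff hN h q.out
      exact ((PiLp.continuousLinearEquiv 2 ℂ
        (fun _ : (J → ℤ) ⧸ lat S ↦ V)).symm.differentiable.comp_differentiableOn h1)
    · intro τ hτ
      have h1 : ‖GG N S c (τ + 1)‖ ^ 2 = ‖GG N S c τ‖ ^ 2 := by
        rw [GG_sq, GG_sq]
        exact Finset.sum_congr rfl fun q _ ↦ by rw [hb_T hN h q.out hτ]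
      exact (pow_left_inj₀ (norm_nonneg _) (norm_nonneg _) (by norm_num)).1 h1
    · intro τ hτ
      exact GG_inv hN hS hpd h hτ
    · intro τ hτ
      have h1 : ‖GG N S c τ‖ ≤ ∑ q : (J → ℤ) ⧸ lat S, ‖hb N S c q.out τ‖ := by
        have h2 : ‖GG N S c τ‖ ^ 2 ≤ (∑ q : (J → ℤ) ⧸ lat S, ‖hb N S c q.out τ‖) ^ 2 := by
          rw [GG_sq]
          exact Finset.sum_sq_le_sq_sum_of_nonneg fun q _ ↦ norm_nonneg _
        exact (pow_le_pow_iff_left₀ (norm_nonneg _)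
          (Finset.sum_nonneg fun q _ ↦ norm_nonneg _) (by norm_num)).1 h2
      refine h1.trans ?_
      rw [Finset.sum_mul]
      exact Finset.sum_le_sum fun q _ ↦ hCq q τ hτ
  have hall : ∀ τ : ℂ, 0 < τ.im → hb N S c b₀ τ = 0 := by
    intro τ hτ
    set q : (J → ℤ) ⧸ lat S := QuotientAddGroup.mk b₀ with hq
    have h1 : hb N S c q.out τ = 0 := by
      have := congrArg (fun x : PiLp 2 (fun _ : (J → ℤ) ⧸ lat S ↦ V) ↦ x q) (hzero τ hτ)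
      exact this
    have h2 : -q.out + b₀ ∈ lat S := by
      rw [← QuotientAddGroup.eq]
      exact Quotient.out_eq q
    obtain ⟨l, hl⟩ := h2
    have h3 : b₀ = q.out + S.mulVec l := by
      have h4 : S.mulVec l = -q.out + b₀ := hl
      rw [h4]
      abel
    have h5 := hb_quasi hN hS hpd h q.out l hτ
    rw [← h3, h1, norm_zero] at h5
    exact norm_eq_zero.1 h5
  exact hne (hb_zero hN h b₀ hall n₀)

end Pool.Agent.Results.MP_386e47_ag.SpecialCycles
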