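import Pool.Agent.Lib.SPX.Defs

/-! Row L3 (helper89): positive minima on all `GL_n(ℤ)`-translates force positive definiteness;
integral Schur complements, Hermite's inequality. -/

namespace Pool.Agent.Results.MP_386e47_ag.SpecialCycles

open Finset

section Lattice

/-- The Schur complement with respect to the first entry, with integral entries. -/
def sch {n : ℕ} (B : Matrix (Fin (n + 1 + 1)) (Fin (n + 1 + 1)) ℤ) :
    Matrix (Fin (n + 1)) (Fin (n + 1)) ℤ :=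
  fun j l ↦ B 0 0 * B j.succ l.succ - B 0 j.succ * B 0 l.succ

theorem QS_sch {n : ℕ} {B : Matrix (Fin (n + 1 + 1)) (Fin (n + 1 + 1)) ℤ} (hB : B.IsSymm)
    (x : Fin (n + 1 + 1) → ℝ) :
    (B 0 0 : ℝ) * QS B x = (∑ j, (B 0 j : ℝ) * x j) ^ 2 + QS (sch B) (fun j ↦ x j.succ) := by
  have hs : ∀ j : Fin (n + 1), (B j.succ 0 : ℝ) = B 0 j.succ := fun j ↦ by
    rw [← hB.apply 0 j.succ]
  have h1 : ∑ j, (B 0 j : ℝ) * x j = B 0 0 * x 0 + ∑ j : Fin (n + 1), (B 0 j.succ : ℝ) * x j.succ :=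
    Fin.sum_univ_succ _
  have h2 : QS B x = B 0 0 * x 0 * x 0 +
      2 * x 0 * (∑ j : Fin (n + 1), (B 0 j.succ : ℝ) * x j.succ) +
      ∑ j : Fin (n + 1), ∑ l : Fin (n + 1), (B j.succ l.succ : ℝ) * x j.succ * x l.succ := by
    unfold QS
    rw [Fin.sum_univ_succ, Fin.sum_univ_succ]
    have h3 : ∀ j : Fin (n + 1), ∑ l, (B j.succ l : ℝ) * x j.succ * x l =
        B 0 j.succ * x j.succ * x 0 +
          ∑ l : Fin (n + 1), (B j.succ l.succ : ℝ) * x j.succ * x l.succ := fun j ↦ by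
      rw [Fin.sum_univ_succ, hs]
    rw [Finset.sum_congr rfl fun j _ ↦ h3 j, Finset.sum_add_distrib, ← Finset.sum_mul]
    have h4 : ∑ l : Fin (n + 1), (B 0 l.succ : ℝ) * x 0 * x l.succ =
        x 0 * ∑ j : Fin (n + 1), (B 0 j.succ : ℝ) * x j.succ := by
      rw [Finset.mul_sum]
      exact Finset.sum_congr rfl fun j _ ↦ by ring
    rw [h4]
    ring
  have h5 : QS (sch B) (fun j ↦ x j.succ) =
      B 0 0 * (∑ j : Fin (n + 1), ∑ l : Fin (n + 1), (B j.succ l.succ : ℝ) * x j.succ * x l.succ) -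
      (∑ j : Fin (n + 1), (B 0 j.succ : ℝ) * x j.succ) *
        (∑ j : Fin (n + 1), (B 0 j.succ : ℝ) * x j.succ) := by
    unfold QS sch
    rw [Finset.sum_mul_sum, Finset.mul_sum, ← Finset.sum_sub_distrib]
    refine Finset.sum_congr rfl fun j _ ↦ ?_
    rw [Finset.mul_sum, ← Finset.sum_sub_distrib]
    refine Finset.sum_congr rfl fun l _ ↦ ?_
    push_cast
    ring
  rw [h1, h2, h5]
  ring

theorem QS_eq_dot {J : Type*} [Fintype J] [DecidableEq J] (S : Matrix J J ℤ) (x : J → ℝ) :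
    QS S x = x ⬝ᵥ ((S.map (fun z : ℤ ↦ (z : ℝ))).mulVec x) := by
  unfold QS
  simp only [dotProduct, Matrix.mulVec, Matrix.map_apply, Finset.mul_sum]
  refine Finset.sum_congr rfl fun j _ ↦ Finset.sum_congr rfl fun l _ ↦ ?_
  ring

theorem QS_conj {J : Type*} [Fintype J] [DecidableEq J] (S U : Matrix J J ℤ) (x : J → ℝ) :
    QS (U.transpose * S * U) x = QS S ((U.map (fun z : ℤ ↦ (z : ℝ))).mulVec x) := by
  rw [QS_eq_dot, QS_eq_dot]
  have h : (U.transpose * S * U).map (fun z : ℤ ↦ (z : ℝ)) =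
      (U.map (fun z : ℤ ↦ (z : ℝ))).transpose * S.map (fun z : ℤ ↦ (z : ℝ)) *
        U.map (fun z : ℤ ↦ (z : ℝ)) := by
    ext i j
    simp [Matrix.mul_apply, Matrix.map_apply, Matrix.transpose_apply]
  rw [h, ← Matrix.mulVec_mulVec, ← Matrix.mulVec_mulVec, Matrix.dotProduct_mulVec,
    Matrix.vecMul_transpose]

/-- The conditions on the set `X`. -/
structure Good {n : ℕ} (X : Set (Matrix (Fin (n + 1)) (Fin (n + 1)) ℤ)) : Prop where
  symm : ∀ B ∈ X, B.IsSymm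
  pos : ∀ B ∈ X, 0 < B 0 0
  gl : ∀ B ∈ X, ∀ U : Matrix (Fin (n + 1)) (Fin (n + 1)) ℤ, IsUnit U.det →
    U.transpose * B * U ∈ X

theorem Good.vec {n : ℕ} {X : Set (Matrix (Fin (n + 1)) (Fin (n + 1)) ℤ)} (hX : Good X)
    {B : Matrix (Fin (n + 1)) (Fin (n + 1)) ℤ} (hB : B ∈ X) (v : Fin (n + 1) → ℤ)
    (i : Fin (n + 1)) (hi : v i = 1) :
    ∃ B' ∈ X, (B' 0 0 : ℝ) = QS B (fun j ↦ (v j : ℝ)) := by
  set W : Matrix (Fin (n + 1)) (Fin (n + 1)) ℤ := (1 : Matrix _ _ ℤ).updateCol i v with hW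
  set U : Matrix (Fin (n + 1)) (Fin (n + 1)) ℤ := W.submatrix id (Equiv.swap 0 i) with hU
  have hdW : W.det = 1 := by
    rw [hW, ← Matrix.cramer_apply, Matrix.cramer_one]
    exact hi
  have hdU : IsUnit U.det := by
    rw [hU, Matrix.det_permute', hdW, mul_one]
    exact (Equiv.Perm.sign (Equiv.swap 0 i)).isUnit
  have hcol : ∀ j, U j 0 = v j := fun j ↦ by
    rw [hU, Matrix.submatrix_apply, Equiv.swap_apply_left, hW, id, Matrix.updateCol_self]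
  refine ⟨_, hX.gl B hB U hdU, ?_⟩
  unfold QS
  rw [Matrix.mul_apply]
  push_cast
  simp only [Matrix.mul_apply, Matrix.transpose_apply, hcol]
  push_cast
  rw [Finset.sum_congr rfl fun j _ ↦ Finset.sum_mul _ _ _, Finset.sum_comm]
  refine Finset.sum_congr rfl fun j _ ↦ Finset.sum_congr rfl fun l _ ↦ ?_
  ring

theorem Good.exists_min {n : ℕ} {X : Set (Matrix (Fin (n + 1)) (Fin (n + 1)) ℤ)} (hX : Good X)
    (hne : X.Nonempty) : ∃ B ∈ X, ∀ B' ∈ X, B 0 0 ≤ B' 0 0 := by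
  obtain ⟨B, hB, hmin⟩ := WellFounded.has_min
    (measure fun B : Matrix (Fin (n + 1)) (Fin (n + 1)) ℤ ↦ (B 0 0).toNat).wf X hne
  refine ⟨B, hB, fun B' hB' ↦ ?_⟩
  have h1 := hmin B' hB'
  have h2 := hX.pos B hB
  have h3 := hX.pos B' hB'
  simp only [InvImage, WellFoundedRelation.rel] at h1
  by_contra hcon
  push Not at hcon
  exact h1 ((Int.toNat_lt_toNat h2).2 hcon)

/-- The block matrix with `1` in front. -/
def ext1 {n : ℕ} (U : Matrix (Fin (n + 1)) (Fin (n + 1)) ℤ) :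
    Matrix (Fin (n + 1 + 1)) (Fin (n + 1 + 1)) ℤ := fun i j ↦
  Fin.cases (Fin.cases (1 : ℤ) (fun _ ↦ 0) j) (fun i' ↦ Fin.cases (0 : ℤ) (fun j' ↦ U i' j') j) i

theorem det_ext1 {n : ℕ} (U : Matrix (Fin (n + 1)) (Fin (n + 1)) ℤ) : (ext1 U).det = U.det := by
  rw [Matrix.det_succ_row_zero, Fin.sum_univ_succ]
  have h1 : ∑ j : Fin (n + 1), (-1 : ℤ) ^ ((j.succ : Fin (n + 1 + 1)) : ℕ) * ext1 U 0 j.succ *
      ((ext1 U).submatrix Fin.succ (Fin.succAbove j.succ)).det = 0 := by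
    refine Finset.sum_eq_zero fun j _ ↦ ?_
    have : ext1 U 0 j.succ = 0 := rfl
    rw [this]
    ring
  rw [h1]
  have h2 : (ext1 U).submatrix Fin.succ (Fin.succAbove 0) = U := by
    ext i j
    rfl
  have h3 : ext1 U 0 0 = 1 := rfl
  rw [h2, h3]
  simp

theorem sch_conj {n : ℕ} (B : Matrix (Fin (n + 1 + 1)) (Fin (n + 1 + 1)) ℤ)
    (U : Matrix (Fin (n + 1)) (Fin (n + 1)) ℤ) :
    ((ext1 U).transpose * B * ext1 U) 0 0 = B 0 0 ∧
      sch ((ext1 U).transpose * B * ext1 U) = U.transpose * sch B * U := by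
  have e1 : ∀ i, ext1 U i 0 = if i = 0 then 1 else 0 := by
    intro i
    refine Fin.cases ?_ (fun i' ↦ ?_) i
    · rfl
    · rw [if_neg (Fin.succ_ne_zero i')]; rfl
  have hA : ∀ p q, ((ext1 U).transpose * B * ext1 U) p q =
      ∑ l, ∑ j, ext1 U j p * B j l * ext1 U l q := by
    intro p q
    rw [Matrix.mul_apply]
    refine Finset.sum_congr rfl fun l _ ↦ ?_
    rw [Matrix.mul_apply, Finset.sum_mul]
    rfl
  have h00 : ((ext1 U).transpose * B * ext1 U) 0 0 = B 0 0 := by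
    rw [hA]
    simp [e1]
  have h0 : ∀ q : Fin (n + 1), ((ext1 U).transpose * B * ext1 U) 0 q.succ =
      ∑ l : Fin (n + 1), B 0 l.succ * U l q := by
    intro q
    rw [hA, Fin.sum_univ_succ]
    have z1 : ext1 U 0 q.succ = 0 := rfl
    have z2 : ∀ l : Fin (n + 1), ext1 U l.succ q.succ = U l q := fun l ↦ rfl
    simp [e1, z1, z2]
  have h1 : ∀ p q : Fin (n + 1), ((ext1 U).transpose * B * ext1 U) p.succ q.succ =
      ∑ l : Fin (n + 1), ∑ j : Fin (n + 1), U j p * B j.succ l.succ * U l q := by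
    intro p q
    rw [hA, Fin.sum_univ_succ]
    have z1 : ∀ r : Fin (n + 1), ext1 U 0 r.succ = 0 := fun r ↦ rfl
    have z2 : ∀ l r : Fin (n + 1), ext1 U l.succ r.succ = U l r := fun l r ↦ rfl
    simp only [z1, z2, mul_zero, Finset.sum_const_zero, zero_add]
    refine Finset.sum_congr rfl fun l _ ↦ ?_
    rw [Fin.sum_univ_succ, z1]
    simp [z2]
  refine ⟨h00, ?_⟩
  ext p q
  rw [sch, h00, h0, h0, h1, Matrix.mul_apply]
  have h2 : ∀ l : Fin (n + 1), (U.transpose * sch B) p l * U l q =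
      ∑ j : Fin (n + 1), (B 0 0 * (U j p * B j.succ l.succ * U l q) -
        (B 0 j.succ * U j p) * (B 0 l.succ * U l q)) := by
    intro l
    rw [Matrix.mul_apply, Finset.sum_mul]
    refine Finset.sum_congr rfl fun j _ ↦ ?_
    rw [Matrix.transpose_apply, sch]
    ring
  rw [Finset.sum_congr rfl fun l _ ↦ h2 l, Finset.sum_congr rfl fun l _ ↦ Finset.sum_sub_distrib _ _,
    Finset.sum_sub_distrib, Finset.mul_sum, Finset.sum_mul_sum, Finset.sum_comm (f := fun i j ↦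
      B 0 i.succ * U i p * (B 0 j.succ * U j q))]
  congr 1
  refine Finset.sum_congr rfl fun l _ ↦ ?_
  rw [Finset.mul_sum]

/-- The set of Schur complements of the members of `X` with first entry `m`. -/
def schSet {n : ℕ} (X : Set (Matrix (Fin (n + 1 + 1)) (Fin (n + 1 + 1)) ℤ)) (m : ℤ) :
    Set (Matrix (Fin (n + 1)) (Fin (n + 1)) ℤ) := {C | ∃ B ∈ X, B 0 0 = m ∧ sch B = C}

theorem sum_cons_single {n : ℕ} (f : Fin (n + 1 + 1) → ℝ) (t : ℝ) :
    ∑ j, f j * (Fin.cons t (Pi.single 0 1 : Fin (n + 1) → ℝ) : Fin (n + 1 + 1) → ℝ) j =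
      f 0 * t + f 1 := by
  rw [Fin.sum_univ_succ]
  simp [Pi.single_apply]

theorem QS_single {n : ℕ} (C : Matrix (Fin (n + 1)) (Fin (n + 1)) ℤ) :
    QS C (Pi.single 0 1) = C 0 0 := by
  unfold QS
  simp [Pi.single_apply]

/-- The value at the vector `(t, 1, 0, …, 0)`. -/
theorem QS_two {n : ℕ} {B : Matrix (Fin (n + 1 + 1)) (Fin (n + 1 + 1)) ℤ} (hB : B.IsSymm) (t : ℝ) :
    (B 0 0 : ℝ) * QS B (Fin.cons t (Pi.single 0 1 : Fin (n + 1) → ℝ)) =
      (B 0 0 * t + B 0 1) ^ 2 + sch B 0 0 := by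
  rw [QS_sch hB, sum_cons_single]
  have : (fun j : Fin (n + 1) ↦ (Fin.cons t (Pi.single 0 1 : Fin (n + 1) → ℝ) :
      Fin (n + 1 + 1) → ℝ) j.succ) = Pi.single 0 1 := by
    funext j
    rw [Fin.cons_succ]
  rw [this, QS_single]

theorem Good.two {n : ℕ} {X : Set (Matrix (Fin (n + 1 + 1)) (Fin (n + 1 + 1)) ℤ)} (hX : Good X)
    {m : ℤ} (hmin : ∀ B ∈ X, m ≤ B 0 0) {B : Matrix (Fin (n + 1 + 1)) (Fin (n + 1 + 1)) ℤ}
    (hB : B ∈ X) (t : ℤ) :
    (m : ℝ) ≤ QS B (Fin.cons (t : ℝ) (Pi.single 0 1 : Fin (n + 1) → ℝ)) := by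
  obtain ⟨B', hB', h⟩ := hX.vec hB (Fin.cons t (Pi.single 0 1 : Fin (n + 1) → ℤ)) 1 (by
    show (Fin.cons t (Pi.single 0 1 : Fin (n + 1) → ℤ) : Fin (n + 1 + 1) → ℤ) (Fin.succ 0) = 1
    rw [Fin.cons_succ, Pi.single_eq_same])
  have h1 : (fun j : Fin (n + 1 + 1) ↦ (((Fin.cons t (Pi.single 0 1 : Fin (n + 1) → ℤ) :
      Fin (n + 1 + 1) → ℤ) j : ℤ) : ℝ)) = Fin.cons (t : ℝ) (Pi.single 0 1 : Fin (n + 1) → ℝ) := by
    funext j
    refine Fin.cases ?_ (fun j' ↦ ?_) j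
    · simp
    · simp [Pi.single_apply]
  rw [h1] at h
  rw [← h]
  exact_mod_cast hmin B' hB'

/-- Hermite's inequality. -/
theorem Good.hermite {n : ℕ} {X : Set (Matrix (Fin (n + 1 + 1)) (Fin (n + 1 + 1)) ℤ)}
    (hX : Good X) {m : ℤ} (hmin : ∀ B ∈ X, m ≤ B 0 0)
    {B : Matrix (Fin (n + 1 + 1)) (Fin (n + 1 + 1)) ℤ} (hB : B ∈ X) (hm : B 0 0 = m) :
    3 / 4 * (m : ℝ) ^ 2 ≤ sch B 0 0 := by
  have hm0 : (0 : ℝ) < m := by
    rw [← hm]
    exact_mod_cast hX.pos B hB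
  have h1 := hX.two hmin hB (-round ((B 0 1 : ℝ) / m))
  have h2 := QS_two (hX.symm B hB) ((-round ((B 0 1 : ℝ) / m) : ℤ) : ℝ)
  rw [hm] at h2
  have h3 := abs_sub_round ((B 0 1 : ℝ) / m)
  have h4 : ((m : ℝ) * ((-round ((B 0 1 : ℝ) / m) : ℤ) : ℝ) + B 0 1) ^ 2 ≤ (m : ℝ) ^ 2 / 4 := by
    have h5 : (m : ℝ) * ((-round ((B 0 1 : ℝ) / m) : ℤ) : ℝ) + B 0 1 =
        m * ((B 0 1 : ℝ) / m - round ((B 0 1 : ℝ) / m)) := by
      push_cast
      field_simp
      ring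
    rw [h5, mul_pow, ← sq_abs ((B 0 1 : ℝ) / m - _)]
    have h6 : |(B 0 1 : ℝ) / m - round ((B 0 1 : ℝ) / m)| ^ 2 ≤ (1 / 2) ^ 2 :=
      pow_le_pow_left₀ (abs_nonneg _) h3 2
    nlinarith [sq_nonneg (m : ℝ)]
  nlinarith

theorem Good.sch {n : ℕ} {X : Set (Matrix (Fin (n + 1 + 1)) (Fin (n + 1 + 1)) ℤ)} (hX : Good X)
    {m : ℤ} (hmin : ∀ B ∈ X, m ≤ B 0 0) : Good (schSet X m) where
  symm := by
    rintro C ⟨B, hB, hm, rfl⟩
    have h := hX.symm B hB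
    refine Matrix.IsSymm.ext fun i j ↦ ?_
    show B 0 0 * B j.succ i.succ - B 0 j.succ * B 0 i.succ =
      B 0 0 * B i.succ j.succ - B 0 i.succ * B 0 j.succ
    rw [h.apply i.succ j.succ]
    ring
  pos := by
    rintro C ⟨B, hB, hm, rfl⟩
    have h := hX.hermite hmin hB hm
    have hm0 : (0 : ℝ) < m := by
      rw [← hm]
      exact_mod_cast hX.pos B hB
    have : (0 : ℝ) < SpecialCycles.sch B 0 0 := by
      have : 0 < 3 / 4 * (m : ℝ) ^ 2 := by positivity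
      linarith
    exact_mod_cast this
  gl := by
    rintro C ⟨B, hB, hm, rfl⟩ U hU
    have h := sch_conj B U
    refine ⟨_, hX.gl B hB (ext1 U) (by rwa [det_ext1]), h.1.trans hm, h.2⟩

theorem Good.pd {n : ℕ} {X : Set (Matrix (Fin (n + 1)) (Fin (n + 1)) ℤ)} (hX : Good X)
    {B : Matrix (Fin (n + 1)) (Fin (n + 1)) ℤ} (hB : B ∈ X) {x : Fin (n + 1) → ℝ} (hx : x ≠ 0) :
    0 < QS B x := by
  induction n with
  | zero =>
    have h0 : (0 : ℝ) < B 0 0 := by exact_mod_cast hX.pos B hB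
    have hx0 : x 0 ≠ 0 := fun h ↦ hx (by
      funext j
      have hj : j = 0 := Fin.fin_one_eq_zero j
      rw [hj, h]
      rfl)
    have h1 : QS B x = B 0 0 * x 0 * x 0 := by
      unfold QS
      simp
    rw [h1]
    have := mul_self_pos.2 hx0
    nlinarith
  | succ n ih =>
    -- the orbit of `B`
    set Y : Set (Matrix (Fin (n + 1 + 1)) (Fin (n + 1 + 1)) ℤ) :=
      {B' | ∃ U : Matrix (Fin (n + 1 + 1)) (Fin (n + 1 + 1)) ℤ, IsUnit U.det ∧
        U.transpose * B * U = B'} with hY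
    have hYX : Y ⊆ X := by
      rintro B' ⟨U, hU, rfl⟩
      exact hX.gl B hB U hU
    have gY : Good Y := by
      refine ⟨fun B' h ↦ hX.symm B' (hYX h), fun B' h ↦ hX.pos B' (hYX h), ?_⟩
      rintro B' ⟨U, hU, rfl⟩ U' hU'
      refine ⟨U * U', by rw [Matrix.det_mul]; exact hU.mul hU', ?_⟩
      rw [Matrix.transpose_mul]
      simp only [Matrix.mul_assoc]
    obtain ⟨B₁, ⟨U, hU, hB₁⟩, hmin⟩ := gY.exists_min ⟨B, 1, by simp, by simp⟩
    have hB₁Y : B₁ ∈ Y := ⟨U, hU, hB₁⟩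
    have g1 := gY.sch hmin
    -- `x = U y`
    have hUi : IsUnit (U.map (fun z : ℤ ↦ (z : ℝ))).det := by
      have : (U.map (fun z : ℤ ↦ (z : ℝ))).det = ((U.det : ℤ) : ℝ) := by
        have := (Int.castRingHom ℝ).map_det U
        simpa [RingHom.mapMatrix_apply] using this.symm
      rw [this]
      exact hU.map (Int.castRingHom ℝ)
    set y : Fin (n + 1 + 1) → ℝ := ((U.map (fun z : ℤ ↦ (z : ℝ)))⁻¹).mulVec x with hy
    have hxy : (U.map (fun z : ℤ ↦ (z : ℝ))).mulVec y = x := by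
      rw [hy, Matrix.mulVec_mulVec, Matrix.mul_nonsing_inv _ hUi, Matrix.one_mulVec]
    have hy0 : y ≠ 0 := by
      rintro h
      rw [h, Matrix.mulVec_zero] at hxy
      exact hx hxy.symm
    have h1 : QS B x = QS B₁ y := by
      rw [← hB₁, QS_conj, hxy]
    rw [h1]
    have hp : (0 : ℝ) < B₁ 0 0 := by exact_mod_cast gY.pos B₁ hB₁Y
    have h2 := QS_sch (gY.symm B₁ hB₁Y) y
    by_cases hc : (fun j : Fin (n + 1) ↦ y j.succ) = 0
    · have hz : ∀ j : Fin (n + 1), y j.succ = 0 := fun j ↦ congrFun hc j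
      have hy00 : y 0 ≠ 0 := by
        intro h
        apply hy0
        funext j
        refine Fin.cases ?_ (fun j' ↦ ?_) j
        · simpa using h
        · simpa using hz j'
      have h3 : ∑ j, (B₁ 0 j : ℝ) * y j = B₁ 0 0 * y 0 := by
        rw [Fin.sum_univ_succ]
        simp [hz]
      have h4 : QS (SpecialCycles.sch B₁) (fun j ↦ y j.succ) = 0 := by
        unfold QS
        simp [hz]
      rw [h3, h4] at h2
      have h5 : 0 < (B₁ 0 0 : ℝ) * QS B₁ y := by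
        rw [h2]
        positivity
      exact (mul_pos_iff_of_pos_left hp).1 h5
    · have h3 := ih g1 ⟨B₁, hB₁Y, rfl, rfl⟩ hc
      have h5 : 0 < (B₁ 0 0 : ℝ) * QS B₁ y := by
        rw [h2]
        have := sq_nonneg (∑ j, (B₁ 0 j : ℝ) * y j)
        linarith
      exact (mul_pos_iff_of_pos_left hp).1 h5

theorem lat_pd (n : ℕ) (X : Set (Matrix (Fin (n + 1)) (Fin (n + 1)) ℤ))
    (hs : ∀ B ∈ X, B.IsSymm) (hpos : ∀ B ∈ X, 0 < B 0 0)
    (hgl : ∀ B ∈ X, ∀ U : Matrix (Fin (n + 1)) (Fin (n + 1)) ℤ, IsUnit U.det →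
      U.transpose * B * U ∈ X) {B : Matrix (Fin (n + 1)) (Fin (n + 1)) ℤ} (hB : B ∈ X)
    {x : Fin (n + 1) → ℝ} (hx : x ≠ 0) : 0 < QS B x :=
  Good.pd ⟨hs, hpos, hgl⟩ hB hx

end Lattice

end Pool.Agent.Results.MP_386e47_ag.SpecialCycles
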