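import Pool.Agent.Lib.SPX.L1
import Pool.Agent.Lib.SPX.L3

/-! Row L2 (helper89): the Korkine-Zolotarev chain of Schur complements. -/

namespace Pool.Agent.Results.MP_386e47_ag.SpecialCycles

open Finset

section Lattice

/-- The condition `hM` of `lat_min`. -/
def HM {n : ℕ} (X : Set (Matrix (Fin (n + 1)) (Fin (n + 1)) ℤ)) (β : ℝ) : Prop :=
  ∀ B ∈ X, ∃ B₁ ∈ X, (∀ j l, j ≠ Fin.last n → l ≠ Fin.last n → B₁ j l = B j l) ∧
    ∃ x : Fin (n + 1) → ℝ, x (Fin.last n) = 1 ∧ QS B₁ x ≤ β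

theorem HM.sch {n : ℕ} {X : Set (Matrix (Fin (n + 1 + 1)) (Fin (n + 1 + 1)) ℤ)} (hX : Good X)
    {m : ℤ} (hm0 : 0 < m) {β : ℝ} (h : HM X β) : HM (schSet X m) (m * β) := by
  rintro C ⟨B, hB, hm, rfl⟩
  obtain ⟨B₁, hB₁, h1, x, hx, hq⟩ := h B hB
  have hl : ∀ j : Fin (n + 1), j ≠ Fin.last n → j.succ ≠ Fin.last (n + 1) := fun j hj he ↦ by
    rw [← Fin.succ_last] at he
    exact hj (Fin.succ_injective _ he)
  have h0 : (0 : Fin (n + 1 + 1)) ≠ Fin.last (n + 1) := (Fin.last_pos (n := n)).ne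
  have hm1 : B₁ 0 0 = m := by rw [h1 0 0 h0 h0, hm]
  refine ⟨SpecialCycles.sch B₁, ⟨B₁, hB₁, hm1, rfl⟩, fun j l hj hl' ↦ ?_, fun j ↦ x j.succ, ?_, ?_⟩
  · show B₁ 0 0 * B₁ j.succ l.succ - B₁ 0 j.succ * B₁ 0 l.succ =
      B 0 0 * B j.succ l.succ - B 0 j.succ * B 0 l.succ
    rw [h1 0 0 h0 h0, h1 _ _ (hl j hj) (hl l hl'), h1 _ _ h0 (hl j hj), h1 _ _ h0 (hl l hl')]
  · show x (Fin.last n).succ = 1
    rw [Fin.succ_last]
    exact hx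
  · have h2 := QS_sch (hX.symm B₁ hB₁) x
    rw [hm1] at h2
    have h3 := sq_nonneg (∑ j, (B₁ 0 j : ℝ) * x j)
    have h4 : (m : ℝ) * QS B₁ x ≤ m * β :=
      mul_le_mul_of_nonneg_left hq (by exact_mod_cast hm0.le)
    linarith

theorem sum_cons {n : ℕ} (f : Fin (n + 1) → ℝ) (s : ℝ) (v : Fin n → ℝ) :
    ∑ j, f j * (Fin.cons s v : Fin (n + 1) → ℝ) j = f 0 * s + ∑ j, f j.succ * v j := by
  rw [Fin.sum_univ_succ, Fin.cons_zero]
  congr 1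

/-- The value at the vector `(s, t, 1, 0, …, 0)`. -/
theorem QS_three {n : ℕ} {B : Matrix (Fin (n + 1 + 1 + 1)) (Fin (n + 1 + 1 + 1)) ℤ}
    (hB : B.IsSymm) (s t : ℝ) :
    (B 0 0 : ℝ) * QS B (Fin.cons s (Fin.cons t (Pi.single 0 1 : Fin (n + 1) → ℝ) :
        Fin (n + 1 + 1) → ℝ)) =
      (B 0 0 * s + B 0 1 * t + B 0 2) ^ 2 +
        QS (sch B) (Fin.cons t (Pi.single 0 1 : Fin (n + 1) → ℝ)) := by
  rw [QS_sch hB]
  have h1 : ∑ j, (B 0 j : ℝ) * (Fin.cons s (Fin.cons t (Pi.single 0 1 : Fin (n + 1) → ℝ) :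
        Fin (n + 1 + 1) → ℝ) : Fin (n + 1 + 1 + 1) → ℝ) j = B 0 0 * s + B 0 1 * t + B 0 2 := by
    have h2 := sum_cons_single (n := n) (fun j ↦ (B 0 j.succ : ℝ)) t
    rw [sum_cons (fun j ↦ (B 0 j : ℝ)), h2]
    have e1 : (0 : Fin (n + 1 + 1)).succ = 1 := rfl
    have e2 : (1 : Fin (n + 1 + 1)).succ = 2 := rfl
    rw [e1, e2]
    ring
  have h3 : (fun j : Fin (n + 1 + 1) ↦ (Fin.cons s (Fin.cons t (Pi.single 0 1 : Fin (n + 1) → ℝ) :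
      Fin (n + 1 + 1) → ℝ) : Fin (n + 1 + 1 + 1) → ℝ) j.succ) =
      Fin.cons t (Pi.single 0 1 : Fin (n + 1) → ℝ) := by
    funext j
    rw [Fin.cons_succ]
  rw [h1, h3]

theorem Good.three {n : ℕ} {X : Set (Matrix (Fin (n + 1 + 1 + 1)) (Fin (n + 1 + 1 + 1)) ℤ)}
    (hX : Good X) {m : ℤ} (hmin : ∀ B ∈ X, m ≤ B 0 0)
    {B : Matrix (Fin (n + 1 + 1 + 1)) (Fin (n + 1 + 1 + 1)) ℤ} (hB : B ∈ X) (s t : ℤ) :
    (m : ℝ) ≤ QS B (Fin.cons (s : ℝ) (Fin.cons (t : ℝ) (Pi.single 0 1 : Fin (n + 1) → ℝ) :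
        Fin (n + 1 + 1) → ℝ)) := by
  obtain ⟨B', hB', h⟩ := hX.vec hB (Fin.cons s (Fin.cons t (Pi.single 0 1 : Fin (n + 1) → ℤ) :
    Fin (n + 1 + 1) → ℤ)) (Fin.succ (Fin.succ 0)) (by
      rw [Fin.cons_succ, Fin.cons_succ, Pi.single_eq_same])
  have h1 : (fun j : Fin (n + 1 + 1 + 1) ↦ (((Fin.cons s (Fin.cons t
      (Pi.single 0 1 : Fin (n + 1) → ℤ) : Fin (n + 1 + 1) → ℤ) :
      Fin (n + 1 + 1 + 1) → ℤ) j : ℤ) : ℝ)) = Fin.cons (s : ℝ) (Fin.cons (t : ℝ)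
        (Pi.single 0 1 : Fin (n + 1) → ℝ) : Fin (n + 1 + 1) → ℝ) := by
    funext j
    refine Fin.cases ?_ (fun j' ↦ ?_) j
    · simp
    · refine Fin.cases ?_ (fun j'' ↦ ?_) j'
      · simp
      · simp [Pi.single_apply]
  rw [h1] at h
  rw [← h]
  exact_mod_cast hmin B' hB'

/-- The Korkine-Zolotarev inequality for three successive minima of Schur complements. -/
theorem Good.kz {n : ℕ} {X : Set (Matrix (Fin (n + 1 + 1 + 1)) (Fin (n + 1 + 1 + 1)) ℤ)}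
    (hX : Good X) {m m' : ℤ} (hmin : ∀ B ∈ X, m ≤ B 0 0)
    (hmin' : ∀ C ∈ schSet X m, m' ≤ C 0 0)
    {B : Matrix (Fin (n + 1 + 1 + 1)) (Fin (n + 1 + 1 + 1)) ℤ} (hB : B ∈ X) (hm : B 0 0 = m)
    (hm' : SpecialCycles.sch B 0 0 = m') :
    2 / 3 * ((m : ℝ) ^ 2 * m') ≤ SpecialCycles.sch (SpecialCycles.sch B) 0 0 := by
  have gX' := hX.sch hmin
  have hC : SpecialCycles.sch B ∈ schSet X m := ⟨B, hB, hm, rfl⟩
  have gX'' := gX'.sch hmin'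
  have hD : SpecialCycles.sch (SpecialCycles.sch B) ∈ schSet (schSet X m) m' :=
    ⟨_, hC, hm', rfl⟩
  set C := SpecialCycles.sch B with hCdef
  set D := SpecialCycles.sch C with hDdef
  have pm : (0 : ℝ) < m := by rw [← hm]; exact_mod_cast hX.pos B hB
  have pm' : (0 : ℝ) < m' := by rw [← hm']; exact_mod_cast gX'.pos C hC
  have pD : (0 : ℝ) < D 0 0 := by exact_mod_cast gX''.pos D hD
  have key := SpecialCycles.kz (a := (m' : ℝ) / m ^ 2) (c := (D 0 0 : ℝ) / (m' * m ^ 2))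
    (μ := (B 0 1 : ℝ) / m) (ν := (B 0 2 : ℝ) / m) (w := (C 0 1 : ℝ) / m')
    (by positivity) (by positivity)
    (by
      intro x
      have h1 := hX.two hmin hB x
      have h2 := QS_two (hX.symm B hB) (x : ℝ)
      rw [hm, ← hCdef, hm'] at h2
      have h3 : (m : ℝ) ^ 2 ≤ (m * x + B 0 1) ^ 2 + m' := by
        rw [← h2, pow_two]
        exact mul_le_mul_of_nonneg_left h1 pm.le
      have h4 : ((x : ℝ) + B 0 1 / m) ^ 2 + m' / m ^ 2 = ((m * x + B 0 1) ^ 2 + m') / m ^ 2 := by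
        field_simp
      rw [h4, le_div_iff₀ (by positivity), one_mul]
      exact h3)
    (by
      intro x y
      have h1 := hX.three hmin hB x y
      have h2 := QS_three (hX.symm B hB) (x : ℝ) (y : ℝ)
      rw [hm, ← hCdef] at h2
      have h5 := QS_two (gX'.symm C hC) (y : ℝ)
      rw [hm', ← hDdef] at h5
      have h6 : QS C (Fin.cons (y : ℝ) (Pi.single 0 1 : Fin (n + 1) → ℝ)) =
          ((m' * y + C 0 1) ^ 2 + D 0 0) / m' := by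
        rw [← h5]
        field_simp
      have h3 : (m : ℝ) ^ 2 ≤ (m * x + B 0 1 * y + B 0 2) ^ 2 +
          ((m' * y + C 0 1) ^ 2 + D 0 0) / m' := by
        rw [← h6, ← h2, pow_two]
        exact mul_le_mul_of_nonneg_left h1 pm.le
      have h4 : ((x : ℝ) + y * (B 0 1 / m) + B 0 2 / m) ^ 2 + (y + C 0 1 / m') ^ 2 * (m' / m ^ 2) +
          D 0 0 / (m' * m ^ 2) = ((m * x + B 0 1 * y + B 0 2) ^ 2 +
          ((m' * y + C 0 1) ^ 2 + D 0 0) / m') / m ^ 2 := by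
        field_simp
        ring
      rw [h4, le_div_iff₀ (by positivity), one_mul]
      exact h3)
    (by
      intro y
      have h1 := gX'.two hmin' hC y
      have h5 := QS_two (gX'.symm C hC) (y : ℝ)
      rw [hm', ← hDdef] at h5
      have h3 : (m' : ℝ) ^ 2 ≤ (m' * y + C 0 1) ^ 2 + D 0 0 := by
        rw [← h5, pow_two]
        exact mul_le_mul_of_nonneg_left h1 pm'.le
      have h4 : ((y : ℝ) + C 0 1 / m') ^ 2 * (m' / m ^ 2) + D 0 0 / (m' * m ^ 2) =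
          ((m' * y + C 0 1) ^ 2 + D 0 0) / (m' * m ^ 2) := by
        field_simp
      have h7 : (m' : ℝ) / m ^ 2 = m' ^ 2 / (m' * m ^ 2) := by
        field_simp
      rw [h4, h7]
      exact div_le_div_of_nonneg_right h3 (by positivity))
  rw [le_div_iff₀ (by positivity)] at key
  linarith

theorem kap_nonneg : ∀ n : ℕ, 0 ≤ kap n
  | 0 => by rw [kap]; norm_num
  | 1 => by rw [kap]; norm_num
  | (n + 2) => by
    rw [kap]
    have := kap_nonneg n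
    positivity

theorem lat_min_aux : ∀ (n : ℕ) (X : Set (Matrix (Fin (n + 1)) (Fin (n + 1)) ℤ)),
    X.Nonempty → Good X → ∀ β : ℝ, HM X β → ∃ B ∈ X, kap n * (B 0 0 : ℝ) ≤ β
  | 0, X, ⟨B, hB⟩, _, β, hM => by
    obtain ⟨B₁, hB₁, -, x, hx, hq⟩ := hM B hB
    refine ⟨B₁, hB₁, ?_⟩
    have h1 : QS B₁ x = B₁ 0 0 := by
      have hx0 : x 0 = 1 := hx
      unfold QS
      simp [hx0]
    rw [kap, one_mul, ← h1]
    exact hq
  | 1, X, hne, hX, β, hM => by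
    obtain ⟨B, hB, hmin⟩ := hX.exists_min hne
    obtain ⟨B₁, hB₁, h1, x, hx, hq⟩ := hM B hB
    have h0 : (0 : Fin (0 + 1 + 1)) ≠ Fin.last 1 := by decide
    have hm : B₁ 0 0 = B 0 0 := h1 0 0 h0 h0
    refine ⟨B, hB, ?_⟩
    have h2 := hX.hermite (n := 0) hmin hB₁ hm
    have h3 := QS_sch (n := 0) (hX.symm B₁ hB₁) x
    have h4 : QS (sch B₁) (fun j : Fin (0 + 1) ↦ x j.succ) = sch B₁ 0 0 := by
      have hx1 : x 1 = 1 := hx
      unfold QS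
      simp [hx1]
    rw [h4, hm] at h3
    have p : (0 : ℝ) < B 0 0 := by exact_mod_cast hX.pos B hB
    have h5 := sq_nonneg (∑ j, (B₁ 0 j : ℝ) * x j)
    have h6 : (B 0 0 : ℝ) * (3 / 4 * B 0 0) ≤ B 0 0 * QS B₁ x := by
      rw [h3]
      nlinarith
    have h7 := le_of_mul_le_mul_left h6 p
    rw [kap]
    exact h7.trans hq
  | (n + 2), X, hne, hX, β, hM => by
    obtain ⟨B₀, hB₀, hmin⟩ := hX.exists_min hne
    have gX' := hX.sch (n := n + 1) hmin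
    obtain ⟨C₀, hC₀, hmin'⟩ := gX'.exists_min ⟨_, B₀, hB₀, rfl, rfl⟩
    have gX'' := gX'.sch hmin'
    have pm : (0 : ℤ) < B₀ 0 0 := hX.pos B₀ hB₀
    have pm' : (0 : ℤ) < C₀ 0 0 := gX'.pos C₀ hC₀
    have hM' := HM.sch (n := n + 1) hX pm hM
    have hM'' := HM.sch gX' pm' hM'
    obtain ⟨D, hD, hle⟩ := lat_min_aux n (schSet (schSet X (B₀ 0 0)) (C₀ 0 0))
      ⟨_, C₀, hC₀, rfl, rfl⟩ gX'' _ hM''
    obtain ⟨C, hC, hCm, rfl⟩ := hD
    obtain ⟨B, hB, hBm, rfl⟩ := hC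
    have hkz := hX.kz hmin hmin' hB hBm hCm
    refine ⟨B₀, hB₀, ?_⟩
    have q : (0 : ℝ) < B₀ 0 0 := by exact_mod_cast pm
    have q' : (0 : ℝ) < C₀ 0 0 := by exact_mod_cast pm'
    have h1 := mul_le_mul_of_nonneg_left hkz (kap_nonneg n)
    have h2 : ((B₀ 0 0 : ℝ) * C₀ 0 0) * (2 / 3 * kap n * B₀ 0 0) ≤ (B₀ 0 0 * C₀ 0 0) * β := by
      nlinarith
    have h3 := le_of_mul_le_mul_left h2 (by positivity)
    rw [kap]
    exact h3

theorem lat_min (n : ℕ) (X : Set (Matrix (Fin (n + 1)) (Fin (n + 1)) ℤ)) (hne : X.Nonempty)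
    (hs : ∀ B ∈ X, B.IsSymm) (hpos : ∀ B ∈ X, 0 < B 0 0)
    (hgl : ∀ B ∈ X, ∀ U : Matrix (Fin (n + 1)) (Fin (n + 1)) ℤ, IsUnit U.det →
      U.transpose * B * U ∈ X) (β : ℝ)
    (hM : ∀ B ∈ X, ∃ B₁ ∈ X, (∀ j l, j ≠ Fin.last n → l ≠ Fin.last n → B₁ j l = B j l) ∧
      ∃ x : Fin (n + 1) → ℝ, x (Fin.last n) = 1 ∧ QS B₁ x ≤ β) :
    ∃ B ∈ X, kap n * (B 0 0 : ℝ) ≤ β :=
  lat_min_aux n X hne ⟨hs, hpos, hgl⟩ β hM

end Lattice

end Pool.Agent.Results.MP_386e47_ag.SpecialCycles
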