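import Pool.Agent.Lib.SPX.Defs

/-! Row L4 (helper41): the numerical inequality for the constants. -/

namespace Pool.Agent.Results.MP_386e47_ag.SpecialCycles

lemma kap_nonneg4 : ∀ n : ℕ, 0 ≤ kap n
  | 0 => by simp [kap]
  | 1 => by simp only [kap]; norm_num
  | (n + 2) => by
      have := kap_nonneg4 n
      simp only [kap]
      positivity

theorem kap_ineq (n : ℕ) : 9 / 2 ≤ 6 * kap n + n / 2 := by
  rcases Nat.lt_or_ge n 9 with h | h
  · interval_cases n <;> simp only [kap] <;> norm_num
  · have h1 := kap_nonneg4 n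
    have h2 : (9 : ℝ) ≤ n := by exact_mod_cast h
    linarith

end Pool.Agent.Results.MP_386e47_ag.SpecialCycles
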