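import Pool.Agent.Lib.SPX.Defs

/-! Row R2: moments of the restriction, moments along positions which avoid a vertex (helper83). -/

namespace Pool.Agent.Results.MP_386e47_ag.SpecialCycles

open Complex Finset MeasureTheory

section Siegel

variable {ι : Type*} [Fintype ι] [DecidableEq ι]
variable {V : Type*} [NormedAddCommGroup V] [NormedSpace ℂ V]

/-- A matrix of the diagonal `T`, over the blocks away from `i`. -/
lemma res_fib {N : ℕ} {k : ℝ} {a : Matrix ι ι ℤ → V} (h : IsSiegel N k a) (i : ι) (T : ι → ℤ)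
    (w : Matrix {j // j ≠ i} {j // j ≠ i} ℤ → ℂ) :
    ∑' B' : {B' : Matrix {j // j ≠ i} {j // j ≠ i} ℤ // ∀ j, B' j j = T j.1},
      w B'.1 • res a i (T i) B'.1 =
    ∑' B : {B : Matrix ι ι ℤ // ∀ j, B j j = T j}, w (blk i B.1) • a B.1 := by
  classical
  obtain ⟨F, hF, hFs⟩ := fin_sum h T
  -- the inner sum
  have h1 : ∀ B' : {B' : Matrix {j // j ≠ i} {j // j ≠ i} ℤ // ∀ j, B' j j = T j.1},
      res a i (T i) B'.1 = ∑ B ∈ F, if blk i B.1 = B'.1 then a B.1 else 0 := by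
    intro B'
    have hd : ∀ B : Matrix ι ι ℤ, B i i = T i → blk i B = B'.1 → ∀ j, B j j = T j := by
      intro B hi hb j
      by_cases hj : j = i
      · rw [hj, hi]
      · have := congrFun (congrFun hb ⟨j, hj⟩) ⟨j, hj⟩
        rw [B'.2 ⟨j, hj⟩] at this
        exact this
    rw [res]
    rw [← sum_filter]
    obtain ⟨G, hG⟩ : ∃ G : Finset {B : Matrix ι ι ℤ // B i i = T i ∧ blk i B = B'.1},
      ∀ B : {B : Matrix ι ι ℤ // B i i = T i ∧ blk i B = B'.1}, B ∈ G ↔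
        (⟨B.1, hd B.1 B.2.1 B.2.2⟩ : {B : Matrix ι ι ℤ // ∀ j, B j j = T j}) ∈ F := by
      have hinj : Function.Injective fun B : {B : Matrix ι ι ℤ // B i i = T i ∧ blk i B = B'.1} ↦
          (⟨B.1, hd B.1 B.2.1 B.2.2⟩ : {B : Matrix ι ι ℤ // ∀ j, B j j = T j}) := by
        intro B C hBC
        have h3 := congrArg (fun x : {B : Matrix ι ι ℤ // ∀ j, B j j = T j} ↦ x.1) hBC
        exact Subtype.ext h3
      refine ⟨F.preimage _ (hinj.injOn), fun B ↦ ?_⟩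
      rw [mem_preimage]
    have e1 : ∑' B : {B : Matrix ι ι ℤ // B i i = T i ∧ blk i B = B'.1}, a B.1 =
        ∑ B ∈ G, a B.1 := by
      refine tsum_eq_sum fun B hB ↦ ?_
      by_contra hne
      exact hB ((hG B).2 (hF _ hne))
    rw [e1]
    refine sum_bij (fun B _ ↦ (⟨B.1, hd B.1 B.2.1 B.2.2⟩ :
      {B : Matrix ι ι ℤ // ∀ j, B j j = T j})) ?_ ?_ ?_ ?_
    · intro B hB
      rw [mem_filter]
      exact ⟨(hG B).1 hB, B.2.2⟩
    · intro B _ C _ hBC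
      have h3 := congrArg (fun x : {B : Matrix ι ι ℤ // ∀ j, B j j = T j} ↦ x.1) hBC
      exact Subtype.ext h3
    · intro B hB
      rw [mem_filter] at hB
      exact ⟨⟨B.1, B.2 i, hB.2⟩, (hG _).2 hB.1, rfl⟩
    · intro B _
      rfl
  have h2 : ∀ B' : {B' : Matrix {j // j ≠ i} {j // j ≠ i} ℤ // ∀ j, B' j j = T j.1},
      w B'.1 • res a i (T i) B'.1 =
        ∑ B ∈ F, if blk i B.1 = B'.1 then w (blk i B.1) • a B.1 else 0 := by
    intro B'
    rw [h1, smul_sum]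
    refine sum_congr rfl fun B _ ↦ ?_
    split_ifs with hb
    · rw [hb]
    · rw [smul_zero]
  obtain ⟨F', hF'⟩ : ∃ F' : Finset {B' : Matrix {j // j ≠ i} {j // j ≠ i} ℤ // ∀ j, B' j j = T j.1},
      F' = F.image fun B ↦ ⟨blk i B.1, fun j ↦ B.2 j.1⟩ := ⟨_, rfl⟩
  rw [hFs fun B ↦ w (blk i B)]
  rw [tsum_eq_sum (s := F') fun B' hB' ↦ ?_]
  · simp_rw [h2]
    rw [sum_comm]
    refine sum_congr rfl fun B hB ↦ ?_
    rw [sum_eq_single_of_mem (⟨blk i B.1, fun j ↦ B.2 j.1⟩ :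
      {B' : Matrix {j // j ≠ i} {j // j ≠ i} ℤ // ∀ j, B' j j = T j.1})]
    · rw [if_pos rfl]
    · rw [hF']
      exact mem_image_of_mem _ hB
    · intro C _ hC
      rw [if_neg]
      intro h3
      exact hC (Subtype.ext h3.symm)
  · rw [h2]
    refine sum_eq_zero fun B hB ↦ ?_
    rw [if_neg]
    intro h3
    apply hB'
    rw [hF', mem_image]
    exact ⟨B, hB, Subtype.ext h3⟩

lemma res_fib' {N : ℕ} {k : ℝ} {a : Matrix ι ι ℤ → V} (h : IsSiegel N k a) (i : ι) (T : ι → ℤ)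
    (T' : {j // j ≠ i} → ℤ) (hT : (fun j : {j // j ≠ i} ↦ T j.1) = T') (n : ℤ) (hn : T i = n)
    (w : Matrix {j // j ≠ i} {j // j ≠ i} ℤ → ℂ) :
    ∑' B' : {B' : Matrix {j // j ≠ i} {j // j ≠ i} ℤ // ∀ j, B' j j = T' j},
      w B'.1 • res a i n B'.1 =
    ∑' B : {B : Matrix ι ι ℤ // ∀ j, B j j = T j}, w (blk i B.1) • a B.1 := by
  subst hT hn
  exact res_fib h i T w

theorem mom_nil_res {N : ℕ} {k : ℝ} {a : Matrix ι ι ℤ → V} (h : IsSiegel N k a) (i : ι) (n : ℤ)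
    (hv : ∀ t : ι → ℤ, Mom a [] t = 0) : ∀ t : {j // j ≠ i} → ℤ, Mom (res a i n) [] t = 0 := by
  intro t
  have h1 := res_fib' h i (fun j ↦ if hj : j = i then n else t ⟨j, hj⟩) t
    (funext fun j ↦ dif_neg j.2) n (dif_pos rfl) fun _ ↦ 1
  have h2 := hv fun j ↦ if hj : j = i then n else t ⟨j, hj⟩
  simp only [Mom, List.map_nil, List.prod_nil] at h2 ⊢
  rw [h2] at h1
  exact h1

theorem mom_avoid {N : ℕ} {k : ℝ} {a : Matrix ι ι ℤ → V} (h : IsSiegel N k a) (i : ι)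
    (hr : ∀ n B', res a i n B' = 0) {es : List (ι × ι)}
    (hes : ∀ p ∈ es, p.1 ≠ p.2 ∧ p.1 ≠ i ∧ p.2 ≠ i) (t : ι → ℤ) : Mom a es t = 0 := by
  classical
  have h1 := res_fib h i t fun B' ↦ (es.map fun p ↦
    if hp : p.1 ≠ i ∧ p.2 ≠ i then ((B' ⟨p.1, hp.1⟩ ⟨p.2, hp.2⟩ : ℤ) : ℂ) else 1).prod
  simp only [hr, smul_zero, tsum_zero] at h1
  rw [Mom, h1]
  refine tsum_congr fun B ↦ ?_
  congr 2
  refine List.map_congr_left fun p hp ↦ ?_
  rw [dif_pos (hes p hp).2]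
  rfl

end Siegel

end Pool.Agent.Results.MP_386e47_ag.SpecialCycles
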