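import Pool.Agent.Lib.SPX.Defs

/-! Formal Siegel forms of low weight: a vertex with vanishing average restriction has diagonal
entries at least `N / 2` (helper35). -/

namespace Pool.Agent.Results.MP_386e47_ag.SpecialCycles

open Complex Finset Filter Topology Asymptotics

set_option linter.unusedSectionVars false
set_option linter.unusedSimpArgs false

variable {ι : Type*} [Fintype ι] [DecidableEq ι]
variable {V : Type*} [NormedAddCommGroup V] [NormedSpace ℂ V]

lemma Sv_mono_zero_local [CompleteSpace V] {N : ℕ} {k : ℝ} {a : Matrix ι ι ℤ → V}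
    (h : IsSiegel N k a) (hN : 0 < N) (i : ι) (t : ι → ℤ) {es : List (ι × ι)}
    (he : ∀ p ∈ es, p.1 ≠ p.2) (h0 : ∀ m : ℤ, Mom a es (Function.update t i m) = 0) {τ : ℂ}
    (hτ : 0 < τ.im) : Sv N a i t (mono es) τ = 0 := by
  rw [Sv_eq_qs h hN i t (mono_tame he) hτ]
  unfold qs
  refine (tsum_congr fun n ↦ ?_).trans tsum_zero
  rw [cq_mono, h0, smul_zero]

/-- The exponent of `z_{ij}` in a leading monomial is at most `2 t_i / N`; only the moments with
the same diagonal away from `j` have to vanish. -/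
lemma step2_local [CompleteSpace V] {N : ℕ} {k : ℝ} {a : Matrix ι ι ℤ → V} (h : IsSiegel N k a)
    (hN : 0 < N) {n : ℕ} {i j : ι} (hij : i ≠ j) (t : ι → ℤ)
    (hv : ∀ es : List (ι × ι), (∀ p ∈ es, p.1 ≠ p.2) → es.length < n →
      ∀ m : ℤ, Mom a es (Function.update t j m) = 0) {γ : List (ι × ι)}
    (hγ : ∀ p ∈ γ, Al i j p) {c : ℕ} (hn : γ.length + c = n)
    (hne : Mom a (γ ++ List.replicate c (i, j)) t ≠ 0) : (c : ℝ) ≤ 2 * (t i : ℝ) / N := by
  have hNr : (0 : ℝ) < N := by exact_mod_cast hN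
  have hN0 : (N : ℂ) ≠ 0 := by exact_mod_cast hN.ne'
  have hlnz : (4 * Real.pi * I / N : ℂ) ≠ 0 := by
    apply div_ne_zero _ hN0
    apply mul_ne_zero _ Complex.I_ne_zero
    apply mul_ne_zero (by norm_num)
    exact_mod_cast Real.pi_ne_zero
  have hrep : ∀ m : ℕ, ∀ B : Matrix ι ι ℤ, mono (List.replicate m (i, j)) B =
      ((B i j : ℤ) : ℂ) ^ m := by
    intro m B
    simp [mono, List.map_replicate, List.prod_replicate]
  have hes : ∀ (δ : List (ι × ι)) (m : ℕ), (∀ p ∈ δ, Al i j p) →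
      ∀ p ∈ δ ++ List.replicate m (i, j), p.1 ≠ p.2 := by
    intro δ m hδ p hp
    rcases List.mem_append.mp hp with h1 | h1
    · exact (hδ p h1).1
    · rw [List.eq_of_mem_replicate h1]; exact hij
  -- Taylor coefficients of order `m` with `length + m < n` vanish
  have hvan : ∀ (δ : List (ι × ι)), (∀ p ∈ δ, Al i j p) → ∀ m : ℕ, δ.length + m < n →
      ∀ {τ : ℂ}, 0 < τ.im → ∀ ε : ℂ,
      Sv N a j t (fun B ↦ mono δ B * (le N i j B + ε * (fun _ ↦ (0 : ℂ)) B) ^ m) τ = 0 := by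
    intro δ hδ m hm τ hτ ε
    have h1 := Sv_mono_zero_local h hN j t (hes δ m hδ)
      (hv _ (hes δ m hδ) (by rw [List.length_append, List.length_replicate]; exact hm)) hτ
    have h2 := Sv_smul (N := N) (a := a) j t (μ := mono (δ ++ List.replicate m (i, j)))
      ((4 * Real.pi * I / N) ^ m) (τ := τ)
    rw [h1, smul_zero] at h2
    rw [← h2]
    congr 1
    funext B
    rw [mono_append, hrep]
    unfold le
    simp only [mul_zero, add_zero]
    rw [mul_pow]
    ring
  -- a point where the leading coefficient does not vanish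
  obtain ⟨τ, hτ, hτ0⟩ : ∃ τ : ℂ, 0 < τ.im ∧
      Sv N a j t (mono (γ ++ List.replicate c (i, j))) τ ≠ 0 := by
    by_contra hcon
    push Not at hcon
    have ht := mono_tame (ι := ι) (hes γ c hγ)
    have h1 := qs_uniq hN (fun n hn ↦ cq_neg h j t _ n hn) (cq_summ h hN j t ht)
      (fun τ hτ ↦ by rw [← Sv_eq_qs h hN j t ht hτ]; exact hcon τ hτ) (t j)
    rw [cq_mono, Function.update_eq_self] at h1
    exact hne h1
  -- `Fx γ` is not identically zero
  have hFγ : ∃ x, Fx N a i j t τ γ x ≠ 0 := by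
    by_contra hcon
    push Not at hcon
    have h1 := lead_curve h hN j t (mono_tame (Al_off hγ)) (le_lin N hij) (Lin.const 0) hτ c
      (fun m hm ε ↦ hvan γ hγ m (by omega) hτ ε)
    have h2 : Tendsto (fun ε : ℂ ↦ (ε ^ c)⁻¹ • Sv N a j t (fun B ↦ mono γ B *
        Complex.exp (ε * (le N i j B + ε * (fun _ ↦ (0 : ℂ)) B))) τ) (𝓝[≠] 0) (𝓝 0) := by
      refine tendsto_const_nhds.congr fun ε ↦ ?_
      have h3 := hcon ε
      unfold Fx at h3
      simp only [mul_zero, add_zero]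
      rw [h3, smul_zero]
    have h3 := tendsto_nhds_unique h1 h2
    apply hτ0
    have h4 := Sv_smul (N := N) (a := a) j t (μ := mono (γ ++ List.replicate c (i, j)))
      ((4 * Real.pi * I / N) ^ c / c.factorial) (τ := τ)
    have h5 : (fun B ↦ mono γ B * (le N i j B ^ c / c.factorial)) =
        fun B ↦ (4 * Real.pi * I / N) ^ c / c.factorial *
          mono (γ ++ List.replicate c (i, j)) B := by
      funext B
      rw [mono_append, hrep]
      unfold le
      rw [mul_pow]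
      ring
    rw [h5, h4] at h3
    refine (smul_eq_zero.mp h3).resolve_left (div_ne_zero (pow_ne_zero _ hlnz) ?_)
    exact_mod_cast c.factorial_ne_zero
  -- choose the minimal monomial
  classical
  let P : ℕ → Prop := fun s ↦ ∃ δ : List (ι × ι), (∀ p ∈ δ, Al i j p) ∧ δ.length = s ∧
    ∃ x, Fx N a i j t τ δ x ≠ 0
  have hP : ∃ s, P s := ⟨γ.length, γ, hγ, rfl, hFγ⟩
  obtain ⟨s, hs, hsmin⟩ : ∃ s, P s ∧ ∀ s' < s, ¬ P s' :=
    ⟨Nat.find hP, Nat.find_spec hP, fun s' hs' ↦ Nat.find_min hP hs'⟩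
  have hsγ : s ≤ γ.length := by
    by_contra hlt
    push Not at hlt
    exact hsmin _ hlt ⟨γ, hγ, rfl, hFγ⟩
  let Q : ℕ → Prop := fun m ↦ ∃ δ : List (ι × ι), (∀ p ∈ δ, Al i j p) ∧ δ.length = s ∧
    δ.countP (fun p ↦ p.1 = j ∨ p.2 = j) = m ∧ ∃ x, Fx N a i j t τ δ x ≠ 0
  have hQ : ∃ m, Q m := by
    obtain ⟨δ, h1, h2, h3⟩ := hs
    exact ⟨_, δ, h1, h2, rfl, h3⟩
  obtain ⟨m, ⟨δ, hδ, hδs, hδm, y, hy⟩, hmmin⟩ : ∃ m, Q m ∧ ∀ m' < m, ¬ Q m' :=
    ⟨Nat.find hQ, Nat.find_spec hQ, fun m' hm' ↦ Nat.find_min hQ hm'⟩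
  have hkill : ∀ δ' : List (ι × ι), (∀ p ∈ δ', Al i j p) → δ'.length = δ.length →
      δ'.countP (fun p ↦ p.1 = j ∨ p.2 = j) < δ.countP (fun p ↦ p.1 = j ∨ p.2 = j) →
      ∀ x, Fx N a i j t τ δ' x = 0 := by
    intro δ' h1 h2 h3 x
    by_contra hx
    rw [hδm] at h3
    exact hmmin _ h3 ⟨δ', h1, h2.trans hδs, rfl, x, hx⟩
  have hQP : QP τ (2 * (t i : ℝ) / N) 0 (Fx N a i j t τ δ) :=
    ⟨Fx_one h hN hij t hτ hδ, Fx_tau h hN hij t hτ hδ hkill⟩
  have hent : Differentiable ℂ (Fx N a i j t τ δ) :=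
    Sv_entire h hN j t (mono_tame (Al_off hδ)) (le_lin N hij) hτ
  have hlead := lead_curve h hN j t (mono_tame (Al_off hδ)) (le_lin N hij) (Lin.const 0) hτ
    (n - s) (fun m hm ε ↦ hvan δ hδ m (by omega) hτ ε)
  have hO : Fx N a i j t τ δ =O[𝓝[≠] 0] fun z ↦ z ^ (n - s) := by
    set L := Sv N a j t (fun B ↦ mono δ B * (le N i j B ^ (n - s) / (n - s).factorial)) τ
    have h1 : ∀ᶠ ε : ℂ in 𝓝[≠] 0, ‖(ε ^ (n - s))⁻¹ • Sv N a j t (fun B ↦ mono δ B *
        Complex.exp (ε * (le N i j B + ε * (fun _ ↦ (0 : ℂ)) B))) τ‖ < ‖L‖ + 1 :=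
      hlead.norm.eventually_lt_const (by linarith)
    refine IsBigO.of_bound (‖L‖ + 1) ?_
    filter_upwards [h1, self_mem_nhdsWithin] with ε hε hne'
    have hzp : 0 < ‖ε‖ ^ (n - s) := pow_pos (norm_pos_iff.mpr hne') _
    simp only [mul_zero, add_zero] at hε
    rw [norm_smul, norm_inv, norm_pow, inv_mul_lt_iff₀ hzp] at hε
    rw [norm_pow, mul_comm]
    exact hε.le
  by_contra hlt
  push Not at hlt
  have hA : 2 * (t i : ℝ) / N < ((n - s : ℕ) : ℝ) := by
    refine hlt.trans_le ?_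
    have : c ≤ n - s := by omega
    exact_mod_cast this
  exact hy (QP.eq_zero hτ (n - s) hQP hent hA hO y)

lemma exists_mom_diag {N : ℕ} {k : ℝ} {a : Matrix ι ι ℤ → V} (h : IsSiegel N k a)
    {B₀ : Matrix ι ι ℤ} (hB₀ : a B₀ ≠ 0) :
    ∃ es : List (ι × ι), (∀ p ∈ es, p.1 ≠ p.2) ∧ Mom a es (fun j ↦ B₀ j j) ≠ 0 := by
  classical
  by_contra hcon
  push Not at hcon
  set t : ι → ℤ := fun j ↦ B₀ j j with ht
  obtain ⟨F, hFm, hF⟩ := fin_sum h t
  set b₀ : Bd t := ⟨B₀, fun j ↦ rfl⟩ with hb₀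
  have hsep : ∀ B : Bd t, ∃ p : ι × ι, B ≠ b₀ → p.1 ≠ p.2 ∧ B₀ p.1 p.2 ≠ B.1 p.1 p.2 := by
    intro B
    by_cases hB : B = b₀
    · by_cases hne : Nonempty (ι × ι)
      · exact ⟨hne.some, fun hc ↦ absurd hB hc⟩
      · exfalso
        have : IsEmpty ι := by
          by_contra hι
          rw [not_isEmpty_iff] at hι
          exact hne ⟨(hι.some, hι.some)⟩
        -- the empty case: the moment of the empty list is `a B₀`
        have h1 := hcon [] (by simp)
        unfold Mom at h1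
        have h2 : ∀ C : Bd t, C = b₀ := fun C ↦ Subtype.ext (by
          funext j
          exact this.elim j)
        have h3 : ∑' C : Bd t, (List.map (fun p : ι × ι ↦ ((C.1 p.1 p.2 : ℤ) : ℂ)) []).prod • a C.1 =
            a B₀ := by
          rw [tsum_eq_single b₀ (fun C hC ↦ absurd (h2 C) hC)]
          simp [hb₀]
        rw [h3] at h1
        exact hB₀ h1
    · have h1 : ∃ j l, B₀ j l ≠ B.1 j l := by
        by_contra hall
        push Not at hall
        exact hB (Subtype.ext (by funext j l; exact (hall j l).symm))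
      obtain ⟨j, l, hjl⟩ := h1
      refine ⟨(j, l), fun _ ↦ ⟨?_, hjl⟩⟩
      rintro (hjl' : j = l)
      subst hjl'
      exact hjl (B.2 j).symm
  choose p hp using hsep
  set f : Matrix ι ι ℤ → ℂ := fun B ↦ ∏ C ∈ F.erase b₀,
    (((B (p C).1 (p C).2 : ℤ) : ℂ) - ((C.1 (p C).1 (p C).2 : ℤ) : ℂ)) with hf
  have hfm : f ∈ PolyLe ι (F.erase b₀).card := by
    apply prod_mem_poly (F.erase b₀) (fun C B ↦
      ((B (p C).1 (p C).2 : ℤ) : ℂ) - ((C.1 (p C).1 (p C).2 : ℤ) : ℂ))
    intro C hC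
    have h1 := hp C (ne_of_mem_erase hC)
    exact (PolyLe ι 1).sub_mem (edge_mem h1.1) (const_mem _ 1)
  have h1 := sum_poly_zero h t (fun es he ↦ hcon es he) hfm
  rw [hF, sum_eq_single b₀] at h1
  · have h2 : f B₀ ≠ 0 := by
      rw [hf]
      simp only
      rw [prod_ne_zero_iff]
      intro C hC
      have h3 := (hp C (ne_of_mem_erase hC)).2
      rw [sub_ne_zero]
      exact_mod_cast h3
    exact hB₀ ((smul_eq_zero.mp h1).resolve_left h2)
  · intro B hB hne
    have : f B.1 = 0 := prod_eq_zero (mem_erase.mpr ⟨hne, hB⟩) (sub_self _)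
    rw [this, zero_smul]
  · intro hb
    exact absurd (hFm b₀ hB₀) hb

/-- If the average of the restriction to the block away from `i` vanishes in the strong sense that
all moments not involving `i` vanish, then the diagonal entries at `i` are at least `N / 2`. -/
theorem half [CompleteSpace V] {N : ℕ} (hN : 0 < N) {k : ℝ} {a : Matrix ι ι ℤ → V}
    (h : IsSiegel N k a) (i : ι)
    (hav : ∀ es : List (ι × ι), (∀ p ∈ es, p.1 ≠ p.2 ∧ p.1 ≠ i ∧ p.2 ≠ i) →
      ∀ t : ι → ℤ, Mom a es t = 0)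
    {B : Matrix ι ι ℤ} (hB : a B ≠ 0) : (N : ℤ) ≤ 2 * B i i := by
  classical
  have hN' : (0 : ℝ) < N := by exact_mod_cast hN
  obtain ⟨es₀, he₀, ht₀⟩ := exists_mom_diag h hB
  -- the minimal order among the moments with diagonal entry `B i i` at `i`
  let P : ℕ → Prop := fun s ↦ ∃ es : List (ι × ι), (∀ p ∈ es, p.1 ≠ p.2) ∧ es.length = s ∧
    ∃ t : ι → ℤ, t i = B i i ∧ Mom a es t ≠ 0
  have hP : ∃ s, P s := ⟨_, es₀, he₀, rfl, fun l ↦ B l l, rfl, ht₀⟩
  obtain ⟨n, ⟨es, hes, hesn, t, hti, ht⟩, hmin⟩ : ∃ s, P s ∧ ∀ s' < s, ¬ P s' :=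
    ⟨Nat.find hP, Nat.find_spec hP, fun s' hs' ↦ Nat.find_min hP hs'⟩
  obtain ⟨L, O, hL, hLd, hO1, hO, hlen, hmono⟩ := split_list i es hes
  -- some position involves `i`
  have hLne : L ≠ [] := by
    rintro rfl
    apply ht
    rw [Mom_congr h hmono]
    exact hav _ (fun p hp ↦ by
      rw [List.map_nil, List.nil_append] at hp
      exact ⟨hO1 p hp, hO p hp⟩) t
  obtain ⟨j, hjL⟩ := List.exists_mem_of_ne_nil L hLne
  have hj : j ≠ i := hL j hjL
  have hc1 : 1 ≤ L.count j := List.count_pos_iff.mpr hjL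
  have hsp := split_count i j L
  have hAl : ∀ p ∈ (L.filter fun l ↦ l ≠ j).map (fun l ↦ (i, l)) ++ O, Al i j p := by
    intro p hp
    rcases List.mem_append.mp hp with h1 | h1
    · obtain ⟨l, hl, rfl⟩ := List.mem_map.mp h1
      rw [List.mem_filter] at hl
      have hlj : l ≠ j := by simpa using hl.2
      have hli : l ≠ i := hL l hl.1
      refine ⟨hli.symm, ?_, ?_⟩
      · simpa using hlj
      · simp only [ne_eq, Prod.mk.injEq, not_and]
        exact fun hc ↦ absurd hc hj.symm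
    · obtain ⟨h2, h3⟩ := hO p h1
      refine ⟨hO1 p h1, ?_, ?_⟩
      · rintro rfl; exact h2 rfl
      · rintro rfl; exact h3 rfl
  have hst : (L.count j : ℝ) ≤ 2 * (t i : ℝ) / N := by
    refine step2_local h hN (n := n) hj.symm t ?_ hAl (c := L.count j) ?_ ?_
    · intro fs hfs hlt m
      by_contra hne
      exact hmin _ hlt ⟨fs, hfs, rfl, Function.update t j m,
        by rw [Function.update_of_ne hj.symm, hti], hne⟩
    · rw [List.length_append, List.length_map]
      have := hsp.1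
      omega
    · rw [← Mom_congr h (fun B _ ↦ ?_)]
      · rw [Mom_congr h hmono] at ht
        exact ht
      · rw [mono_append, mono_append, mono_append, ← hsp.2 B]
        have : mono (List.replicate (L.count j) (i, j)) B = ((B i j : ℤ) : ℂ) ^ L.count j := by
          simp [mono, List.map_replicate, List.prod_replicate]
        rw [this]
        ring
  have h1 : (1 : ℝ) ≤ L.count j := by exact_mod_cast hc1
  have h2 : (1 : ℝ) ≤ 2 * (t i : ℝ) / N := h1.trans hst
  rw [le_div_iff₀ hN', one_mul, hti] at h2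
  exact_mod_cast h2

end Pool.Agent.Results.MP_386e47_ag.SpecialCycles
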