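import Pool.Agent.Lib.SPX.Defs

/-! Row R4: the Fourier-Jacobi coefficients of a formal Siegel form are formal Jacobi forms
(helper40). -/

namespace Pool.Agent.Results.MP_386e47_ag.SpecialCycles

open Complex Finset MeasureTheory

set_option linter.unusedSectionVars false

section Siegel

variable {ι : Type*} [Fintype ι] [DecidableEq ι]
variable {V : Type*} [NormedAddCommGroup V] [NormedSpace ℂ V]

namespace R4x

lemma mk_ii (i : ι) (n : ℤ) (b : {j // j ≠ i} → ℤ) (S : Matrix {j // j ≠ i} {j // j ≠ i} ℤ) :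
    mk i n b S i i = n := by simp [mk]

lemma mk_ij (i : ι) (n : ℤ) (b : {j // j ≠ i} → ℤ) (S : Matrix {j // j ≠ i} {j // j ≠ i} ℤ)
    (j : {j // j ≠ i}) : mk i n b S i j.1 = b j := by simp [mk, j.2]

lemma mk_ji (i : ι) (n : ℤ) (b : {j // j ≠ i} → ℤ) (S : Matrix {j // j ≠ i} {j // j ≠ i} ℤ)
    (j : {j // j ≠ i}) : mk i n b S j.1 i = b j := by simp [mk, j.2]

lemma mk_jl (i : ι) (n : ℤ) (b : {j // j ≠ i} → ℤ) (S : Matrix {j // j ≠ i} {j // j ≠ i} ℤ)
    (j l : {j // j ≠ i}) : mk i n b S j.1 l.1 = S j l := by simp [mk, j.2, l.2]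

lemma ext_mk (i : ι) {A B : Matrix ι ι ℤ} (h1 : A i i = B i i)
    (h2 : ∀ j : {j // j ≠ i}, A i j.1 = B i j.1) (h3 : ∀ j : {j // j ≠ i}, A j.1 i = B j.1 i)
    (h4 : ∀ j l : {j // j ≠ i}, A j.1 l.1 = B j.1 l.1) : A = B := by
  ext p q
  by_cases hp : p = i
  · subst hp
    by_cases hq : q = p
    · subst hq; exact h1
    · exact h2 ⟨q, hq⟩
  · by_cases hq : q = i
    · subst hq; exact h3 ⟨p, hp⟩
    · exact h4 ⟨p, hp⟩ ⟨q, hq⟩

lemma mk_inj (i : ι) (S : Matrix {j // j ≠ i} {j // j ≠ i} ℤ) {n m : ℤ}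
    {b c : {j // j ≠ i} → ℤ} (h : mk i n b S = mk i m c S) : n = m ∧ b = c := by
  constructor
  · have := congrFun (congrFun h i) i
    rwa [mk_ii, mk_ii] at this
  · ext j
    have := congrFun (congrFun h i) j.1
    rwa [mk_ij, mk_ij] at this

lemma sum_split (i : ι) {M : Type*} [AddCommMonoid M] (f : ι → M) :
    ∑ p, f p = f i + ∑ j : {j // j ≠ i}, f j.1 := Fintype.sum_eq_add_sum_subtype_ne f i

lemma sum_erase' (i : ι) {M : Type*} [AddCommMonoid M] (f : ι → M) :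
    ∑ p ∈ univ.erase i, f p = ∑ j : {j // j ≠ i}, f j.1 := by
  apply Finset.sum_subtype
  intro x
  simp

lemma floor_tendsto (x : ℝ) :
    Filter.Tendsto (fun m : ℕ ↦ ((⌊(m : ℝ) * x⌋ : ℤ) : ℝ) / m) Filter.atTop (nhds x) := by
  have h1 : Filter.Tendsto (fun m : ℕ ↦ x - 1 / (m : ℝ)) Filter.atTop (nhds x) := by
    have := (tendsto_const_nhds (x := x)).sub (tendsto_one_div_atTop_nhds_zero_nat (𝕜 := ℝ))
    simpa using this
  refine tendsto_of_tendsto_of_tendsto_of_le_of_le' h1 tendsto_const_nhds ?_ ?_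
  · filter_upwards [Filter.eventually_gt_atTop 0] with m hm
    have hm' : (0 : ℝ) < m := by exact_mod_cast hm
    rw [le_div_iff₀ hm', sub_mul, div_mul_cancel₀ _ hm'.ne']
    have := Int.sub_one_lt_floor ((m : ℝ) * x)
    linarith
  · filter_upwards [Filter.eventually_gt_atTop 0] with m hm
    have hm' : (0 : ℝ) < m := by exact_mod_cast hm
    rw [div_le_iff₀ hm']
    have := Int.floor_le ((m : ℝ) * x)
    linarith

/-- The quadratic form of `mk i n b S`. -/
lemma quad (i : ι) (n : ℤ) (b : {j // j ≠ i} → ℤ) (S : Matrix {j // j ≠ i} {j // j ≠ i} ℤ)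
    (x : ι → ℤ) : x ⬝ᵥ ((mk i n b S).mulVec x) = n * x i ^ 2 + 2 * x i * (∑ j, b j * x j.1) +
      ∑ j, ∑ l, S j l * x j.1 * x l.1 := by
  unfold dotProduct Matrix.mulVec dotProduct
  rw [sum_split i]
  have h1 : ∑ q, mk i n b S i q * x q = n * x i + ∑ j, b j * x j.1 := by
    rw [sum_split i, mk_ii]
    congr 1
    exact sum_congr rfl fun j _ ↦ by rw [mk_ij]
  have h2 : ∀ j : {j // j ≠ i}, ∑ q, mk i n b S j.1 q * x q = b j * x i + ∑ l, S j l * x l.1 := by
    intro j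
    rw [sum_split i, mk_ji]
    congr 1
    exact sum_congr rfl fun l _ ↦ by rw [mk_jl]
  rw [h1]
  simp only [h2]
  have h3 : ∑ j : {j // j ≠ i}, x j.1 * (b j * x i + ∑ l, S j l * x l.1) =
      x i * (∑ j, b j * x j.1) + ∑ j, ∑ l, S j l * x j.1 * x l.1 := by
    rw [mul_sum, ← sum_add_distrib]
    refine sum_congr rfl fun j _ ↦ ?_
    rw [mul_add, mul_sum]
    congr 1
    · ring
    · exact sum_congr rfl fun l _ ↦ by ring
  rw [h3]
  ring

lemma real_psd (i : ι) (n : ℤ) (b : {j // j ≠ i} → ℤ) (S : Matrix {j // j ≠ i} {j // j ≠ i} ℤ)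
    (h : ∀ x : ι → ℤ, 0 ≤ x ⬝ᵥ ((mk i n b S).mulVec x)) (x : {j // j ≠ i} → ℝ) :
    0 ≤ (n : ℝ) + 2 * ∑ j, (b j : ℝ) * x j + QS S x := by
  set y : ℕ → {j // j ≠ i} → ℝ := fun m j ↦ ((⌊(m : ℝ) * x j⌋ : ℤ) : ℝ) / m with hy
  have hyt : ∀ j, Filter.Tendsto (fun m ↦ y m j) Filter.atTop (nhds (x j)) := fun j ↦
    floor_tendsto (x j)
  have hlim : Filter.Tendsto (fun m ↦ (n : ℝ) + 2 * ∑ j, (b j : ℝ) * y m j + QS S (y m))
      Filter.atTop (nhds ((n : ℝ) + 2 * ∑ j, (b j : ℝ) * x j + QS S x)) := by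
    apply Filter.Tendsto.add
    · apply Filter.Tendsto.add tendsto_const_nhds
      apply Filter.Tendsto.mul tendsto_const_nhds
      exact tendsto_finsetSum _ fun j _ ↦ tendsto_const_nhds.mul (hyt j)
    · unfold QS
      exact tendsto_finsetSum _ fun j _ ↦ tendsto_finsetSum _ fun l _ ↦
        (tendsto_const_nhds.mul (hyt j)).mul (hyt l)
  refine ge_of_tendsto hlim ?_
  filter_upwards [Filter.eventually_gt_atTop 0] with m hm
  have hm' : (0 : ℝ) < m := by exact_mod_cast hm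
  set X : ι → ℤ := fun p ↦ if hp : p = i then (m : ℤ) else ⌊(m : ℝ) * x ⟨p, hp⟩⌋ with hX
  have hXi : X i = m := by simp [hX]
  have hXj : ∀ j : {j // j ≠ i}, X j.1 = ⌊(m : ℝ) * x j⌋ := by
    intro j
    simp [hX, j.2]
  have h1 := h X
  rw [quad, hXi] at h1
  simp only [hXj] at h1
  have h2 : (0 : ℝ) ≤ (n : ℝ) * (m : ℝ) ^ 2 + 2 * m * (∑ j, (b j : ℝ) * (⌊(m : ℝ) * x j⌋ : ℝ)) +
      ∑ j, ∑ l, (S j l : ℝ) * (⌊(m : ℝ) * x j⌋ : ℝ) * (⌊(m : ℝ) * x l⌋ : ℝ) := by
    exact_mod_cast h1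
  have e1 : ∀ j, ((⌊(m : ℝ) * x j⌋ : ℤ) : ℝ) = m * y m j := by
    intro j
    rw [hy]
    simp only
    rw [mul_div_cancel₀ _ hm'.ne']
  simp only [e1] at h2
  have e2 : (n : ℝ) * (m : ℝ) ^ 2 + 2 * m * (∑ j, (b j : ℝ) * (m * y m j)) +
      ∑ j, ∑ l, (S j l : ℝ) * (m * y m j) * (m * y m l) =
      (m : ℝ) ^ 2 * ((n : ℝ) + 2 * ∑ j, (b j : ℝ) * y m j + QS S (y m)) := by
    unfold QS
    rw [mul_add, mul_add]
    congr 1
    · congr 1
      · ring
      · rw [mul_sum, mul_sum, mul_sum]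
        exact sum_congr rfl fun j _ ↦ by ring
    · rw [mul_sum]
      refine sum_congr rfl fun j _ ↦ ?_
      rw [mul_sum]
      exact sum_congr rfl fun l _ ↦ by ring
  rw [e2] at h2
  exact nonneg_of_mul_nonneg_right h2 (by positivity)

/-- The trace of a product with `mk i n b S`. -/
lemma trace_mk (i : ι) (m n : ℤ) (μ b : {j // j ≠ i} → ℤ)
    (S : Matrix {j // j ≠ i} {j // j ≠ i} ℤ) :
    ((mk i m μ 0) * (mk i n b S)).trace = m * n + 2 * ∑ j, b j * μ j := by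
  unfold Matrix.trace
  simp only [Matrix.diag_apply, Matrix.mul_apply]
  rw [sum_split i]
  have h1 : ∑ q, mk i m μ 0 i q * mk i n b S q i = m * n + ∑ j, b j * μ j := by
    rw [sum_split i, mk_ii, mk_ii]
    congr 1
    exact sum_congr rfl fun j _ ↦ by rw [mk_ij, mk_ji]; ring
  have h2 : ∀ j : {j // j ≠ i}, ∑ q, mk i m μ 0 j.1 q * mk i n b S q j.1 = b j * μ j := by
    intro j
    rw [sum_split i, mk_ji, mk_ij]
    have : ∑ l : {j // j ≠ i}, mk i m μ 0 j.1 l.1 * mk i n b S l.1 j.1 = 0 := by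
      apply sum_eq_zero
      intro l _
      rw [mk_jl]
      simp
    rw [this]
    ring
  rw [h1]
  simp only [h2]
  ring

lemma mk_symm (i : ι) (n : ℤ) (b : {j // j ≠ i} → ℤ) {S : Matrix {j // j ≠ i} {j // j ≠ i} ℤ}
    (hS : S.IsSymm) : (mk i n b S).IsSymm := by
  apply ext_mk i
  · rfl
  · intro j; rw [Matrix.transpose_apply, mk_ij, mk_ji]
  · intro j; rw [Matrix.transpose_apply, mk_ij, mk_ji]
  · intro j l
    rw [Matrix.transpose_apply, mk_jl, mk_jl]
    have := congrFun (congrFun hS j) l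
    rwa [Matrix.transpose_apply] at this

/-- The shear. -/
def shr (i : ι) (l : {j // j ≠ i} → ℤ) : Matrix ι ι ℤ := fun p q ↦
  if hq : q = i then (if hp : p = i then 1 else l ⟨p, hp⟩) else (if p = q then 1 else 0)

lemma shr_ii (i : ι) (l : {j // j ≠ i} → ℤ) : shr i l i i = 1 := by simp [shr]

lemma shr_ji (i : ι) (l : {j // j ≠ i} → ℤ) (j : {j // j ≠ i}) : shr i l j.1 i = l j := by
  simp [shr, j.2]

lemma shr_ij (i : ι) (l : {j // j ≠ i} → ℤ) (j : {j // j ≠ i}) : shr i l i j.1 = 0 := by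
  simp [shr, j.2, Ne.symm j.2]

lemma shr_jl (i : ι) (l : {j // j ≠ i} → ℤ) (j m : {j // j ≠ i}) :
    shr i l j.1 m.1 = if j = m then 1 else 0 := by
  simp [shr, m.2, Subtype.ext_iff]

lemma shr_unit (i : ι) (l : {j // j ≠ i} → ℤ) : IsUnit (shr i l).det := by
  apply Matrix.isUnit_det_of_right_inverse (B := shr i (-l))
  apply ext_mk i
  · rw [Matrix.mul_apply, sum_split i, shr_ii, shr_ii, Matrix.one_apply_eq]
    have : ∑ j : {j // j ≠ i}, shr i l i j.1 * shr i (-l) j.1 i = 0 :=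
      sum_eq_zero fun j _ ↦ by rw [shr_ij, zero_mul]
    rw [this]; ring
  · intro m
    rw [Matrix.mul_apply, sum_split i, shr_ij, Matrix.one_apply_ne m.2.symm]
    have : ∑ j : {j // j ≠ i}, shr i l i j.1 * shr i (-l) j.1 m.1 = 0 :=
      sum_eq_zero fun j _ ↦ by rw [shr_ij, zero_mul]
    rw [this]; ring
  · intro m
    rw [Matrix.mul_apply, sum_split i, shr_ji, shr_ii, Matrix.one_apply_ne m.2]
    have : ∑ j : {j // j ≠ i}, shr i l m.1 j.1 * shr i (-l) j.1 i = -l m := by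
      rw [sum_eq_single m]
      · rw [shr_jl, shr_ji, if_pos rfl]; simp
      · intro j _ hj
        rw [shr_jl, if_neg (Ne.symm hj), zero_mul]
      · intro hm; exact absurd (mem_univ _) hm
    rw [this]; ring
  · intro m r
    rw [Matrix.mul_apply, sum_split i, shr_ji, shr_ij]
    have : ∑ j : {j // j ≠ i}, shr i l m.1 j.1 * shr i (-l) j.1 r.1 = if m = r then 1 else 0 := by
      rw [sum_eq_single m]
      · rw [shr_jl, shr_jl, if_pos rfl, one_mul]
      · intro j _ hj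
        rw [shr_jl, if_neg (Ne.symm hj), zero_mul]
      · intro hm; exact absurd (mem_univ _) hm
    rw [this, mul_zero, zero_add, Matrix.one_apply]
    simp only [Subtype.ext_iff]

/-- Conjugation with the shear. -/
lemma shr_conj (i : ι) (n : ℤ) (b l : {j // j ≠ i} → ℤ) {S : Matrix {j // j ≠ i} {j // j ≠ i} ℤ}
    (hS : S.IsSymm) :
    (shr i l).transpose * mk i n b S * shr i l =
      mk i (n + 2 * (b ⬝ᵥ l) + l ⬝ᵥ (S.mulVec l)) (b + S.mulVec l) S := by
  have hSs : ∀ j m, S j m = S m j := by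
    intro j m
    have := congrFun (congrFun hS m) j
    rwa [Matrix.transpose_apply] at this
  -- the product `mk * shr`
  have k1 : (mk i n b S * shr i l) i i = n + ∑ j, b j * l j := by
    rw [Matrix.mul_apply, sum_split i, mk_ii, shr_ii, mul_one]
    congr 1
    exact sum_congr rfl fun j _ ↦ by rw [mk_ij, shr_ji]
  have k2 : ∀ m : {j // j ≠ i}, (mk i n b S * shr i l) i m.1 = b m := by
    intro m
    rw [Matrix.mul_apply, sum_split i, shr_ij, mul_zero, zero_add, sum_eq_single m]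
    · rw [mk_ij, shr_jl, if_pos rfl, mul_one]
    · intro j _ hj
      rw [shr_jl, if_neg hj, mul_zero]
    · intro hm; exact absurd (mem_univ _) hm
  have k3 : ∀ m : {j // j ≠ i}, (mk i n b S * shr i l) m.1 i = b m + ∑ j, S m j * l j := by
    intro m
    rw [Matrix.mul_apply, sum_split i, mk_ji, shr_ii, mul_one]
    congr 1
    exact sum_congr rfl fun j _ ↦ by rw [mk_jl, shr_ji]
  have k4 : ∀ m r : {j // j ≠ i}, (mk i n b S * shr i l) m.1 r.1 = S m r := by
    intro m r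
    rw [Matrix.mul_apply, sum_split i, shr_ij, mul_zero, zero_add, sum_eq_single r]
    · rw [mk_jl, shr_jl, if_pos rfl, mul_one]
    · intro j _ hj
      rw [shr_jl, if_neg hj, mul_zero]
    · intro hm; exact absurd (mem_univ _) hm
  rw [Matrix.mul_assoc]
  set A := mk i n b S * shr i l with hA
  have hmv : ∀ m, S.mulVec l m = ∑ j, S m j * l j := fun m ↦ rfl
  apply ext_mk i
  · rw [Matrix.mul_apply, sum_split i, Matrix.transpose_apply, shr_ii, k1, mk_ii, one_mul]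
    have : ∑ j : {j // j ≠ i}, (shr i l).transpose i j.1 * A j.1 i =
        ∑ j, l j * (b j + ∑ r, S j r * l r) := by
      refine sum_congr rfl fun j _ ↦ ?_
      rw [Matrix.transpose_apply, shr_ji, k3]
    rw [this]
    have e1 : b ⬝ᵥ l = ∑ j, b j * l j := rfl
    have e2 : l ⬝ᵥ (S.mulVec l) = ∑ j, l j * ∑ r, S j r * l r := rfl
    have e3 : ∑ j, l j * (b j + ∑ r, S j r * l r) =
        ∑ j, b j * l j + ∑ j, l j * ∑ r, S j r * l r := by
      rw [← sum_add_distrib]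
      exact sum_congr rfl fun j _ ↦ by ring
    rw [e1, e2, e3]
    ring
  · intro m
    rw [Matrix.mul_apply, sum_split i, Matrix.transpose_apply, shr_ii, k2, mk_ij, one_mul,
      Pi.add_apply, hmv]
    congr 1
    refine sum_congr rfl fun j _ ↦ ?_
    rw [Matrix.transpose_apply, shr_ji, k4, hSs m j]
    ring
  · intro m
    rw [Matrix.mul_apply, sum_split i, Matrix.transpose_apply, shr_ij, zero_mul, zero_add,
      sum_eq_single m, mk_ji, Pi.add_apply, hmv]
    · rw [Matrix.transpose_apply, shr_jl, if_pos rfl, one_mul, k3]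
    · intro j _ hj
      rw [Matrix.transpose_apply, shr_jl, if_neg hj, zero_mul]
    · intro hm; exact absurd (mem_univ _) hm
  · intro m r
    rw [Matrix.mul_apply, sum_split i, Matrix.transpose_apply, shr_ij, zero_mul, zero_add,
      sum_eq_single m, mk_jl]
    · rw [Matrix.transpose_apply, shr_jl, if_pos rfl, one_mul, k4]
    · intro j _ hj
      rw [Matrix.transpose_apply, shr_jl, if_neg hj, zero_mul]
    · intro hm; exact absurd (mem_univ _) hm

/-- The Fourier-Jacobi coefficient as a series over `ℤ × ℤ^J`. -/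
lemma psi_jac {N : ℕ} {k : ℝ} {a : Matrix ι ι ℤ → V}
    (h : IsSiegel N k a) (i : ι) (S : Matrix {j // j ≠ i} {j // j ≠ i} ℤ) (τ : ℂ)
    (z : {j // j ≠ i} → ℂ) :
    psi N a i (mk i 0 0 S) τ (fun p ↦ if hp : p = i then 0 else z ⟨p, hp⟩) =
      jac N (fun n b ↦ a (mk i n b S)) τ z := by
  unfold psi jac
  set g : ℤ × ({j // j ≠ i} → ℤ) →
      {B : Matrix ι ι ℤ // ∀ j l, j ≠ i → l ≠ i → B j l = mk i 0 0 S j l} := fun p ↦
    ⟨mk i p.1 p.2 S, fun j l hj hl ↦ by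
      rw [mk_jl i p.1 p.2 S ⟨j, hj⟩ ⟨l, hl⟩, mk_jl i 0 0 S ⟨j, hj⟩ ⟨l, hl⟩]⟩ with hg
  have hginj : Function.Injective g := by
    intro p p' hpp
    have h1 : mk i p.1 p.2 S = mk i p'.1 p'.2 S := congrArg Subtype.val hpp
    obtain ⟨h2, h3⟩ := mk_inj i S h1
    exact Prod.ext h2 h3
  have hsupp : Function.support (fun B : {B : Matrix ι ι ℤ // ∀ j l, j ≠ i → l ≠ i →
      B j l = mk i 0 0 S j l} ↦ e ((B.1 i i * τ + 2 * ∑ j ∈ univ.erase i, B.1 i j *
        (if hp : j = i then 0 else z ⟨j, hp⟩)) / N) • a B.1) ⊆ Set.range g := by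
    intro B hB
    rw [Function.mem_support] at hB
    have haB : a B.1 ≠ 0 := fun h0 ↦ hB (by rw [h0, smul_zero])
    have hsym := h.symm B.1 haB
    refine ⟨(B.1 i i, fun j ↦ B.1 i j.1), ?_⟩
    apply Subtype.ext
    show mk i (B.1 i i) (fun j ↦ B.1 i j.1) S = B.1
    apply ext_mk i
    · rw [mk_ii]
    · intro j; rw [mk_ij]
    · intro j
      rw [mk_ji]
      have := congrFun (congrFun hsym j.1) i
      rwa [Matrix.transpose_apply] at this
    · intro j l
      rw [mk_jl, B.2 j.1 l.1 j.2 l.2, mk_jl]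
  rw [← hginj.tsum_eq hsupp]
  refine tsum_congr fun p ↦ ?_
  have h1 : ∑ j ∈ univ.erase i, ((mk i p.1 p.2 S i j : ℤ) : ℂ) *
      (if hp : j = i then 0 else z ⟨j, hp⟩) = ∑ j, (p.2 j : ℂ) * z j := by
    rw [sum_erase' i]
    refine sum_congr rfl fun j _ ↦ ?_
    rw [mk_ij, dif_neg j.2]
  show e ((((mk i p.1 p.2 S i i : ℤ) : ℂ) * τ + 2 * ∑ j ∈ univ.erase i,
    ((mk i p.1 p.2 S i j : ℤ) : ℂ) * (if hp : j = i then 0 else z ⟨j, hp⟩)) / N) •
      a (mk i p.1 p.2 S) = _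
  rw [h1, mk_ii]

end R4x

open R4x in
theorem isJac_of_siegel [CompleteSpace V] {N : ℕ} (hN : 0 < N) {k : ℝ} {a : Matrix ι ι ℤ → V}
    (h : IsSiegel N k a) (i : ι) (S : Matrix {j // j ≠ i} {j // j ≠ i} ℤ) (hS : S.IsSymm) :
    IsJac N k S (fun n b ↦ a (mk i n b S)) where
  psd := fun n b hne x ↦ real_psd i n b S (h.psd _ hne) x
  summ := by
    intro δ C hδ
    have hN' : (0 : ℝ) < N := by exact_mod_cast hN
    have hpi := Real.pi_pos
    set t : ι → ℤ := fun p ↦ mk i 0 0 S p p with ht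
    set μ : Matrix ι ι ℤ → ℂ := fun B ↦
      ((Real.exp (C * ∑ j : {j // j ≠ i}, |((B i j.1 : ℤ) : ℝ)|) : ℝ) : ℂ) with hμd
    have hμ : Tame μ := by
      refine ⟨1, |C|, zero_le_one, abs_nonneg _, fun B ↦ ?_⟩
      rw [hμd]
      simp only
      rw [Complex.norm_real, Real.norm_of_nonneg (Real.exp_pos _).le, one_mul, Real.exp_le_exp]
      have h1 : ∑ j : {j // j ≠ i}, |((B i j.1 : ℤ) : ℝ)| ≤ off B := by
        unfold off
        have h2 : ∑ j : {j // j ≠ i}, |((B i j.1 : ℤ) : ℝ)| =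
            ∑ p ∈ (univ : Finset {j // j ≠ i}).map ⟨fun j ↦ (i, j.1), fun j l hjl ↦
              Subtype.ext (Prod.ext_iff.mp hjl).2⟩, |((B p.1 p.2 : ℤ) : ℝ)| := by
          rw [sum_map]
          rfl
        rw [h2]
        apply sum_le_sum_of_subset_of_nonneg
        · intro p hp
          rw [mem_map] at hp
          obtain ⟨j, -, rfl⟩ := hp
          rw [mem_offDiag]
          exact ⟨mem_univ _, mem_univ _, j.2.symm⟩
        · intro _ _ _
          exact abs_nonneg _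
      have h0 : 0 ≤ ∑ j : {j // j ≠ i}, |((B i j.1 : ℤ) : ℝ)| := sum_nonneg fun _ _ ↦ abs_nonneg _
      calc C * ∑ j : {j // j ≠ i}, |((B i j.1 : ℤ) : ℝ)|
          ≤ |C| * ∑ j : {j // j ≠ i}, |((B i j.1 : ℤ) : ℝ)| :=
            mul_le_mul_of_nonneg_right (le_abs_self _) h0
        _ ≤ |C| * off B := mul_le_mul_of_nonneg_left h1 (abs_nonneg _)
    have hv : 0 < δ * N / (2 * Real.pi) := by positivity
    have hs := Pool.Agent.Results.MP_386e47_ag.SpecialCycles.summ h hN i t hμ hv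
    set g : ℤ × ({j // j ≠ i} → ℤ) → Bt i t := fun p ↦
      ⟨mk i p.1 p.2 S, fun j hj ↦ by
        rw [ht]
        simp only
        rw [mk_jl i p.1 p.2 S ⟨j, hj⟩ ⟨j, hj⟩, mk_jl i 0 0 S ⟨j, hj⟩ ⟨j, hj⟩]⟩ with hg
    have hginj : Function.Injective g := by
      intro p p' hpp
      have h1 : mk i p.1 p.2 S = mk i p'.1 p'.2 S := congrArg Subtype.val hpp
      obtain ⟨h2, h3⟩ := mk_inj i S h1
      exact Prod.ext h2 h3
    refine (hs.comp_injective hginj).congr fun p ↦ ?_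
    show Real.exp (-(2 * Real.pi * ((mk i p.1 p.2 S i i : ℤ) : ℝ) * (δ * N / (2 * Real.pi)) / N)) *
      (‖μ (mk i p.1 p.2 S)‖ * ‖a (mk i p.1 p.2 S)‖) = _
    rw [mk_ii, hμd]
    simp only [mk_ij]
    rw [Complex.norm_real, Real.norm_of_nonneg (Real.exp_pos _).le, ← mul_assoc, ← Real.exp_add]
    congr 2
    field_simp
  per := by
    intro μ
    obtain ⟨σ, hσ⟩ := h.trans (mk i 0 μ 0) (mk_symm i 0 μ (by ext; simp))
    refine ⟨σ, fun n b ↦ ?_⟩
    rw [← hσ, trace_mk]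
    congr 3
    push_cast
    ring
  per1 := by
    obtain ⟨σ, hσ⟩ := h.trans (mk i 1 0 0) (mk_symm i 1 0 (by ext; simp))
    refine ⟨σ, fun n b ↦ ?_⟩
    rw [← hσ, trace_mk]
    congr 3
    simp
  quasi := by
    intro l
    obtain ⟨ρ, hρ⟩ := h.gl (shr i l) (shr_unit i l)
    refine ⟨ρ, fun n b ↦ ?_⟩
    rw [← hρ, shr_conj i n b l hS]
  inv := by
    obtain ⟨ρ, hρ⟩ := h.inv i
    refine ⟨ρ, fun τ z hτ ↦ ?_⟩
    have h1 := hρ (mk i 0 0 S) τ (fun p ↦ if hp : p = i then 0 else z ⟨p, hp⟩) hτ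
    have h2 : (fun j ↦ (if hp : j = i then 0 else z ⟨j, hp⟩) / τ) =
        (fun p ↦ if hp : p = i then 0 else (fun j ↦ z j / τ) ⟨p, hp⟩) := by
      ext p
      split_ifs <;> simp
    have h3 := psi_jac h i S (-1 / τ) (fun j ↦ z j / τ)
    have h4 := psi_jac h i S τ z
    rw [h2] at h1
    rw [← h3, ← h4, h1]
    congr 3
    rw [sum_erase' i]
    congr 1
    refine sum_congr rfl fun j _ ↦ ?_
    rw [sum_erase' i]
    refine sum_congr rfl fun l _ ↦ ?_
    rw [mk_jl, dif_neg j.2, dif_neg l.2]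

end Siegel

end Pool.Agent.Results.MP_386e47_ag.SpecialCycles
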