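import Pool.Agent.Lib.SPX.R1
import Pool.Agent.Lib.SPX.R2
import Pool.Agent.Lib.SPX.R3
import Pool.Agent.Lib.SPX.R4
import Pool.Agent.Lib.SPX.J6
import Pool.Agent.Lib.SPX.L2
import Pool.Agent.Lib.SPX.L3
import Pool.Agent.Lib.SPX.L4

/-! The main theorem in all degrees (helper75). -/

namespace Pool.Agent.Results.MP_386e47_ag.SpecialCycles

open Complex Finset MeasureTheory

universe u v

section Main

variable {ι : Type u} [Fintype ι] [DecidableEq ι]
variable {V : Type v} [NormedAddCommGroup V] [InnerProductSpace ℂ V] [CompleteSpace V]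

lemma mk_ii (i : ι) (n : ℤ) (b : {j // j ≠ i} → ℤ) (S : Matrix {j // j ≠ i} {j // j ≠ i} ℤ) :
    mk i n b S i i = n := by simp [mk]

lemma mk_ip (i : ι) (n : ℤ) (b : {j // j ≠ i} → ℤ) (S : Matrix {j // j ≠ i} {j // j ≠ i} ℤ)
    (p : {j // j ≠ i}) : mk i n b S i p.1 = b p := by simp [mk, p.2]

lemma mk_pi (i : ι) (n : ℤ) (b : {j // j ≠ i} → ℤ) (S : Matrix {j // j ≠ i} {j // j ≠ i} ℤ)
    (p : {j // j ≠ i}) : mk i n b S p.1 i = b p := by simp [mk, p.2]

lemma mk_pq (i : ι) (n : ℤ) (b : {j // j ≠ i} → ℤ) (S : Matrix {j // j ≠ i} {j // j ≠ i} ℤ)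
    (p q : {j // j ≠ i}) : mk i n b S p.1 q.1 = S p q := by simp [mk, p.2, q.2]

lemma mk_self (i : ι) {B : Matrix ι ι ℤ} (hB : B.IsSymm) :
    mk i (B i i) (fun p ↦ B i p.1) (blk i B) = B := by
  ext p q
  by_cases hp : p = i
  · subst hp
    by_cases hq : q = p
    · subst hq; simp [mk]
    · simp [mk, hq]
  · by_cases hq : q = i
    · subst hq
      have := hB.apply p q
      simp [mk, hp, this]
    · simp [mk, hp, hq, blk]

/-- The quadratic form of a matrix on the whole index set. -/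
lemma QS_mk (i : ι) (n : ℤ) (b : {j // j ≠ i} → ℤ) (S : Matrix {j // j ≠ i} {j // j ≠ i} ℤ)
    (x : ι → ℝ) : QS (mk i n b S) x =
      (n : ℝ) * x i ^ 2 + 2 * x i * ∑ p, (b p : ℝ) * x p.1 + QS S fun p ↦ x p.1 := by
  unfold QS
  rw [Fintype.sum_eq_add_sum_subtype_ne _ i, Fintype.sum_eq_add_sum_subtype_ne _ i]
  simp only [Fintype.sum_eq_add_sum_subtype_ne _ i, mk_ii, mk_ip, mk_pi, mk_pq]
  rw [sum_add_distrib, mul_sum]
  have h1 : ∀ f g : {j // j ≠ i} → ℝ, (∀ p, f p = g p) → ∑ p, f p = ∑ p, g p :=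
    fun f g h ↦ sum_congr rfl fun p _ ↦ h p
  have h2 : ∑ p : {j // j ≠ i}, (b p : ℝ) * x i * x p.1 + ∑ p : {j // j ≠ i}, (b p : ℝ) * x p.1 * x i =
      ∑ p : {j // j ≠ i}, 2 * x i * ((b p : ℝ) * x p.1) := by
    rw [← sum_add_distrib]
    exact h1 _ _ fun p ↦ by ring
  rw [← h2]
  ring

lemma QS_submatrix {κ : Type*} [Fintype κ] [DecidableEq κ] (e : ι ≃ κ) (B : Matrix κ κ ℤ)
    (x : κ → ℝ) : QS (B.submatrix e e) (fun i ↦ x (e i)) = QS B x := by
  unfold QS
  rw [← e.sum_comp]
  refine sum_congr rfl fun i _ ↦ ?_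
  rw [← e.sum_comp]
  rfl

omit [Fintype ι] [DecidableEq ι] in
lemma kap_pos (n : ℕ) : 0 < kap n := by
  induction n using Nat.twoStepInduction with
  | zero => norm_num [kap]
  | one => norm_num [kap]
  | more m h1 h2 => rw [kap]; linarith

theorem mainX_aux (g : ℕ) : ∀ {ι : Type u} [Fintype ι] [DecidableEq ι], Fintype.card ι = g →
    ∀ {N : ℕ}, 0 < N → ∀ {k : ℝ}, (k < 9 / 2 ∨ (g ≤ 3 ∧ k < 5)) →
    ∀ {a : Matrix ι ι ℤ → V}, IsSiegel N k a →
    (∀ t : ι → ℤ, Mom a [] t = 0) → ∀ B, a B = 0 := by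
  induction g with
  | zero =>
    intro ι _ _ hcard N hN k hk a h hv B
    have hemp : IsEmpty ι := Fintype.card_eq_zero_iff.mp hcard
    have h1 := hv (fun _ ↦ 0)
    unfold Mom at h1
    have hsub : ∀ B' : Matrix ι ι ℤ, B' = B := fun B' ↦ by
      ext j
      exact hemp.elim j
    have h2 : ∑' B' : {B : Matrix ι ι ℤ // ∀ j, B j j = (fun _ ↦ (0 : ℤ)) j},
        (([] : List (ι × ι)).map fun p ↦ ((B'.1 p.1 p.2 : ℤ) : ℂ)).prod • a B'.1 = a B := by
      rw [tsum_eq_single ⟨B, fun j ↦ hemp.elim j⟩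
        (fun B' hB' ↦ absurd (Subtype.ext (hsub B'.1)) hB')]
      simp
    rw [← h2]
    exact h1
  | succ n ih =>
    intro ι _ _ hcard N hN k hk a h hv
    by_contra hcon
    push Not at hcon
    obtain ⟨B₀, hB₀⟩ := hcon
    have hNr : (0 : ℝ) < N := by exact_mod_cast hN
    have hcard' : ∀ i : ι, Fintype.card {j // j ≠ i} = n := by
      intro i
      rw [Fintype.card_subtype_compl, Fintype.card_subtype_eq, hcard]
      omega
    have hres : ∀ (i : ι) (m : ℤ) (B' : Matrix {j // j ≠ i} {j // j ≠ i} ℤ),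
        res a i m B' = 0 := fun i m ↦
      ih (hcard' i) hN (hk.imp_right fun h1 ↦ ⟨by omega, h1.2⟩) (res_siegel hN h i m)
        (mom_nil_res h i m hv)
    have hhalf : ∀ (i : ι) {B : Matrix ι ι ℤ}, a B ≠ 0 → (N : ℤ) ≤ 2 * B i i := fun i B hB ↦
      half hN h i (fun es hes t ↦ mom_avoid h i (hres i) hes t) hB
    let ε : ι ≃ Fin (n + 1) := Fintype.equivFinOfCardEq hcard
    let X : Set (Matrix (Fin (n + 1)) (Fin (n + 1)) ℤ) := {B | a (B.submatrix ε ε) ≠ 0}
    have hback : ∀ B : Matrix ι ι ℤ, (B.submatrix ε.symm ε.symm).submatrix ε ε = B := by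
      intro B
      ext p q
      simp
    have hne : X.Nonempty := ⟨B₀.submatrix ε.symm ε.symm, by
      change a ((B₀.submatrix ε.symm ε.symm).submatrix ε ε) ≠ 0
      rw [hback]
      exact hB₀⟩
    have hs : ∀ B ∈ X, B.IsSymm := by
      intro B hB
      have h1 := h.symm _ hB
      ext p q
      have h2 := h1.apply (ε.symm p) (ε.symm q)
      simpa using h2
    have hdiag : ∀ B ∈ X, (N : ℤ) ≤ 2 * B 0 0 := by
      intro B hB
      have h1 := hhalf (ε.symm 0) hB
      simpa using h1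
    have hpos : ∀ B ∈ X, 0 < B 0 0 := by
      intro B hB
      have h1 := hdiag B hB
      have h2 : (0 : ℤ) < N := by exact_mod_cast hN
      omega
    have hgl : ∀ B ∈ X, ∀ U : Matrix (Fin (n + 1)) (Fin (n + 1)) ℤ, IsUnit U.det →
        U.transpose * B * U ∈ X := by
      intro B hB U hU
      obtain ⟨ρ, hρ⟩ := h.gl (U.submatrix ε ε) (by
        rw [Matrix.det_submatrix_equiv_self]
        exact hU)
      change a ((U.transpose * B * U).submatrix ε ε) ≠ 0
      have h1 : (U.transpose * B * U).submatrix ε ε =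
          (U.submatrix ε ε).transpose * B.submatrix ε ε * U.submatrix ε ε := by
        rw [Matrix.transpose_submatrix, Matrix.submatrix_mul_equiv, Matrix.submatrix_mul_equiv]
      rw [h1, hρ]
      intro h2
      exact hB ((map_eq_zero_iff ρ ρ.injective).mp h2)
    obtain ⟨B, hB, hBk⟩ := lat_min n X hne hs hpos hgl (N * (k - n / 2) / 12) (by
      intro B hB
      set i : ι := ε.symm (Fin.last n) with hi
      set B' : Matrix ι ι ℤ := B.submatrix ε ε with hB'
      have hB's : B'.IsSymm := h.symm _ hB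
      set S := blk i B' with hS
      have hSs : S.IsSymm := by
        ext p q
        exact hB's.apply p.1 q.1
      have hBmk : mk i (B' i i) (fun p ↦ B' i p.1) S = B' := mk_self i hB's
      have hpd : ∀ x : {j // j ≠ i} → ℝ, x ≠ 0 → 0 < QS S x := by
        intro x hx
        set y : ι → ℝ := fun p ↦ if hp : p = i then 0 else x ⟨p, hp⟩ with hy
        have hyx : (fun p : {j // j ≠ i} ↦ y p.1) = x := by
          funext p
          simp [hy, p.2]
        have hyi : y i = 0 := by simp [hy]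
        have h1 : QS B' y = QS S x := by
          rw [← hBmk, QS_mk, hyx, hyi]
          ring
        rw [← h1]
        have h2 := QS_submatrix ε B (fun q ↦ y (ε.symm q))
        simp only [Equiv.symm_apply_apply] at h2
        rw [hB', h2]
        refine lat_pd n X hs hpos hgl hB ?_
        intro h3
        apply hx
        rw [← hyx]
        funext p
        have h4 := congrFun h3 (ε p.1)
        simpa using h4
      have hJ := isJac_of_siegel hN h i S hSs
      obtain ⟨m, b, hmb, x, hx⟩ := schur hN hSs hpd hJ (n₀ := B' i i) (b₀ := fun p ↦ B' i p.1) (by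
        change a (mk i (B' i i) (fun p ↦ B' i p.1) S) ≠ 0
        rw [hBmk]
        exact hB)
      refine ⟨(mk i m b S).submatrix ε.symm ε.symm, ?_, ?_, ?_⟩
      · change a (((mk i m b S).submatrix ε.symm ε.symm).submatrix ε ε) ≠ 0
        rw [hback]
        exact hmb
      · intro j l hj hl
        have hj' : ε.symm j ≠ i := fun h1 ↦ hj (ε.symm.injective h1)
        have hl' : ε.symm l ≠ i := fun h1 ↦ hl (ε.symm.injective h1)
        rw [Matrix.submatrix_apply, mk_pq i m b S ⟨_, hj'⟩ ⟨_, hl'⟩, hS]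
        simp [blk, hB']
      · set y : ι → ℝ := fun p ↦ if hp : p = i then 1 else x ⟨p, hp⟩ with hy
        have hyx : (fun p : {j // j ≠ i} ↦ y p.1) = x := by
          funext p
          simp [hy, p.2]
        have hyi : y i = 1 := by simp [hy]
        refine ⟨fun q ↦ y (ε.symm q), hyi, ?_⟩
        have h2 := QS_submatrix ε ((mk i m b S).submatrix ε.symm ε.symm) (fun q ↦ y (ε.symm q))
        simp only [Equiv.symm_apply_apply] at h2
        rw [← h2, hback, QS_mk, hyi, hyx]
        have h3 : ∑ p : {j // j ≠ i}, (b p : ℝ) * y p.1 = ∑ p, (b p : ℝ) * x p := by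
          refine sum_congr rfl fun p _ ↦ ?_
          rw [← hyx]
        rw [h3]
        rw [hcard'] at hx
        linarith)
    have h1 := hdiag B hB
    have h2 : (N : ℝ) ≤ 2 * (B 0 0 : ℝ) := by exact_mod_cast h1
    have h3 := kap_ineq n
    have hkap : 0 < kap n := kap_pos n
    have h4 : kap n * N ≤ 2 * (N * (k - n / 2) / 12) := by nlinarith
    have h5 : 6 * kap n ≤ k - n / 2 := by
      have h6 : N * (6 * kap n) ≤ N * (k - n / 2) := by linarith
      exact le_of_mul_le_mul_left h6 hNr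
    rcases hk with hk | ⟨hn, hk⟩
    · linarith
    · have h7 : (5 : ℝ) ≤ 6 * kap n + n / 2 := by
        have h8 : n = 0 ∨ n = 1 ∨ n = 2 := by omega
        rcases h8 with rfl | rfl | rfl <;> norm_num [kap]
      linarith

end Main

/-- **Theorem.** A formal Siegel modular form of any degree and of weight `k < 9/2` (`k < 5` if the
degree is at most `3`) is zero if its moments of order `0` with diagonal at most `k N / 12`
vanish. -/
theorem mainX {ι : Type u} [Fintype ι] [DecidableEq ι]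
    {V : Type v} [NormedAddCommGroup V] [InnerProductSpace ℂ V] [CompleteSpace V]
    {N : ℕ} (hN : 0 < N) {k : ℝ} (hk : k < 9 / 2 ∨ (Fintype.card ι ≤ 3 ∧ k < 5))
    {a : Matrix ι ι ℤ → V} (h : IsSiegel N k a)
    (hv : ∀ t : ι → ℤ, (∀ i, 12 * (t i : ℝ) ≤ k * N) → Mom a [] t = 0) : ∀ B, a B = 0 :=
  mainX_aux _ rfl hN hk h (small_diag hN h hv)

end Pool.Agent.Results.MP_386e47_ag.SpecialCycles
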