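import Pool.Agent.Lib.SPX.Defs

/-! Formal Jacobi forms of lattice index: Parseval's formula in the real variable (row J1). -/

namespace Pool.Agent.Results.MP_386e47_ag.SpecialCycles

open Complex Finset MeasureTheory

set_option linter.unusedSectionVars false
set_option linter.unusedSimpArgs false

namespace J1

open scoped InnerProductSpace

variable {J : Type*} [Fintype J] [DecidableEq J]
variable {V : Type*} [NormedAddCommGroup V] [InnerProductSpace ℂ V] [CompleteSpace V]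

/-- The pairing `∑ b_j β_j`, as a complex number. -/
noncomputable def dp (b : J → ℤ) (β : J → ℝ) : ℂ := ∑ j, (b j : ℂ) * (β j : ℂ)

lemma dp_real (b : J → ℤ) (β : J → ℝ) : dp b β = ((∑ j, (b j : ℝ) * β j : ℝ) : ℂ) := by
  unfold dp; push_cast; rfl

lemma dp_cont (b : J → ℤ) : Continuous (dp b) := by
  unfold dp; fun_prop

lemma norm_e_real (x : ℝ) : ‖e (x : ℂ)‖ = 1 := by
  rw [norm_e]; simp

lemma norm_e_dp (N : ℕ) (b : J → ℤ) (β : J → ℝ) : ‖e (2 * dp b β / N)‖ = 1 := by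
  rw [dp_real]
  have : (2 * ((∑ j, (b j : ℝ) * β j : ℝ) : ℂ) / N) =
      ((2 * (∑ j, (b j : ℝ) * β j) / N : ℝ) : ℂ) := by push_cast; rfl
  rw [this, norm_e_real]

lemma conj_e_real (x : ℝ) : (starRingEnd ℂ) (e (x : ℂ)) = e (-(x : ℂ)) := by
  unfold e
  rw [← Complex.exp_conj]
  congr 1
  simp only [map_mul, Complex.conj_I, Complex.conj_ofReal, map_ofNat]
  ring

lemma measurableSet_cube : MeasurableSet (cube J) :=
  MeasurableSet.univ_pi fun _ ↦ measurableSet_Ico

lemma volume_cube : volume (cube J) = 1 := by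
  unfold cube
  rw [volume_pi, Measure.pi_pi]
  simp

instance : IsProbabilityMeasure (volume.restrict (cube J)) :=
  ⟨by rw [Measure.restrict_apply_univ, volume_cube]⟩

lemma restrict_cube : (volume : Measure (J → ℝ)).restrict (cube J) =
    Measure.pi fun _ : J ↦ (volume : Measure ℝ).restrict (Set.Ico 0 1) := by
  unfold cube
  rw [volume_pi, Measure.restrict_pi_pi]

/-- The characters of the cube. -/
lemma integral_char (N : ℕ) (m : J → ℤ) {j : J} (hN : 0 < N) (hj : m j ≠ 0)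
    (h1 : e (2 * (m j : ℂ) / N) = 1) :
    ∫ β in cube J, e (2 * dp m β / N) = 0 := by
  have hprod : ∀ β : J → ℝ, e (2 * dp m β / N) = ∏ i, e (2 * (m i : ℂ) / N * (β i : ℂ)) := by
    intro β
    unfold dp e
    rw [← Complex.exp_sum]
    congr 1
    rw [← Finset.mul_sum, Finset.mul_sum, Finset.sum_div]
    congr 1
    refine Finset.sum_congr rfl fun i _ ↦ ?_
    ring
  simp_rw [hprod]
  rw [restrict_cube, integral_fintype_prod_eq_prod (f := fun i (x : ℝ) ↦ e (2 * (m i : ℂ) / N * (x : ℂ)))]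
  refine Finset.prod_eq_zero (Finset.mem_univ j) ?_
  rw [MeasureTheory.integral_Ico_eq_integral_Ioc, ← intervalIntegral.integral_of_le zero_le_one]
  have hc : (2 * Real.pi * Complex.I * (2 * (m j : ℂ) / N) : ℂ) ≠ 0 := by
    have hN' : (N : ℂ) ≠ 0 := by exact_mod_cast hN.ne'
    have hm : (m j : ℂ) ≠ 0 := by exact_mod_cast hj
    exact mul_ne_zero Complex.two_pi_I_ne_zero (div_ne_zero (mul_ne_zero two_ne_zero hm) hN')
  have : ∀ x : ℝ, e (2 * (m j : ℂ) / N * (x : ℂ)) =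
      Complex.exp ((2 * Real.pi * Complex.I * (2 * (m j : ℂ) / N)) * x) := by
    intro x; unfold e; congr 1; ring
  simp_rw [this]
  rw [integral_exp_mul_complex hc]
  unfold e at h1
  simp [h1]

/-- Parseval. -/
theorem parseval {N : ℕ} (hN : 0 < N) (d : (J → ℤ) → V) (hd : Summable fun b ↦ ‖d b‖)
    (ho : ∀ b b' : J → ℤ, ∀ j, e (2 * ((b' j : ℂ) - b j) / N) ≠ 1 → ⟪d b, d b'⟫_ℂ = 0) :
    ∫⁻ β in cube J, ENNReal.ofReal (‖∑' b, e (2 * dp b β / N) • d b‖ ^ 2) =
      ∑' b, ENNReal.ofReal (‖d b‖ ^ 2) := by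
  set F : (J → ℤ) × (J → ℤ) → (J → ℝ) → ℂ := fun p β ↦
    ⟪e (2 * dp p.2 β / N) • d p.2, e (2 * dp p.1 β / N) • d p.1⟫_ℂ with hF
  have hFn : ∀ p β, ‖F p β‖ ≤ ‖d p.1‖ * ‖d p.2‖ := by
    intro p β
    refine (norm_inner_le_norm _ _).trans ?_
    rw [norm_smul, norm_smul, norm_e_dp, norm_e_dp, one_mul, one_mul, mul_comm]
  have hdd : Summable fun p : (J → ℤ) × (J → ℤ) ↦ ‖d p.1‖ * ‖d p.2‖ :=
    hd.mul_of_nonneg hd (fun _ ↦ norm_nonneg _) (fun _ ↦ norm_nonneg _)
  have hFc : ∀ p, Continuous (F p) := by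
    intro p
    have h1 : ∀ b : J → ℤ, Continuous fun β ↦ e (2 * dp b β / N) • d b := by
      intro b
      refine Continuous.smul ?_ continuous_const
      refine e_diff.continuous.comp ?_
      have := dp_cont b
      fun_prop
    exact (h1 _).inner (h1 _)
  have hFi : ∀ p, Integrable (F p) (volume.restrict (cube J)) := by
    intro p
    refine Integrable.mono' (integrable_const (‖d p.1‖ * ‖d p.2‖))
      (hFc p).aestronglyMeasurable (Filter.Eventually.of_forall fun β ↦ hFn p β)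
  have hFs : Summable fun p ↦ ∫ β in cube J, ‖F p β‖ := by
    refine Summable.of_nonneg_of_le (fun p ↦ integral_nonneg fun _ ↦ norm_nonneg _) (fun p ↦ ?_) hdd
    calc ∫ β in cube J, ‖F p β‖ ≤ ∫ β in cube J, ‖d p.1‖ * ‖d p.2‖ :=
          integral_mono (hFi p).norm (integrable_const _) fun β ↦ hFn p β
      _ = ‖d p.1‖ * ‖d p.2‖ := by simp
  have hsum := hasSum_integral_of_summable_integral_norm hFi hFs
  -- the integrand
  have hS : ∀ β, Summable fun b ↦ e (2 * dp b β / N) • d b := by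
    intro β
    refine Summable.of_norm_bounded hd fun b ↦ ?_
    rw [norm_smul, norm_e_dp, one_mul]
  have hint : ∀ β, ∑' p, F p β = ((‖∑' b, e (2 * dp b β / N) • d b‖ ^ 2 : ℝ) : ℂ) := by
    intro β
    have h1 : Summable fun p ↦ F p β := Summable.of_norm_bounded hdd fun p ↦ hFn p β
    rw [h1.tsum_prod]
    have h2 : ∀ b : J → ℤ, ∑' c, F (b, c) β =
        ⟪∑' c, e (2 * dp c β / N) • d c, e (2 * dp b β / N) • d b⟫_ℂ := by
      intro b
      have := ((innerSL ℂ (E := V)).flip (e (2 * dp b β / N) • d b)).map_tsum (hS β)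
      simp only [ContinuousLinearMap.flip_apply, innerSL_apply_apply] at this
      exact this.symm
    simp_rw [h2]
    have h3 := (innerSL ℂ (∑' c, e (2 * dp c β / N) • d c)).map_tsum (hS β)
    simp only [innerSL_apply_apply] at h3
    rw [← h3, inner_self_eq_norm_sq_to_K]
    push_cast
    rfl
  -- the integrals of the terms
  have hterm : ∀ p, ∫ β in cube J, F p β = if p.1 = p.2 then ((‖d p.1‖ ^ 2 : ℝ) : ℂ) else 0 := by
    intro p
    have hFp : ∀ β, F p β = e (2 * dp (p.1 - p.2) β / N) * ⟪d p.2, d p.1⟫_ℂ := by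
      intro β
      simp only [hF]
      rw [inner_smul_left, inner_smul_right, ← mul_assoc]
      congr 1
      rw [dp_real p.2]
      have : (2 * ((∑ j, (p.2 j : ℝ) * β j : ℝ) : ℂ) / N) =
        ((2 * (∑ j, (p.2 j : ℝ) * β j) / N : ℝ) : ℂ) := by push_cast; rfl
      rw [this, conj_e_real, ← e_add]
      congr 1
      have h5 : dp (p.1 - p.2) β = dp p.1 β - dp p.2 β := by
        unfold dp
        rw [← Finset.sum_sub_distrib]
        refine Finset.sum_congr rfl fun i _ ↦ ?_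
        simp only [Pi.sub_apply]
        push_cast; ring
      rw [h5, dp_real p.2]
      push_cast; ring
    simp_rw [hFp]
    rw [integral_mul_const]
    by_cases hp : p.1 = p.2
    · rw [if_pos hp, hp, sub_self]
      have h0 : ∀ β : J → ℝ, dp (0 : J → ℤ) β = 0 := by intro β; simp [dp]
      simp_rw [h0]
      simp only [mul_zero, zero_div, e_zero]
      rw [inner_self_eq_norm_sq_to_K]
      simp
    · rw [if_neg hp]
      obtain ⟨j, hj⟩ := Function.ne_iff.1 hp
      by_cases hall : ∀ i, e (2 * (((p.1 - p.2) i : ℤ) : ℂ) / N) = 1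
      · rw [integral_char N (p.1 - p.2) (j := j) hN (by simpa [sub_eq_zero] using hj) (hall j), zero_mul]
      · push Not at hall
        obtain ⟨i, hi⟩ := hall
        rw [ho p.2 p.1 i ?_, mul_zero]
        simpa using hi
  have hreal : ∫ β in cube J, (‖∑' b, e (2 * dp b β / N) • d b‖ ^ 2 : ℝ) = ∑' b, ‖d b‖ ^ 2 := by
    have h1 : ∫ β in cube J, ((‖∑' b, e (2 * dp b β / N) • d b‖ ^ 2 : ℝ) : ℂ) =
        ∑' b, ((‖d b‖ ^ 2 : ℝ) : ℂ) := by
      simp_rw [← hint]
      rw [← hsum.tsum_eq]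
      simp_rw [hterm]
      have hs2 : Summable fun p : (J → ℤ) × (J → ℤ) ↦
          if p.1 = p.2 then ((‖d p.1‖ ^ 2 : ℝ) : ℂ) else 0 := by
        have := hsum.summable
        simp_rw [hterm] at this
        exact this
      rw [hs2.tsum_prod]
      refine tsum_congr fun b ↦ ?_
      rw [tsum_eq_single b]
      · simp
      · intro c hc
        simp [Ne.symm hc]
    rw [integral_complex_ofReal, ← Complex.ofReal_tsum] at h1
    exact_mod_cast h1
  have hmeas : Continuous fun β : J → ℝ ↦ ∑' b, e (2 * dp b β / N) • d b := by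
    refine continuous_tsum (fun b ↦ ?_) hd (fun b β ↦ ?_)
    · refine Continuous.smul ?_ continuous_const
      refine e_diff.continuous.comp ?_
      have := dp_cont b
      fun_prop
    · rw [norm_smul, norm_e_dp, one_mul]
  have hbound : ∀ β : J → ℝ, ‖∑' b, e (2 * dp b β / N) • d b‖ ≤ ∑' b, ‖d b‖ := by
    intro β
    refine (norm_tsum_le_tsum_norm ?_).trans (le_of_eq ?_)
    · refine hd.congr fun b ↦ ?_
      rw [norm_smul, norm_e_dp, one_mul]
    · refine tsum_congr fun b ↦ ?_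
      rw [norm_smul, norm_e_dp, one_mul]
  have hInt : Integrable (fun β : J → ℝ ↦ (‖∑' b, e (2 * dp b β / N) • d b‖ ^ 2 : ℝ))
      (volume.restrict (cube J)) := by
    refine Integrable.mono' (integrable_const ((∑' b, ‖d b‖) ^ 2))
      (hmeas.norm.pow 2).aestronglyMeasurable (Filter.Eventually.of_forall fun β ↦ ?_)
    rw [Real.norm_of_nonneg (by positivity)]
    have := hbound β
    gcongr
  rw [← ofReal_integral_eq_lintegral_ofReal hInt (Filter.Eventually.of_forall fun β ↦ by positivity),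
    hreal, ENNReal.ofReal_tsum_of_nonneg (fun b ↦ by positivity)]
  have : Summable fun b ↦ ‖d b‖ ^ 2 := by
    have := hdd.comp_injective (i := fun b : J → ℤ ↦ (b, b)) (fun a b h ↦ (Prod.ext_iff.1 h).1)
    refine this.congr fun b ↦ ?_
    simp [pow_two]
  exact this

end J1

section Jacobi

open J1

open scoped InnerProductSpace

variable {J : Type*} [Fintype J] [DecidableEq J]
variable {V : Type*} [NormedAddCommGroup V] [InnerProductSpace ℂ V] [CompleteSpace V]

/-- `S` is invertible over the reals. -/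
lemma J1.det_ne {S : Matrix J J ℤ} (hpd : ∀ x : J → ℝ, x ≠ 0 → 0 < QS S x) :
    IsUnit (S.map (fun x : ℤ ↦ (x : ℝ))).det := by
  rw [isUnit_iff_ne_zero]
  intro h0
  obtain ⟨x, hx, hx0⟩ := Matrix.exists_mulVec_eq_zero_iff.2 h0
  have h1 := hpd x hx
  have h2 : QS S x = x ⬝ᵥ (S.map (fun x : ℤ ↦ (x : ℝ))).mulVec x := by
    simp only [QS, dotProduct, Matrix.mulVec, Matrix.map_apply, Finset.mul_sum]
    refine Finset.sum_congr rfl fun i _ ↦ Finset.sum_congr rfl fun j _ ↦ by ring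
  rw [h2, hx0] at h1
  simp at h1

/-- `S (S⁻¹ b) = b`. -/
lemma J1.mul_sv {S : Matrix J J ℤ} (hpd : ∀ x : J → ℝ, x ≠ 0 → 0 < QS S x) (b : J → ℤ) (j : J) :
    ∑ l, (S j l : ℝ) * sv S b l = b j := by
  have h1 : (S.map (fun x : ℤ ↦ (x : ℝ))).mulVec (sv S b) = fun j ↦ (b j : ℝ) := by
    unfold sv
    rw [Matrix.mulVec_mulVec, Matrix.mul_nonsing_inv _ (J1.det_ne hpd), Matrix.one_mulVec]
  have := congrFun h1 j
  simpa [Matrix.mulVec, dotProduct] using this

/-- Completing the square. -/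
lemma J1.QS_add {S : Matrix J J ℤ} (hS : S.IsSymm) (hpd : ∀ x : J → ℝ, x ≠ 0 → 0 < QS S x)
    (b : J → ℤ) (α : J → ℝ) :
    QS S (α + sv S b) = QS S α + 2 * ∑ j, (b j : ℝ) * α j + sq S b := by
  have h1 : ∀ x y : J → ℝ, QS S (x + y) = QS S x + 2 * ∑ j, x j * ∑ l, (S j l : ℝ) * y l +
      ∑ j, y j * ∑ l, (S j l : ℝ) * y l := by
    intro x y
    have h2 : ∑ j, ∑ l, (S j l : ℝ) * y j * x l = ∑ j, ∑ l, (S j l : ℝ) * x j * y l := by
      rw [Finset.sum_comm]
      refine Finset.sum_congr rfl fun i _ ↦ Finset.sum_congr rfl fun j _ ↦ ?_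
      rw [hS.apply]; ring
    have h3 : QS S (x + y) = QS S x + ∑ j, ∑ l, (S j l : ℝ) * x j * y l +
        ∑ j, ∑ l, (S j l : ℝ) * y j * x l + ∑ j, ∑ l, (S j l : ℝ) * y j * y l := by
      simp only [QS, ← Finset.sum_add_distrib]
      refine Finset.sum_congr rfl fun i _ ↦ Finset.sum_congr rfl fun j _ ↦ ?_
      simp only [Pi.add_apply]; ring
    rw [h3, h2]
    have h4 : ∀ x y : J → ℝ, ∑ j, x j * ∑ l, (S j l : ℝ) * y l =
        ∑ j, ∑ l, (S j l : ℝ) * x j * y l := by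
      intro x y
      simp only [Finset.mul_sum]
      refine Finset.sum_congr rfl fun i _ ↦ Finset.sum_congr rfl fun j _ ↦ by ring
    rw [h4, h4]; ring
  rw [h1]
  simp_rw [J1.mul_sv hpd]
  unfold sq
  congr 1
  · congr 2
    refine Finset.sum_congr rfl fun i _ ↦ by ring
  · refine Finset.sum_congr rfl fun i _ ↦ by ring

/-- Absolute convergence of the series. -/
lemma J1.summable_jac {N : ℕ} (hN : 0 < N) {k : ℝ} {S : Matrix J J ℤ} {c : ℤ → (J → ℤ) → V}
    (h : IsJac N k S c) {τ : ℂ} (hτ : 0 < τ.im) (z : J → ℂ) :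
    Summable fun p : ℤ × (J → ℤ) ↦ ‖e ((p.1 * τ + 2 * ∑ j, p.2 j * z j) / N) • c p.1 p.2‖ := by
  have hN' : (0 : ℝ) < N := by exact_mod_cast hN
  set A : ℝ := ∑ j, |(z j).im| with hA
  have hs := h.summ (2 * Real.pi * τ.im / N) (4 * Real.pi * A / N) (by positivity)
  refine Summable.of_nonneg_of_le (fun _ ↦ norm_nonneg _) (fun p ↦ ?_) hs
  rw [norm_smul, norm_e]
  gcongr
  have him : (((p.1 : ℂ) * τ + 2 * ∑ j, (p.2 j : ℂ) * z j) / N).im =
      (p.1 * τ.im + 2 * ∑ j, (p.2 j : ℝ) * (z j).im) / N := by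
    rw [Complex.div_natCast_im]
    congr 1
    simp [Complex.im_sum, Complex.mul_im]
  rw [him]
  have h2 : -(∑ j, (p.2 j : ℝ) * (z j).im) ≤ A * ∑ j, |(p.2 j : ℝ)| := by
    rw [← Finset.sum_neg_distrib, Finset.mul_sum]
    refine Finset.sum_le_sum fun j _ ↦ ?_
    have h3 : |(z j).im| ≤ A := Finset.single_le_sum (f := fun j ↦ |(z j).im|)
      (fun _ _ ↦ abs_nonneg _) (Finset.mem_univ j)
    calc -((p.2 j : ℝ) * (z j).im) ≤ |(p.2 j : ℝ) * (z j).im| := neg_le_abs _
      _ = |(z j).im| * |(p.2 j : ℝ)| := by rw [abs_mul, mul_comm]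
      _ ≤ A * |(p.2 j : ℝ)| := by gcongr
  have h4 : -2 * Real.pi * ((p.1 * τ.im + 2 * ∑ j, (p.2 j : ℝ) * (z j).im) / N) =
      -(2 * Real.pi * τ.im / N * p.1) + 4 * Real.pi / N * -(∑ j, (p.2 j : ℝ) * (z j).im) := by
    field_simp; ring
  have h5 : 4 * Real.pi * A / N * ∑ j, |(p.2 j : ℝ)| =
      4 * Real.pi / N * (A * ∑ j, |(p.2 j : ℝ)|) := by ring
  rw [h4, h5]
  gcongr

/-- ROW J1. -/
theorem inner_int {N : ℕ} (hN : 0 < N) {k : ℝ} {S : Matrix J J ℤ} (hS : S.IsSymm)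
    (hpd : ∀ x : J → ℝ, x ≠ 0 → 0 < QS S x) {c : ℤ → (J → ℤ) → V} (h : IsJac N k S c) {τ : ℂ}
    (hτ : 0 < τ.im) (α : J → ℝ) :
    ∫⁻ β in cube J, ENNReal.ofReal (‖jac N c τ (fun j ↦ τ * (α j : ℂ) + (β j : ℂ))‖ ^ 2 *
        Real.exp (-(4 * Real.pi * τ.im * QS S α / N))) =
      ∑' b : J → ℤ, ENNReal.ofReal (‖hb N S c b τ‖ ^ 2 *
        Real.exp (-(4 * Real.pi * τ.im * QS S (α + sv S b) / N))) := by
  have hN' : (0 : ℝ) < N := by exact_mod_cast hN
  have hNc : (N : ℂ) ≠ 0 := by exact_mod_cast hN.ne'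
  set d : (J → ℤ) → V := fun b ↦ ∑' n : ℤ, e ((n * τ + 2 * τ * dp b α) / N) • c n b with hd
  have hsum := J1.summable_jac hN h hτ (fun j ↦ τ * (α j : ℂ))
  have hterm : ∀ p : ℤ × (J → ℤ), e ((p.1 * τ + 2 * ∑ j, p.2 j * (τ * (α j : ℂ))) / N) • c p.1 p.2 =
      e ((p.1 * τ + 2 * τ * dp p.2 α) / N) • c p.1 p.2 := by
    intro p
    congr 3
    unfold dp
    rw [Finset.mul_sum, Finset.mul_sum]
    congr 1
    refine Finset.sum_congr rfl fun j _ ↦ by ring
  have hsum' : Summable fun p : (J → ℤ) × ℤ ↦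
      ‖e ((p.2 * τ + 2 * τ * dp p.1 α) / N) • c p.2 p.1‖ := by
    have h1 := (Equiv.prodComm (J → ℤ) ℤ).summable_iff.2 hsum
    refine h1.congr fun p ↦ ?_
    simp only [Function.comp, Equiv.prodComm_apply, Prod.fst_swap, Prod.snd_swap]
    rw [hterm (p.2, p.1)]
  have hrow : ∀ b : J → ℤ, Summable fun n : ℤ ↦
      ‖e ((n * τ + 2 * τ * dp b α) / N) • c n b‖ := fun b ↦ hsum'.prod_factor b
  have hdn : Summable fun b ↦ ‖d b‖ := by
    refine Summable.of_nonneg_of_le (fun _ ↦ norm_nonneg _) (fun b ↦ ?_) hsum'.prod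
    exact norm_tsum_le_tsum_norm (hrow b)
  -- the series
  have hjac : ∀ β : J → ℝ, jac N c τ (fun j ↦ τ * (α j : ℂ) + (β j : ℂ)) =
      ∑' b, e (2 * dp b β / N) • d b := by
    intro β
    have h1 : ∀ p : (J → ℤ) × ℤ,
        e ((p.2 * τ + 2 * ∑ j, p.1 j * (τ * (α j : ℂ) + (β j : ℂ))) / N) • c p.2 p.1 =
        e (2 * dp p.1 β / N) • (e ((p.2 * τ + 2 * τ * dp p.1 α) / N) • c p.2 p.1) := by
      intro p
      rw [smul_smul, ← e_add]
      congr 2
      rw [← add_div]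
      congr 1
      unfold dp
      simp only [mul_add, Finset.sum_add_distrib, Finset.mul_sum]
      have : ∀ j, 2 * ((p.1 j : ℂ) * (τ * (α j : ℂ))) = 2 * τ * ((p.1 j : ℂ) * (α j : ℂ)) := by
        intro j; ring
      simp_rw [this]
      ring
    have h2 : Summable fun p : (J → ℤ) × ℤ ↦
        e (2 * dp p.1 β / N) • (e ((p.2 * τ + 2 * τ * dp p.1 α) / N) • c p.2 p.1) := by
      refine Summable.of_norm_bounded hsum' fun p ↦ ?_
      rw [norm_smul, norm_e_dp, one_mul]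
    calc jac N c τ (fun j ↦ τ * (α j : ℂ) + (β j : ℂ))
        = ∑' p : (J → ℤ) × ℤ,
          e ((p.2 * τ + 2 * ∑ j, p.1 j * (τ * (α j : ℂ) + (β j : ℂ))) / N) • c p.2 p.1 := by
          unfold jac
          exact ((Equiv.prodComm (J → ℤ) ℤ).tsum_eq fun p : ℤ × (J → ℤ) ↦
            e ((p.1 * τ + 2 * ∑ j, p.2 j * (τ * (α j : ℂ) + (β j : ℂ))) / N) • c p.1 p.2).symm
      _ = ∑' p : (J → ℤ) × ℤ,
          e (2 * dp p.1 β / N) • (e ((p.2 * τ + 2 * τ * dp p.1 α) / N) • c p.2 p.1) :=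
          tsum_congr h1
      _ = ∑' b : J → ℤ, ∑' n : ℤ,
          e (2 * dp b β / N) • (e ((n * τ + 2 * τ * dp b α) / N) • c n b) :=
          h2.tsum_prod
      _ = _ := by
          refine tsum_congr fun b ↦ ?_
          rw [tsum_const_smul'']
  -- orthogonality
  have ho : ∀ b b' : J → ℤ, ∀ j, e (2 * ((b' j : ℂ) - b j) / N) ≠ 1 → ⟪d b, d b'⟫_ℂ = 0 := by
    intro b b' j hj
    obtain ⟨σ, hσ⟩ := h.per (Pi.single j 1)
    have hσd : ∀ b, σ (d b) = e (2 * (b j : ℂ) / N) • d b := by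
      intro b
      have h1 := σ.toContinuousLinearMap.map_tsum (hrow b).of_norm
      simp only [LinearIsometry.coe_toContinuousLinearMap] at h1
      rw [hd]
      simp only
      rw [h1, ← tsum_const_smul'']
      refine tsum_congr fun n ↦ ?_
      rw [map_smul, ← hσ n b, smul_comm]
      congr 3
      congr 1
      simp [Pi.single_apply]
    have h2 : ⟪d b, d b'⟫_ℂ = e (2 * ((b' j : ℂ) - b j) / N) * ⟪d b, d b'⟫_ℂ := by
      conv_lhs => rw [← σ.inner_map_map, hσd, hσd, inner_smul_left, inner_smul_right, ← mul_assoc]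
      congr 1
      have h3 : (2 * (b j : ℂ) / N) = ((2 * (b j : ℝ) / N : ℝ) : ℂ) := by push_cast; rfl
      rw [h3, conj_e_real, ← e_add, ← h3]
      congr 1
      ring
    have h3 : (1 - e (2 * ((b' j : ℂ) - b j) / N)) * ⟪d b, d b'⟫_ℂ = 0 := by
      rw [sub_mul, one_mul, ← h2, sub_self]
    exact (mul_eq_zero.1 h3).resolve_left (sub_ne_zero.2 (Ne.symm hj))
  -- the norms
  have hnorm : ∀ b, ‖d b‖ ^ 2 * Real.exp (-(4 * Real.pi * τ.im * QS S α / N)) =
      ‖hb N S c b τ‖ ^ 2 * Real.exp (-(4 * Real.pi * τ.im * QS S (α + sv S b) / N)) := by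
    intro b
    have h1 : d b = e (((sq S b + 2 * ∑ j, (b j : ℝ) * α j : ℝ) : ℂ) * τ / N) • hb N S c b τ := by
      rw [hd]
      unfold hb
      simp only
      rw [← tsum_const_smul'']
      refine tsum_congr fun n ↦ ?_
      rw [smul_smul, ← e_add]
      congr 2
      rw [dp_real]
      push_cast
      field_simp
      ring
    have h2 : ‖e (((sq S b + 2 * ∑ j, (b j : ℝ) * α j : ℝ) : ℂ) * τ / N)‖ =
        Real.exp (-(2 * Real.pi * τ.im * (sq S b + 2 * ∑ j, (b j : ℝ) * α j) / N)) := by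
      rw [norm_e]
      congr 1
      rw [Complex.div_natCast_im, Complex.im_ofReal_mul]
      ring
    rw [h1, norm_smul, h2, mul_pow, ← Real.exp_nat_mul, J1.QS_add hS hpd, mul_right_comm,
      ← Real.exp_add, mul_comm]
    congr 2
    push_cast
    field_simp
    ring
  calc ∫⁻ β in cube J, ENNReal.ofReal (‖jac N c τ (fun j ↦ τ * (α j : ℂ) + (β j : ℂ))‖ ^ 2 *
        Real.exp (-(4 * Real.pi * τ.im * QS S α / N)))
      = ∫⁻ β in cube J, ENNReal.ofReal (‖∑' b, e (2 * dp b β / N) • d b‖ ^ 2) *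
        ENNReal.ofReal (Real.exp (-(4 * Real.pi * τ.im * QS S α / N))) := by
        refine lintegral_congr fun β ↦ ?_
        rw [hjac, ENNReal.ofReal_mul (by positivity)]
    _ = (∫⁻ β in cube J, ENNReal.ofReal (‖∑' b, e (2 * dp b β / N) • d b‖ ^ 2)) *
        ENNReal.ofReal (Real.exp (-(4 * Real.pi * τ.im * QS S α / N))) :=
        lintegral_mul_const' _ _ ENNReal.ofReal_ne_top
    _ = (∑' b, ENNReal.ofReal (‖d b‖ ^ 2)) *
        ENNReal.ofReal (Real.exp (-(4 * Real.pi * τ.im * QS S α / N))) := by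
        rw [parseval hN d hdn ho]
    _ = ∑' b, ENNReal.ofReal (‖d b‖ ^ 2) *
        ENNReal.ofReal (Real.exp (-(4 * Real.pi * τ.im * QS S α / N))) := ENNReal.tsum_mul_right.symm
    _ = _ := by
        refine tsum_congr fun b ↦ ?_
        rw [← ENNReal.ofReal_mul (by positivity), hnorm]

end Jacobi

end Pool.Agent.Results.MP_386e47_ag.SpecialCycles
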