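import Pool.Agent.Lib.SPX.Defs

/-!
Project SPX (MP_386e47), row L1: the inequality of Korkine and Zolotarev for ternary forms.
-/

namespace Pool.Agent.Results.MP_386e47_ag.SpecialCycles

namespace L1x

/-- An integer translate of absolute value at most one half. -/
theorem near (w : ℝ) : ∃ z : ℤ, |(z : ℝ) + w| ≤ 1 / 2 := by
  refine ⟨-round w, ?_⟩
  have h := abs_sub_round w
  push_cast
  rwa [neg_add_eq_sub]

/-- The sum of two numbers in `[-1/2, 1/2]` of absolute value at least `y` is close to an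
integer. -/
theorem shift {P N y : ℝ} (hP : |P| ≤ 1 / 2) (hN : |N| ≤ 1 / 2)
    (hP' : y ≤ |P|) (hN' : y ≤ |N|) : ∃ e : ℤ, (P + N + e) ^ 2 ≤ (1 - 2 * y) ^ 2 := by
  rcases abs_cases P with ⟨h1, h2⟩ | ⟨h1, h2⟩ <;> rcases abs_cases N with ⟨h3, h4⟩ | ⟨h3, h4⟩
  · refine ⟨-1, ?_⟩
    push_cast
    exact sq_le_sq' (by linarith) (by linarith)
  · refine ⟨0, ?_⟩
    push_cast
    exact sq_le_sq' (by linarith) (by linarith)
  · refine ⟨0, ?_⟩
    push_cast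
    exact sq_le_sq' (by linarith) (by linarith)
  · refine ⟨1, ?_⟩
    push_cast
    exact sq_le_sq' (by linarith) (by linarith)

/-- The final numerical contradiction. -/
theorem num {c u m y : ℝ} (hc : c < 2 / 3) (hu : u * (1 - m ^ 2) = c) (hy : y ^ 2 = 1 - u)
    (hy1 : 1 / 3 ≤ y) (hy2 : y ≤ 1 / 2) (hm : 0 ≤ m)
    (h : 1 ≤ (1 - 2 * y) ^ 2 + (1 - m) ^ 2 * u + c) : False := by
  have e1 : u = (1 - y) * (1 + y) := by linarith
  have h1 : 2 * y ≤ (1 + y) * (1 - m) := by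
    have e2 : (1 - 2 * y) ^ 2 + (1 - m) ^ 2 * u + c - 1 =
        2 * (1 - y) * ((1 + y) * (1 - m) - 2 * y) := by
      rw [← hu, e1]
      ring
    have e3 : 0 ≤ 2 * (1 - y) * ((1 + y) * (1 - m) - 2 * y) := by linarith
    have e4 : 0 < 2 * (1 - y) := by linarith
    have e5 := nonneg_of_mul_nonneg_right e3 e4
    linarith
  have h2 : (m * (1 + y)) ^ 2 ≤ (1 - y) ^ 2 :=
    sq_le_sq' (by nlinarith) (by linarith)
  have h3 : 1 / 3 - y ^ 2 < m ^ 2 * ((1 - y) * (1 + y)) := by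
    have e2 : u * (1 - m ^ 2) < 2 / 3 := by rw [hu]; exact hc
    rw [e1] at e2
    nlinarith
  have h4 : (1 - y) ^ 3 ≤ (1 / 3 - y ^ 2) * (1 + y) := by
    have e2 : (3 * y - 1) * (2 * y - 1) ≤ 0 :=
      mul_nonpos_of_nonneg_of_nonpos (by linarith) (by linarith)
    nlinarith
  have h5 : (1 / 3 - y ^ 2) * (1 + y) < m ^ 2 * ((1 - y) * (1 + y)) * (1 + y) :=
    mul_lt_mul_of_pos_right h3 (by linarith)
  have h6 : (m * (1 + y)) ^ 2 * (1 - y) ≤ (1 - y) ^ 2 * (1 - y) :=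
    mul_le_mul_of_nonneg_right h2 (by linarith)
  nlinarith

end L1x

theorem kz {a c μ ν w : ℝ} (ha : 0 < a) (hc : 0 < c)
    (h1 : ∀ x : ℤ, 1 ≤ (x + μ) ^ 2 + a)
    (h2 : ∀ x y : ℤ, 1 ≤ (x + y * μ + ν) ^ 2 + (y + w) ^ 2 * a + c)
    (h3 : ∀ y : ℤ, a ≤ (y + w) ^ 2 * a + c) : 2 / 3 ≤ c := by
  by_contra hlt
  push Not at hlt
  obtain ⟨y0, hW⟩ := L1x.near w
  obtain ⟨x0, hM⟩ := L1x.near μ
  obtain ⟨p0, hP⟩ := L1x.near (y0 * μ + ν)
  obtain ⟨W, hWd⟩ : ∃ W : ℝ, W = (y0 : ℝ) + w := ⟨_, rfl⟩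
  obtain ⟨M, hMd⟩ : ∃ M : ℝ, M = (x0 : ℝ) + μ := ⟨_, rfl⟩
  obtain ⟨P, hPd⟩ : ∃ P : ℝ, P = (p0 : ℝ) + (y0 * μ + ν) := ⟨_, rfl⟩
  rw [← hWd] at hW
  rw [← hMd] at hM
  rw [← hPd] at hP
  have hW2 : W ^ 2 ≤ 1 / 4 := by
    have h := sq_le_sq' (by linarith [abs_nonneg W]) hW
    rw [sq_abs] at h
    linarith
  have hM2 : M ^ 2 ≤ 1 / 4 := by
    have h := sq_le_sq' (by linarith [abs_nonneg M]) hM
    rw [sq_abs] at h
    linarith
  have e1 : 1 ≤ M ^ 2 + a := by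
    have h := h1 x0
    rwa [← hMd] at h
  have e3 : a ≤ W ^ 2 * a + c := by
    have h := h3 y0
    rwa [← hWd] at h
  have e2 : 1 ≤ P ^ 2 + W ^ 2 * a + c := by
    have h := h2 p0 y0
    rw [← hWd, show (p0 : ℝ) + y0 * μ + ν = P by rw [hPd]; ring] at h
    exact h
  have hpos : 0 < 1 - W ^ 2 := by linarith
  obtain ⟨u, hu⟩ : ∃ u : ℝ, u * (1 - W ^ 2) = c := ⟨c / (1 - W ^ 2), by field_simp⟩
  have hau : a ≤ u := by
    by_contra hcon
    push Not at hcon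
    have := mul_lt_mul_of_pos_right hcon hpos
    linarith
  have hu1 : 3 / 4 ≤ u := by linarith
  have hu2 : u < 8 / 9 := by nlinarith
  obtain ⟨y, hy0, hy⟩ : ∃ y : ℝ, 0 ≤ y ∧ y ^ 2 = 1 - u :=
    ⟨√(1 - u), Real.sqrt_nonneg _, Real.sq_sqrt (by linarith)⟩
  have hy1 : 1 / 3 ≤ y := by
    by_contra hcon
    push Not at hcon
    nlinarith
  have hy2 : y ≤ 1 / 2 := by
    by_contra hcon
    push Not at hcon
    nlinarith
  have hM' : y ≤ |M| := by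
    refine abs_le_of_sq_le_sq' ?_ (abs_nonneg M) |>.2
    rw [sq_abs]
    linarith
  have hP' : y ≤ |P| := by
    refine abs_le_of_sq_le_sq' ?_ (abs_nonneg P) |>.2
    rw [sq_abs]
    have h4 : W ^ 2 * a ≤ W ^ 2 * u := mul_le_mul_of_nonneg_left hau (sq_nonneg W)
    have h5 : W ^ 2 * u + c = u := by rw [← hu]; ring
    linarith
  obtain ⟨σ, hσ, hσW⟩ : ∃ σ : ℤ, |(σ : ℝ)| = 1 ∧ (W + σ) ^ 2 = (1 - |W|) ^ 2 := by
    rcases abs_cases W with ⟨h4, h5⟩ | ⟨h4, h5⟩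
    · refine ⟨-1, by norm_num, ?_⟩
      rw [h4]
      push_cast
      ring
    · refine ⟨1, by norm_num, ?_⟩
      rw [h4]
      push_cast
      ring
  have hN : |(σ : ℝ) * M| = |M| := by rw [abs_mul, hσ, one_mul]
  obtain ⟨e, he⟩ := L1x.shift hP (hN.le.trans hM) hP' (hM'.trans hN.ge)
  have e4 := h2 (p0 + σ * x0 + e) (y0 + σ)
  have e5 : ((p0 + σ * x0 + e : ℤ) : ℝ) + ((y0 + σ : ℤ) : ℝ) * μ + ν = P + σ * M + e := by
    rw [hPd, hMd]
    push_cast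
    ring
  have e6 : ((y0 + σ : ℤ) : ℝ) + w = W + σ := by
    rw [hWd]
    push_cast
    ring
  rw [e5, e6, hσW] at e4
  have e7 : (1 - |W|) ^ 2 * a ≤ (1 - |W|) ^ 2 * u := mul_le_mul_of_nonneg_left hau (sq_nonneg _)
  exact L1x.num hlt (by rw [sq_abs]; exact hu) hy hy1 hy2 (abs_nonneg W) (by linarith)

end Pool.Agent.Results.MP_386e47_ag.SpecialCycles
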