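import Pool.Agent.Lib.SPX.Defs

/-! Row R1: the restriction of a formal Siegel form to `z_i = 0` is a formal Siegel form
(helper47). -/

namespace Pool.Agent.Results.MP_386e47_ag.SpecialCycles

open Complex Finset MeasureTheory

section Siegel

variable {ι : Type*} [Fintype ι] [DecidableEq ι]
variable {V : Type*} [NormedAddCommGroup V] [NormedSpace ℂ V]

namespace R1x

lemma mk_ii (i : ι) (n : ℤ) (b : {j // j ≠ i} → ℤ) (S : Matrix {j // j ≠ i} {j // j ≠ i} ℤ) :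
    mk i n b S i i = n := by simp [mk]

lemma mk_il (i : ι) (n : ℤ) (b : {j // j ≠ i} → ℤ) (S : Matrix {j // j ≠ i} {j // j ≠ i} ℤ)
    (l : {j // j ≠ i}) : mk i n b S i l.1 = b l := by simp [mk, l.2]

lemma mk_li (i : ι) (n : ℤ) (b : {j // j ≠ i} → ℤ) (S : Matrix {j // j ≠ i} {j // j ≠ i} ℤ)
    (l : {j // j ≠ i}) : mk i n b S l.1 i = b l := by simp [mk, l.2]

lemma mk_jl (i : ι) (n : ℤ) (b : {j // j ≠ i} → ℤ) (S : Matrix {j // j ≠ i} {j // j ≠ i} ℤ)
    (j l : {j // j ≠ i}) : mk i n b S j.1 l.1 = S j l := by simp [mk, j.2, l.2]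

lemma blk_mk (i : ι) (n : ℤ) (b : {j // j ≠ i} → ℤ) (S : Matrix {j // j ≠ i} {j // j ≠ i} ℤ) :
    blk i (mk i n b S) = S := by
  funext p q
  exact mk_jl i n b S p q

lemma blk_mul_left (i : ι) (A B : Matrix ι ι ℤ) (hA : ∀ p : {j // j ≠ i}, A p.1 i = 0) :
    blk i (A * B) = blk i A * blk i B := by
  funext p q
  show (A * B) p.1 q.1 = (blk i A * blk i B) p q
  rw [Matrix.mul_apply, Matrix.mul_apply, Fintype.sum_eq_add_sum_subtype_ne _ i, hA p]
  simp [blk]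

lemma blk_mul_right (i : ι) (A B : Matrix ι ι ℤ) (hB : ∀ q : {j // j ≠ i}, B i q.1 = 0) :
    blk i (A * B) = blk i A * blk i B := by
  funext p q
  show (A * B) p.1 q.1 = (blk i A * blk i B) p q
  rw [Matrix.mul_apply, Matrix.mul_apply, Fintype.sum_eq_add_sum_subtype_ne _ i, hB q]
  simp [blk]

lemma mk_mul (i : ι) (A B : Matrix {j // j ≠ i} {j // j ≠ i} ℤ) :
    mk i 1 0 A * mk i 1 0 B = mk i 1 0 (A * B) := by
  funext p q
  rw [Matrix.mul_apply, Fintype.sum_eq_add_sum_subtype_ne _ i]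
  by_cases hp : p = i
  · subst hp
    by_cases hq : q = p
    · subst hq
      rw [mk_ii, mk_ii, mk_ii]
      simp [mk_il]
    · have e1 : mk p 1 0 B p q = 0 := mk_il p 1 0 B ⟨q, hq⟩
      have e2 : mk p 1 0 (A * B) p q = 0 := mk_il p 1 0 (A * B) ⟨q, hq⟩
      rw [e1, e2]
      simp [mk_il]
  · by_cases hq : q = i
    · subst hq
      have e1 : mk q 1 0 A p q = 0 := mk_li q 1 0 A ⟨p, hp⟩
      have e2 : mk q 1 0 (A * B) p q = 0 := mk_li q 1 0 (A * B) ⟨p, hp⟩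
      rw [e1, e2]
      simp [mk_li]
    · have e1 : mk i 1 0 A p i = 0 := mk_li i 1 0 A ⟨p, hp⟩
      have e2 : mk i 1 0 (A * B) p q = (A * B) ⟨p, hp⟩ ⟨q, hq⟩ := mk_jl i 1 0 (A * B) ⟨p, hp⟩ ⟨q, hq⟩
      rw [e1, e2, Matrix.mul_apply, zero_mul, zero_add]
      refine sum_congr rfl fun r _ ↦ ?_
      have e3 : mk i 1 0 A p r.1 = A ⟨p, hp⟩ r := mk_jl i 1 0 A ⟨p, hp⟩ r
      have e4 : mk i 1 0 B r.1 q = B r ⟨q, hq⟩ := mk_jl i 1 0 B r ⟨q, hq⟩
      rw [e3, e4]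

lemma mk_one (i : ι) : mk i 1 0 (1 : Matrix {j // j ≠ i} {j // j ≠ i} ℤ) = 1 := by
  funext p q
  by_cases hp : p = i
  · subst hp
    by_cases hq : q = p
    · subst hq
      rw [mk_ii, Matrix.one_apply_eq]
    · have e1 : mk p 1 0 (1 : Matrix {j // j ≠ p} {j // j ≠ p} ℤ) p q = 0 :=
        mk_il p 1 0 _ ⟨q, hq⟩
      rw [e1, Matrix.one_apply_ne (Ne.symm hq)]
  · by_cases hq : q = i
    · subst hq
      have e1 : mk q 1 0 (1 : Matrix {j // j ≠ q} {j // j ≠ q} ℤ) p q = 0 :=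
        mk_li q 1 0 _ ⟨p, hp⟩
      rw [e1, Matrix.one_apply_ne hp]
    · have e1 : mk i 1 0 (1 : Matrix {j // j ≠ i} {j // j ≠ i} ℤ) p q =
          (1 : Matrix {j // j ≠ i} {j // j ≠ i} ℤ) ⟨p, hp⟩ ⟨q, hq⟩ := mk_jl i 1 0 _ ⟨p, hp⟩ ⟨q, hq⟩
      rw [e1, Matrix.one_apply, Matrix.one_apply]
      simp only [Subtype.mk.injEq]

/-- The conjugation of the fibre. -/
lemma conj_ii (i : ι) (A : Matrix {j // j ≠ i} {j // j ≠ i} ℤ) (B : Matrix ι ι ℤ) :
    ((mk i 1 0 A).transpose * B * mk i 1 0 A) i i = B i i := by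
  rw [Matrix.mul_apply, Fintype.sum_eq_add_sum_subtype_ne _ i]
  have e1 : ∀ r : {j // j ≠ i}, mk i 1 0 A r.1 i = 0 := fun r ↦ mk_li i 1 0 A r
  rw [mk_ii, Matrix.mul_apply, Fintype.sum_eq_add_sum_subtype_ne _ i, Matrix.transpose_apply,
    mk_ii]
  simp only [Matrix.transpose_apply, e1]
  simp

lemma conj_blk (i : ι) (A : Matrix {j // j ≠ i} {j // j ≠ i} ℤ) (B : Matrix ι ι ℤ) :
    blk i ((mk i 1 0 A).transpose * B * mk i 1 0 A) = A.transpose * blk i B * A := by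
  rw [blk_mul_right i _ _ (fun q ↦ mk_il i 1 0 A q), blk_mul_left i _ _ (fun p ↦ by
    rw [Matrix.transpose_apply]; exact mk_il i 1 0 A p), blk_mk]
  congr 2
  funext p q
  exact mk_jl i 1 0 A q p

lemma fib_fin {N : ℕ} {k : ℝ} {a : Matrix ι ι ℤ → V} (h : IsSiegel N k a) (i : ι) (n : ℤ)
    (B' : Matrix {j // j ≠ i} {j // j ≠ i} ℤ) :
    Set.Finite {B : {B : Matrix ι ι ℤ // B i i = n ∧ blk i B = B'} | a B.1 ≠ 0} := by
  classical
  obtain ⟨t, ht⟩ : ∃ t : ι → ℤ, ∀ B : {B : Matrix ι ι ℤ // B i i = n ∧ blk i B = B'},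
      ∀ j, B.1 j j = t j := by
    refine ⟨fun j ↦ if hj : j = i then n else B' ⟨j, hj⟩ ⟨j, hj⟩, fun B j ↦ ?_⟩
    by_cases hj : j = i
    · subst hj
      simp [B.2.1]
    · simp only [hj, dite_false]
      exact congrFun (congrFun B.2.2 ⟨j, hj⟩) ⟨j, hj⟩
  have hinj : Function.Injective fun B : {B : Matrix ι ι ℤ // B i i = n ∧ blk i B = B'} ↦
      (⟨B.1, ht B⟩ : Bd t) := by
    intro B C hBC
    exact Subtype.ext (congrArg (fun x : Bd t ↦ x.1) hBC)
  exact (supp_fin h t).preimage hinj.injOn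

lemma fib_summ {N : ℕ} {k : ℝ} {a : Matrix ι ι ℤ → V} (h : IsSiegel N k a) (i : ι) (n : ℤ)
    (B' : Matrix {j // j ≠ i} {j // j ≠ i} ℤ) :
    Summable fun B : {B : Matrix ι ι ℤ // B i i = n ∧ blk i B = B'} ↦ a B.1 :=
  summable_of_hasFiniteSupport (fib_fin h i n B')

lemma res_ne {a : Matrix ι ι ℤ → V} {i : ι} {n : ℤ} {B' : Matrix {j // j ≠ i} {j // j ≠ i} ℤ}
    (hne : res a i n B' ≠ 0) : ∃ B : Matrix ι ι ℤ, a B ≠ 0 ∧ B i i = n ∧ blk i B = B' := by
  by_contra hcon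
  push Not at hcon
  apply hne
  unfold res
  refine (tsum_congr fun B ↦ ?_).trans tsum_zero
  by_contra hB
  exact hcon B.1 hB B.2.1 B.2.2

lemma res_iso {N : ℕ} {k : ℝ} {a : Matrix ι ι ℤ → V} (h : IsSiegel N k a) (i : ι) (n : ℤ)
    (B' : Matrix {j // j ≠ i} {j // j ≠ i} ℤ) (ρ : V →ₗᵢ[ℂ] V) :
    ρ (res a i n B') = ∑' B : {B : Matrix ι ι ℤ // B i i = n ∧ blk i B = B'}, ρ (a B.1) := by
  have := ρ.toContinuousLinearMap.map_tsum (fib_summ h i n B')
  exact this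

lemma sum_ext (i : ι) {M : Type*} [AddCommMonoid M] (f : ι → M) (hf : f i = 0) :
    ∑ j, f j = ∑ j : {j // j ≠ i}, f j.1 := by
  rw [Fintype.sum_eq_add_sum_subtype_ne _ i, hf, zero_add]

lemma sum_erase_ext (i : ι) (i₀ : {j // j ≠ i}) {M : Type*} [AddCommGroup M] (f : ι → M)
    (hf : f i = 0) :
    ∑ j ∈ univ.erase i₀.1, f j = ∑ j ∈ (univ : Finset {j // j ≠ i}).erase i₀, f j.1 := by
  have h1 := add_sum_erase univ f (mem_univ i₀.1)
  have h2 := add_sum_erase univ (fun j : {j // j ≠ i} ↦ f j.1) (mem_univ i₀)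
  rw [sum_ext i f hf, ← h2] at h1
  exact add_left_cancel h1

/-- The extension of `z` by zero. -/
noncomputable def zx (i : ι) (z : {j // j ≠ i} → ℂ) : ι → ℂ :=
  fun j ↦ if hj : j = i then 0 else z ⟨j, hj⟩

lemma zx_i (i : ι) (z : {j // j ≠ i} → ℂ) : zx i z i = 0 := by simp [zx]

lemma zx_j (i : ι) (z : {j // j ≠ i} → ℂ) (j : {j // j ≠ i}) : zx i z j.1 = z j := by
  simp [zx, j.2]

lemma zx_div (i : ι) (z : {j // j ≠ i} → ℂ) (τ : ℂ) :
    (fun j ↦ zx i z j / τ) = zx i (fun j ↦ z j / τ) := by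
  funext j
  by_cases hj : j = i
  · subst hj
    rw [zx_i, zx_i, zero_div]
  · have e1 := zx_j i z ⟨j, hj⟩
    have e2 := zx_j i (fun j ↦ z j / τ) ⟨j, hj⟩
    simp only at e1 e2
    rw [e1, e2]

/-- The weight. -/
noncomputable def ww (N : ℕ) (i : ι) (i₀ : {j // j ≠ i}) (τ : ℂ) (z : {j // j ≠ i} → ℂ)
    (B' : Matrix {j // j ≠ i} {j // j ≠ i} ℤ) : ℂ :=
  e ((B' i₀ i₀ * τ + 2 * ∑ j ∈ univ.erase i₀, B' i₀ j * z j) / N)

lemma ww_eq (N : ℕ) (i : ι) (i₀ : {j // j ≠ i}) (τ : ℂ) (z : {j // j ≠ i} → ℂ)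
    (B : Matrix ι ι ℤ) :
    ww N i i₀ τ z (blk i B) =
      e ((B i₀.1 i₀.1 * τ + 2 * ∑ j ∈ univ.erase i₀.1, B i₀.1 j * zx i z j) / N) := by
  unfold ww
  rw [sum_erase_ext i i₀ (fun j ↦ (B i₀.1 j : ℂ) * zx i z j) (by rw [zx_i, mul_zero])]
  congr 4
  refine sum_congr rfl fun j _ ↦ ?_
  rw [zx_j]
  rfl

lemma ww_eq' (N : ℕ) (i : ι) (i₀ : {j // j ≠ i}) (τ : ℂ) (z : {j // j ≠ i} → ℂ)
    (B : Matrix ι ι ℤ) :
    ww N i i₀ τ z (blk i B) =
      e ((B i₀.1 i₀.1 : ℤ) * τ / N) * Complex.exp (lz N i₀.1 (zx i z) B) := by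
  rw [ww_eq]
  unfold e lz
  rw [← Complex.exp_add]
  congr 1
  ring

open Classical in
/-- The series over all matrices. -/
noncomputable def gg (N : ℕ) (a : Matrix ι ι ℤ → V) (i : ι) (n : ℤ) (i₀ : {j // j ≠ i})
    (S : Matrix {j // j ≠ i} {j // j ≠ i} ℤ) (τ : ℂ) (z : {j // j ≠ i} → ℂ)
    (B : Matrix ι ι ℤ) : V :=
  if B i i = n ∧ ∀ j l, j ≠ i₀ → l ≠ i₀ → blk i B j l = S j l then
    ww N i i₀ τ z (blk i B) • a B else 0

lemma gg_summ [CompleteSpace V] {N : ℕ} (hN : 0 < N) {k : ℝ} {a : Matrix ι ι ℤ → V}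
    (h : IsSiegel N k a) (i : ι) (n : ℤ) (i₀ : {j // j ≠ i})
    (S : Matrix {j // j ≠ i} {j // j ≠ i} ℤ) {τ : ℂ} (hτ : 0 < τ.im) (z : {j // j ≠ i} → ℂ) :
    Summable (gg N a i n i₀ S τ z) := by
  classical
  obtain ⟨t, ht⟩ : ∃ t : ι → ℤ, ∀ j, t j = if hj : j = i then n else S ⟨j, hj⟩ ⟨j, hj⟩ :=
    ⟨_, fun _ ↦ rfl⟩
  have hi : i ≠ i₀.1 := fun hh ↦ i₀.2 hh.symm
  have hexp : Tame fun B : Matrix ι ι ℤ ↦ Complex.exp (lz N i₀.1 (zx i z) B) := by
    have := (lz_lin N i₀.1 (zx i z)).exp 1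
    simpa using this
  have h1 := Sv_summ h hN i₀.1 t hexp hτ
  have h2 : Summable (Set.indicator {B : Matrix ι ι ℤ | ∀ j, j ≠ i₀.1 → B j j = t j}
      fun B ↦ (e ((B i₀.1 i₀.1 : ℤ) * τ / N) * Complex.exp (lz N i₀.1 (zx i z) B)) • a B) :=
    summable_subtype_iff_indicator.1 h1
  have h3 := h2.indicator {B : Matrix ι ι ℤ | B i i = n ∧
    ∀ j l, j ≠ i₀ → l ≠ i₀ → blk i B j l = S j l}
  refine h3.congr fun B ↦ ?_
  unfold gg
  by_cases hB : B i i = n ∧ ∀ j l, j ≠ i₀ → l ≠ i₀ → blk i B j l = S j l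
  · rw [if_pos hB, Set.indicator_of_mem (show B ∈ {B : Matrix ι ι ℤ | B i i = n ∧
      ∀ j l, j ≠ i₀ → l ≠ i₀ → blk i B j l = S j l} from hB), Set.indicator_of_mem, ww_eq']
    intro j hj
    rw [ht]
    by_cases hji : j = i
    · subst hji
      simp [hB.1]
    · simp only [hji, dite_false]
      exact hB.2 ⟨j, hji⟩ ⟨j, hji⟩ (fun hh ↦ hj (by rw [← hh])) (fun hh ↦ hj (by rw [← hh]))
  · rw [if_neg hB, Set.indicator_of_notMem (show B ∉ {B : Matrix ι ι ℤ | B i i = n ∧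
      ∀ j l, j ≠ i₀ → l ≠ i₀ → blk i B j l = S j l} from hB)]

/-- The restriction as a sum of `gg`. -/
lemma psi_res [CompleteSpace V] {N : ℕ} (hN : 0 < N) {k : ℝ} {a : Matrix ι ι ℤ → V}
    (h : IsSiegel N k a) (i : ι) (n : ℤ) (i₀ : {j // j ≠ i})
    (S : Matrix {j // j ≠ i} {j // j ≠ i} ℤ) {τ : ℂ} (hτ : 0 < τ.im) (z : {j // j ≠ i} → ℂ) :
    psi N (res a i n) i₀ S τ z = ∑' B, gg N a i n i₀ S τ z B := by
  classical
  have h1 := (gg_summ hN h i n i₀ S hτ z).hasSum.tsum_fiberwise (blk i)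
  rw [← h1.tsum_eq]
  unfold psi
  have h2 := _root_.tsum_subtype {B' : Matrix {j // j ≠ i} {j // j ≠ i} ℤ |
    ∀ j l, j ≠ i₀ → l ≠ i₀ → B' j l = S j l} (fun B' ↦ ww N i i₀ τ z B' • res a i n B')
  refine Eq.trans h2 (tsum_congr fun B' ↦ ?_)
  rw [_root_.tsum_subtype]
  by_cases hB' : ∀ j l, j ≠ i₀ → l ≠ i₀ → B' j l = S j l
  · rw [Set.indicator_of_mem (show B' ∈ {B' : Matrix {j // j ≠ i} {j // j ≠ i} ℤ |
      ∀ j l, j ≠ i₀ → l ≠ i₀ → B' j l = S j l} from hB')]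
    unfold res
    rw [← tsum_const_smul'']
    have h3 := _root_.tsum_subtype {B : Matrix ι ι ℤ | B i i = n ∧ blk i B = B'}
      (fun B ↦ ww N i i₀ τ z B' • a B)
    refine Eq.trans h3 (tsum_congr fun B ↦ ?_)
    by_cases hB : blk i B = B'
    · rw [Set.indicator_of_mem (show B ∈ blk i ⁻¹' {B'} from hB)]
      unfold gg
      by_cases hn : B i i = n
      · rw [Set.indicator_of_mem (show B ∈ {B : Matrix ι ι ℤ | B i i = n ∧ blk i B = B'} from
          ⟨hn, hB⟩), if_pos ⟨hn, by rw [hB]; exact hB'⟩, hB]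
      · rw [Set.indicator_of_notMem (fun hh ↦ hn hh.1), if_neg (fun hh ↦ hn hh.1)]
    · rw [Set.indicator_of_notMem (fun hh ↦ hB hh.2),
        Set.indicator_of_notMem (show B ∉ blk i ⁻¹' {B'} from hB)]
  · rw [Set.indicator_of_notMem (show B' ∉ {B' : Matrix {j // j ≠ i} {j // j ≠ i} ℤ |
      ∀ j l, j ≠ i₀ → l ≠ i₀ → B' j l = S j l} from hB')]
    refine ((tsum_congr fun B ↦ ?_).trans tsum_zero).symm
    by_cases hB : blk i B = B'
    · rw [Set.indicator_of_mem (show B ∈ blk i ⁻¹' {B'} from hB)]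
      unfold gg
      rw [if_neg]
      rw [hB]
      exact fun hh ↦ hB' hh.2
    · exact Set.indicator_of_notMem (show B ∉ blk i ⁻¹' {B'} from hB) _

/-- The row at `i`. -/
def rw' (i : ι) (i₀ : {j // j ≠ i}) (B : Matrix ι ι ℤ) : {j // j ≠ i} → ℤ :=
  fun j ↦ if j = i₀ then 0 else B i j.1

/-- The sum of `gg` over the matrices with given row at `i`. -/
lemma gg_row {N : ℕ} {k : ℝ} {a : Matrix ι ι ℤ → V}
    (h : IsSiegel N k a) (i : ι) (n : ℤ) (i₀ : {j // j ≠ i})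
    (S : Matrix {j // j ≠ i} {j // j ≠ i} ℤ) (τ : ℂ) (z : {j // j ≠ i} → ℂ)
    (b : {j // j ≠ i} → ℤ) (hb : b i₀ = 0) :
    ∑' B : rw' i i₀ ⁻¹' {b}, gg N a i n i₀ S τ z B = psi N a i₀.1 (mk i n b S) τ (zx i z) := by
  classical
  have hi : i ≠ i₀.1 := fun hh ↦ i₀.2 hh.symm
  rw [_root_.tsum_subtype]
  unfold psi
  have h2 := _root_.tsum_subtype {B : Matrix ι ι ℤ | ∀ j l, j ≠ i₀.1 → l ≠ i₀.1 → B j l = mk i n b S j l}
    (fun B ↦ e ((B i₀.1 i₀.1 * τ + 2 * ∑ j ∈ univ.erase i₀.1, B i₀.1 j * zx i z j) / N) • a B)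
  refine Eq.trans (tsum_congr fun B ↦ ?_) h2.symm
  by_cases ha : a B = 0
  · have e1 : gg N a i n i₀ S τ z B = 0 := by
      unfold gg
      rw [ha, smul_zero]
      simp
    rw [Set.indicator_apply, Set.indicator_apply, e1, ha, smul_zero]
    simp
  · have hs := h.symm B ha
    have hsy : ∀ p q, B p q = B q p := fun p q ↦ (congrFun (congrFun hs q) p).symm ▸ rfl
    have hiff : B ∈ {B : Matrix ι ι ℤ | ∀ j l, j ≠ i₀.1 → l ≠ i₀.1 → B j l = mk i n b S j l} ↔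
        (rw' i i₀ B = b ∧ (B i i = n ∧ ∀ j l, j ≠ i₀ → l ≠ i₀ → blk i B j l = S j l)) := by
      constructor
      · intro hB
        have hB' : ∀ j l, j ≠ i₀.1 → l ≠ i₀.1 → B j l = mk i n b S j l := hB
        refine ⟨?_, ?_, ?_⟩
        · funext j
          unfold rw'
          split_ifs with hj
          · rw [hj, hb]
          · rw [hB' i j.1 hi (fun hh ↦ hj (Subtype.ext hh)), mk_il]
        · rw [hB' i i hi hi, mk_ii]
        · intro j l hj hl
          show B j.1 l.1 = S j l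
          rw [hB' j.1 l.1 (fun hh ↦ hj (Subtype.ext hh)) (fun hh ↦ hl (Subtype.ext hh)), mk_jl]
      · rintro ⟨h1, h2, h3⟩ j l hj hl
        have hrow : ∀ q : {j // j ≠ i}, q ≠ i₀ → B i q.1 = b q := by
          intro q hq
          have := congrFun h1 q
          unfold rw' at this
          rwa [if_neg hq] at this
        by_cases hji : j = i
        · subst hji
          by_cases hli : l = j
          · subst hli
            rw [h2, mk_ii]
          · have e1 := hrow ⟨l, hli⟩ (fun hh ↦ hl (by rw [← hh]))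
            have e2 := mk_il j n b S ⟨l, hli⟩
            simp only at e1 e2
            rw [e1, e2]
        · by_cases hli : l = i
          · subst hli
            have e1 := hrow ⟨j, hji⟩ (fun hh ↦ hj (by rw [← hh]))
            have e2 := mk_li l n b S ⟨j, hji⟩
            simp only at e1 e2
            rw [hsy j l, e1, e2]
          · have e1 := h3 ⟨j, hji⟩ ⟨l, hli⟩ (fun hh ↦ hj (by rw [← hh]))
              (fun hh ↦ hl (by rw [← hh]))
            have e2 := mk_jl i n b S ⟨j, hji⟩ ⟨l, hli⟩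
            simp only [blk] at e1 e2
            rw [e1, e2]
    by_cases hr : rw' i i₀ B = b
    · rw [Set.indicator_of_mem (show B ∈ rw' i i₀ ⁻¹' {b} from hr)]
      unfold gg
      by_cases hc : B i i = n ∧ ∀ j l, j ≠ i₀ → l ≠ i₀ → blk i B j l = S j l
      · rw [if_pos hc, Set.indicator_of_mem (hiff.2 ⟨hr, hc⟩), ww_eq]
      · rw [if_neg hc, Set.indicator_of_notMem (fun hh ↦ hc (hiff.1 hh).2)]
    · rw [Set.indicator_of_notMem (show B ∉ rw' i i₀ ⁻¹' {b} from hr),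
        Set.indicator_of_notMem (fun hh ↦ hr (hiff.1 hh).1)]

lemma gg_row0 {N : ℕ} {a : Matrix ι ι ℤ → V} (i : ι) (n : ℤ) (i₀ : {j // j ≠ i})
    (S : Matrix {j // j ≠ i} {j // j ≠ i} ℤ) (τ : ℂ) (z : {j // j ≠ i} → ℂ)
    (b : {j // j ≠ i} → ℤ) (hb : b i₀ ≠ 0) :
    ∑' B : rw' i i₀ ⁻¹' {b}, gg N a i n i₀ S τ z B = 0 := by
  have : IsEmpty (rw' i i₀ ⁻¹' {b}) := by
    constructor
    rintro ⟨B, hB⟩
    have h1 : rw' i i₀ B = b := hB
    apply hb
    rw [← h1]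
    simp [rw']
  exact tsum_empty

end R1x

open R1x

theorem res_siegel [CompleteSpace V] {N : ℕ} (hN : 0 < N) {k : ℝ} {a : Matrix ι ι ℤ → V}
    (h : IsSiegel N k a) (i : ι) (n : ℤ) : IsSiegel N k (res a i n) := by
  classical
  refine ⟨?_, ?_, ?_, ?_, ?_, ?_⟩
  · -- symm
    intro B' hB'
    obtain ⟨B, h1, -, h3⟩ := res_ne hB'
    have hs := h.symm B h1
    rw [← h3]
    funext p q
    exact congrFun (congrFun hs p.1) q.1
  · -- psd
    intro B' hB' x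
    obtain ⟨B, h1, -, h3⟩ := res_ne hB'
    have hp := h.psd B h1 (fun j ↦ if hj : j = i then 0 else x ⟨j, hj⟩)
    have e1 : (fun j ↦ if hj : j = i then 0 else x ⟨j, hj⟩) ⬝ᵥ
        (B.mulVec fun j ↦ if hj : j = i then 0 else x ⟨j, hj⟩) = x ⬝ᵥ (B'.mulVec x) := by
      unfold dotProduct Matrix.mulVec dotProduct
      rw [sum_ext i _ (by simp)]
      refine sum_congr rfl fun p _ ↦ ?_
      rw [sum_ext i _ (by simp)]
      simp only [p.2, dite_false]
      congr 1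
      refine sum_congr rfl fun q _ ↦ ?_
      simp only [q.2, dite_false]
      rw [← h3]
      rfl
    rwa [e1] at hp
  · -- conv
    intro i₀ t δ hδ
    obtain ⟨t', ht'⟩ : ∃ t' : ι → ℤ, ∀ j, t' j = if hj : j = i then n else t ⟨j, hj⟩ :=
      ⟨_, fun _ ↦ rfl⟩
    have h1 := h.conv i₀.1 t' δ hδ
    have h2 : Summable (Set.indicator {B : Matrix ι ι ℤ | ∀ j, j ≠ i₀.1 → B j j = t' j}
        fun B ↦ Real.exp (-(δ * (B i₀.1 i₀.1 : ℤ))) * ‖a B‖) :=
      summable_subtype_iff_indicator.1 h1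
    have h3 := (h2.hasSum.tsum_fiberwise (blk i)).summable
    have h4 := h3.subtype {B' : Matrix {j // j ≠ i} {j // j ≠ i} ℤ | ∀ j, j ≠ i₀ → B' j j = t j}
    refine Summable.of_nonneg_of_le (fun B' ↦ by positivity) (fun B' ↦ ?_) h4
    show Real.exp (-(δ * (B'.1 i₀ i₀ : ℤ))) * ‖res a i n B'.1‖ ≤
      ∑' B : blk i ⁻¹' {B'.1}, Set.indicator {B : Matrix ι ι ℤ | ∀ j, j ≠ i₀.1 → B j j = t' j}
        (fun B ↦ Real.exp (-(δ * (B i₀.1 i₀.1 : ℤ))) * ‖a B‖) B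
    have hs := (fib_summ h i n B'.1)
    have hsn : Summable fun B : {B : Matrix ι ι ℤ // B i i = n ∧ blk i B = B'.1} ↦ ‖a B.1‖ := by
      refine summable_of_hasFiniteSupport ((fib_fin h i n B'.1).subset fun B hB ↦ ?_)
      intro h0
      apply hB
      have h0' : a B.1 = 0 := h0
      show ‖a B.1‖ = 0
      rw [h0', norm_zero]
    have e1 : ‖res a i n B'.1‖ ≤
        ∑' B : {B : Matrix ι ι ℤ // B i i = n ∧ blk i B = B'.1}, ‖a B.1‖ :=
      norm_tsum_le_tsum_norm hsn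
    refine (mul_le_mul_of_nonneg_left e1 (Real.exp_pos _).le).trans (le_of_eq ?_)
    rw [← tsum_mul_left, _root_.tsum_subtype]
    have e2 := _root_.tsum_subtype {B : Matrix ι ι ℤ | B i i = n ∧ blk i B = B'.1}
      (fun B ↦ Real.exp (-(δ * (B'.1 i₀ i₀ : ℤ))) * ‖a B‖)
    refine Eq.trans e2 (tsum_congr fun B ↦ ?_)
    by_cases hB : blk i B = B'.1
    · rw [Set.indicator_of_mem (show B ∈ blk i ⁻¹' {B'.1} from hB)]
      by_cases hn : B i i = n
      · rw [Set.indicator_of_mem (show B ∈ {B : Matrix ι ι ℤ | B i i = n ∧ blk i B = B'.1} from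
          ⟨hn, hB⟩), Set.indicator_of_mem, ← hB]
        · rfl
        · intro j hj
          rw [ht']
          by_cases hji : j = i
          · subst hji
            simp [hn]
          · simp only [hji, dite_false]
            have h5 := B'.2 ⟨j, hji⟩ (fun hh ↦ hj (by rw [← hh]))
            rw [← hB] at h5
            exact h5
      · rw [Set.indicator_of_notMem (fun hh ↦ hn hh.1), Set.indicator_of_notMem]
        intro hh
        apply hn
        have h5 := hh i (fun hh ↦ i₀.2 hh.symm)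
        rw [h5, ht']
        simp
    · rw [Set.indicator_of_notMem (fun hh ↦ hB hh.2),
        Set.indicator_of_notMem (show B ∉ blk i ⁻¹' {B'.1} from hB)]
  · -- trans
    intro S hS
    obtain ⟨σ, hσ⟩ := h.trans (mk i 0 0 S) (by
      funext p q
      show mk i 0 0 S q p = mk i 0 0 S p q
      by_cases hp : p = i
      · by_cases hq : q = i
        · rw [hp, hq]
        · have e1 := mk_li i 0 0 S ⟨q, hq⟩
          have e2 := mk_il i 0 0 S ⟨q, hq⟩
          simp only at e1 e2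
          rw [hp, e1, e2]
      · by_cases hq : q = i
        · have e1 := mk_il i 0 0 S ⟨p, hp⟩
          have e2 := mk_li i 0 0 S ⟨p, hp⟩
          simp only at e1 e2
          rw [hq, e1, e2]
        · have e1 := mk_jl i 0 0 S ⟨q, hq⟩ ⟨p, hp⟩
          have e2 := mk_jl i 0 0 S ⟨p, hp⟩ ⟨q, hq⟩
          simp only at e1 e2
          rw [e1, e2]
          exact congrFun (congrFun hS ⟨p, hp⟩) ⟨q, hq⟩)
    refine ⟨σ, fun B' ↦ ?_⟩
    rw [res_iso h]
    unfold res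
    rw [← tsum_const_smul'']
    refine tsum_congr fun B ↦ ?_
    rw [← hσ B.1]
    congr 3
    have e1 : (mk i 0 0 S * B.1).trace = (S * B').trace := by
      unfold Matrix.trace
      simp only [Matrix.diag_apply, Matrix.mul_apply]
      have hz : ∀ q, mk i 0 0 S i q = 0 := by
        intro q
        by_cases hq : q = i
        · rw [hq, mk_ii]
        · exact mk_il i 0 0 S ⟨q, hq⟩
      rw [sum_ext i _ (by simp [hz])]
      refine sum_congr rfl fun p _ ↦ ?_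
      rw [sum_ext i _ (by rw [mk_li]; simp)]
      refine sum_congr rfl fun q _ ↦ ?_
      rw [mk_jl]
      congr 1
      exact congrFun (congrFun B.2.2 q) p
    rw [e1]
  · -- gl
    intro U hU
    obtain ⟨W, hW1, hW2⟩ : ∃ W : Matrix {j // j ≠ i} {j // j ≠ i} ℤ, U * W = 1 ∧ W * U = 1 := by
      have h1 := (Matrix.isUnit_iff_isUnit_det U).2 hU
      obtain ⟨u, hu⟩ := h1
      refine ⟨(u⁻¹ : (Matrix {j // j ≠ i} {j // j ≠ i} ℤ)ˣ), ?_, ?_⟩
      · rw [← hu]; exact u.mul_inv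
      · rw [← hu]; exact u.inv_mul
    have hA1 : mk i 1 0 U * mk i 1 0 W = 1 := by rw [mk_mul, hW1, mk_one]
    have hA2 : mk i 1 0 W * mk i 1 0 U = 1 := by rw [mk_mul, hW2, mk_one]
    obtain ⟨ρ, hρ⟩ := h.gl (mk i 1 0 U) (by
      rw [← Matrix.isUnit_iff_isUnit_det]
      exact ⟨⟨_, _, hA1, hA2⟩, rfl⟩)
    refine ⟨ρ, fun B' ↦ ?_⟩
    rw [res_iso h]
    unfold res
    have hc1 : ∀ B : Matrix ι ι ℤ, (mk i 1 0 W).transpose *
        ((mk i 1 0 U).transpose * B * mk i 1 0 U) * mk i 1 0 W = B := by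
      intro B
      calc (mk i 1 0 W).transpose * ((mk i 1 0 U).transpose * B * mk i 1 0 U) * mk i 1 0 W
          = ((mk i 1 0 U) * (mk i 1 0 W)).transpose * B * (mk i 1 0 U * mk i 1 0 W) := by
            rw [Matrix.transpose_mul]
            simp only [Matrix.mul_assoc]
        _ = B := by rw [hA1, Matrix.transpose_one, one_mul, mul_one]
    have hc2 : ∀ B : Matrix ι ι ℤ, (mk i 1 0 U).transpose *
        ((mk i 1 0 W).transpose * B * mk i 1 0 W) * mk i 1 0 U = B := by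
      intro B
      calc (mk i 1 0 U).transpose * ((mk i 1 0 W).transpose * B * mk i 1 0 W) * mk i 1 0 U
          = ((mk i 1 0 W) * (mk i 1 0 U)).transpose * B * (mk i 1 0 W * mk i 1 0 U) := by
            rw [Matrix.transpose_mul]
            simp only [Matrix.mul_assoc]
        _ = B := by rw [hA2, Matrix.transpose_one, one_mul, mul_one]
    let E : {B : Matrix ι ι ℤ // B i i = n ∧ blk i B = B'} ≃
        {B : Matrix ι ι ℤ // B i i = n ∧ blk i B = U.transpose * B' * U} :=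
      { toFun := fun B ↦ ⟨(mk i 1 0 U).transpose * B.1 * mk i 1 0 U, by
          rw [conj_ii]; exact B.2.1, by rw [conj_blk, B.2.2]⟩
        invFun := fun B ↦ ⟨(mk i 1 0 W).transpose * B.1 * mk i 1 0 W, by
          rw [conj_ii]; exact B.2.1, by
          rw [conj_blk, B.2.2]
          calc W.transpose * (U.transpose * B' * U) * W = (U * W).transpose * B' * (U * W) := by
                rw [Matrix.transpose_mul]
                simp only [Matrix.mul_assoc]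
            _ = B' := by rw [hW1, Matrix.transpose_one, one_mul, mul_one]⟩
        left_inv := fun B ↦ Subtype.ext (hc1 B.1)
        right_inv := fun B ↦ Subtype.ext (hc2 B.1) }
    rw [← E.tsum_eq]
    exact tsum_congr fun B ↦ hρ B.1
  · -- inv
    intro i₀
    obtain ⟨ρ, hρ⟩ := h.inv i₀.1
    refine ⟨ρ, fun S τ z hτ ↦ ?_⟩
    have hτ' : 0 < (-1 / τ).im := im_neg_inv' hτ
    rw [psi_res hN h i n i₀ S hτ', psi_res hN h i n i₀ S hτ]
    have h1 := (gg_summ hN h i n i₀ S hτ' (fun j ↦ z j / τ)).hasSum.tsum_fiberwise (rw' i i₀)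
    have h2 := (gg_summ hN h i n i₀ S hτ z).hasSum.tsum_fiberwise (rw' i i₀)
    rw [← h1.tsum_eq, ← h2.tsum_eq]
    have h3 := ρ.toContinuousLinearMap.map_tsum h2.summable
    have h4 : ρ (∑' c, ∑' B : rw' i i₀ ⁻¹' {c}, gg N a i n i₀ S τ z B) =
      ∑' c, ρ (∑' B : rw' i i₀ ⁻¹' {c}, gg N a i n i₀ S τ z B) := h3
    rw [h4, ← tsum_const_smul'']
    refine tsum_congr fun b ↦ ?_
    by_cases hb : b i₀ = 0
    · rw [gg_row h i n i₀ S _ _ b hb, gg_row h i n i₀ S _ _ b hb, ← zx_div, hρ _ τ _ hτ]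
      congr 4
      have hi : i ≠ i₀.1 := fun hh ↦ i₀.2 hh.symm
      rw [sum_erase_ext i i₀ _ (by simp [zx_i])]
      refine sum_congr rfl fun j _ ↦ ?_
      rw [sum_erase_ext i i₀ _ (by simp [zx_i])]
      refine sum_congr rfl fun l _ ↦ ?_
      rw [mk_jl, zx_j, zx_j]
    · rw [gg_row0 i n i₀ S _ _ b hb, gg_row0 i n i₀ S _ _ b hb, map_zero, smul_zero]

end Siegel

end Pool.Agent.Results.MP_386e47_ag.SpecialCycles
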